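import Pool.Agent.Run7.h947.IW.GapK

/-!
# The gap theorems over a number field: growth and rank
-/

set_option autoImplicit false

namespace Run7.h947.IW

open IntermediateField Module Pool.Agent.Q60.MU Pool.Agent.W5h77.MB Pool.Agent.W5h33.DF NumberField
open scoped Pointwise commutatorElement

variable {p : ℕ} {I : ValuationSubring Qb → Subgroup Gal(Qb/ℚ)}
variable {k K : IntermediateField ℚ Qb} [FiniteDimensional ℚ K]

omit [FiniteDimensional ℚ K] in
theorem deg_layer [hp : Fact p.Prime] [FiniteDimensional ℚ K] {m : ℕ} {R : IntermediateField ℚ Qb}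
    (hR : IsLayer p m R) :
    finrank ℚ ↥(K ⊔ R) / finrank ℚ K = R.fixingSubgroup.relIndex K.fixingSubgroup := by
  have hfR := layer_fd hp.out hR
  have hidxK : finrank ℚ K = K.fixingSubgroup.index := finrank_eq_fixingSubgroup_index Qb K
  have hKRidx : finrank ℚ ↥(K ⊔ R) = (K ⊔ R).fixingSubgroup.index :=
    finrank_eq_fixingSubgroup_index Qb (K ⊔ R)
  have h3 := Subgroup.relIndex_mul_index
    (inf_le_left : K.fixingSubgroup ⊓ R.fixingSubgroup ≤ K.fixingSubgroup)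
  rw [Subgroup.inf_relIndex_left] at h3
  rw [hKRidx, hidxK, fixingSubgroup_sup, ← h3]
  exact Nat.mul_div_cancel _ (Nat.pos_of_ne_zero (index_ne_zero' K))

theorem comm_layer [hp : Fact p.Prime] (hp2 : p ≠ 2) {m : ℕ} {S : IntermediateField ℚ Qb}
    (hS : IsLayer p m S) (x y : k.fixingSubgroup) :
    ⁅x, y⁆ ∈ S.fixingSubgroup.subgroupOf k.fixingSubgroup := by
  have hSn := layer_normal hp.out hS
  exact comm_mem_of (layer_cyclic hp.out hp2 hS) (x : Gal(Qb/ℚ)) y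

/-- **The gap theorem over `k`.** -/
theorem gapk_growth [hp : Fact p.Prime] (hp2 : p ≠ 2)
    (hI : ∀ (g : Gal(Qb/ℚ)) (A : ValuationSubring Qb), ∀ σ ∈ I A, g * σ * g⁻¹ ∈ I (g • A))
    (hI2 : ∀ A, I A ≤ inertia A ∨ (p : Qb) ∈ A.nonunits) (hkK : k ≤ K)
    (hKn : (K.fixingSubgroup.subgroupOf k.fixingSubgroup).Normal)
    (𝓔 : Set (IntermediateField ℚ Qb)) (h𝓔 : ∀ E ∈ 𝓔, k ≤ E ∧ E ≤ K) {d : ℕ}
    (hdet : DetectsOver p d k K 𝓔)
    {e n : ℕ} {R R' : IntermediateField ℚ Qb} (hR : IsLayer p e R) (hR' : IsLayer p n R')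
    (hRR : R ≤ R') (htot : TotallyI p I (K ⊔ R)) {C E : ℕ} (hC : DegLeI p I (K ⊔ R') C)
    (hE : ¬ DegLeI p I (K ⊔ R) E)
    (hCE : C < p ^ (d * (finrank ℚ ↥(K ⊔ R') / finrank ℚ K - finrank ℚ ↥(K ⊔ R) / finrank ℚ K)) * (E + 1)) :
    MuI p I K ↔ ∀ E ∈ 𝓔, MuI p I E := by
  classical
  refine ⟨fun h E hE => muI_down (h𝓔 E hE).2 h, fun hmu => ?_⟩
  have hfk : FiniteDimensional ℚ k := fd_of_le hkK
  have hfR := layer_fd hp.out hR
  have hfR' := layer_fd hp.out hR'
  rw [deg_layer hR, deg_layer hR'] at hCE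
  rw [← rankLe_iffI, fixingSubgroup_sup] at hC hE
  obtain ⟨a, -, ha⟩ := relIndex_pow_of_layer K hR
  obtain ⟨b', -, hb'⟩ := relIndex_pow_of_layer K hR'
  have hRR' : R'.fixingSubgroup ≤ R.fixingSubgroup := fixingSubgroup_le hRR
  have hle : a ≤ b' := by
    have h1 : R.fixingSubgroup.relIndex K.fixingSubgroup ≤ R'.fixingSubgroup.relIndex K.fixingSubgroup :=
      Subgroup.relIndex_le_of_le_left hRR' (by
        rw [hb']
        exact pow_ne_zero _ hp.out.ne_zero)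
    rw [ha, hb'] at h1
    exact (Nat.pow_le_pow_iff_right hp.out.one_lt).1 h1
  obtain ⟨b, rfl⟩ := Nat.exists_eq_add_of_le hle
  have hb : b ≠ 0 := by
    rintro rfl
    apply hE
    rw [ha, hb', add_zero, Nat.sub_self, mul_zero, pow_zero, one_mul] at hCE
    have h1 : K.fixingSubgroup ⊓ R'.fixingSubgroup = K.fixingSubgroup ⊓ R.fixingSubgroup := by
      apply le_antisymm (inf_le_inf_left _ hRR')
      have h2 : (K.fixingSubgroup ⊓ R'.fixingSubgroup).relIndex (K.fixingSubgroup ⊓ R.fixingSubgroup) *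
          (K.fixingSubgroup ⊓ R.fixingSubgroup).relIndex K.fixingSubgroup =
          (K.fixingSubgroup ⊓ R'.fixingSubgroup).relIndex K.fixingSubgroup :=
        Subgroup.relIndex_mul_relIndex _ _ _ (inf_le_inf_left _ hRR') inf_le_left
      rw [Subgroup.inf_relIndex_left, Subgroup.inf_relIndex_left, ha, hb', add_zero] at h2
      rw [← Subgroup.relIndex_eq_one]
      exact Nat.eq_of_mul_eq_mul_right (pow_pos hp.out.pos a) (h2.trans (one_mul _).symm)
    rw [h1] at hC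
    exact hC.mono (by omega)
  rw [ha, hb'] at hCE
  have hG₀o : IsOpen (k.fixingSubgroup : Set Gal(Qb/ℚ)) := k.fixingSubgroup_isOpen
  have hKG : K.fixingSubgroup ≤ k.fixingSubgroup := fixingSubgroup_le hkK
  have hK0 := index_ne_zero' K
  obtain ⟨w₀, hw₀⟩ := exists_val hp.out
  have hsn : ∀ {m : ℕ} {S : IntermediateField ℚ Qb}, IsLayer p m S →
      (S.fixingSubgroup.subgroupOf k.fixingSubgroup).Normal := fun {m S} hS => by
    have := layer_normal hp.out hS
    infer_instance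
  refine gapk_core hp2 hI hI2 hkK hKn 𝓔 h𝓔 hdet hR' (N₀ := p ^ (a + b) - p ^ a - 1 + p ^ a)
    (C₀ := C ^ (p ^ (a + b) - p ^ a - 1 + p ^ a)) (fun m S hS hRS => ?_) hmu
  have hfS := layer_fd hp.out hS
  have hSn := layer_normal hp.out hS
  refine cond_of_growth (I := fun w => (I w).subgroupOf k.fixingSubgroup)
    (De := R.fixingSubgroup.subgroupOf k.fixingSubgroup)
    (Dn := R'.fixingSubgroup.subgroupOf k.fixingSubgroup) (fun g w x hx => hI g w x hx) hKn (hsn hR)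
    (hsn hR') (fun x hx => fixingSubgroup_le hRS hx) (fun x hx => hRR' hx) ?_ ?_
    (comm_layer hp2 hS) hb (by rw [Subgroup.relIndex_subgroupOf hKG, ha])
    (by rw [Subgroup.relIndex_subgroupOf hKG, hb']) (fun A => (p : Qb) ∈ A.nonunits)
    (fun A hA => ?_) w₀ hw₀ (fun A hA σ hσ => ?_) (C := C) (E := E) ?_ (fun h => hE ?_) hCE
  · intro h
    have h1 := Subgroup.relIndex_mul_index hKG
    have h2 : K.fixingSubgroup.relIndex k.fixingSubgroup = 0 := h
    rw [h2, zero_mul] at h1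
    exact hK0 h1.symm
  · have htopS : S.fixingSubgroup.relIndex ⊤ ≠ 0 := by
      rw [Subgroup.relIndex_top_right]
      exact index_ne_zero' S
    exact fun h => htopS (Subgroup.relIndex_eq_zero_of_le_right le_top h)
  · rcases hI2 A with h | h
    · exact fun x hx => (h.trans (inertia_le_layer hp.out hS hA)) hx
    · exact absurd h hA
  · have hσ1 : (σ : Gal(Qb/ℚ)) ∈ (K ⊔ R).fixingSubgroup := by
      rw [fixingSubgroup_sup]
      exact hσ
    obtain ⟨τ, hτ, hτ2, hτ3⟩ := htot m S hS A hA σ hσ1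
    rw [fixingSubgroup_sup] at hτ2
    refine ⟨⟨τ, hKG hτ2.1⟩, hτ, hτ2, ?_⟩
    have h1 : τ⁻¹ * σ ∈ K.fixingSubgroup ⊓ S.fixingSubgroup := by
      rw [← fixingSubgroup_sup, IntermediateField.mem_fixingSubgroup_iff]
      intro x hx
      have h2 := hτ3 x (by
        have h6 : K ⊔ S ≤ (K ⊔ R) ⊔ S := sup_le (le_sup_left.trans le_sup_left) le_sup_right
        exact h6 hx)
      show τ⁻¹ ((σ : Gal(Qb/ℚ)) x) = x
      rw [← h2]
      show (τ⁻¹ * τ) x = x
      rw [inv_mul_cancel]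
      rfl
    have h3 : (σ : Gal(Qb/ℚ)) * τ⁻¹ = τ * (τ⁻¹ * σ) * τ⁻¹ := by group
    have h4 : (σ : Gal(Qb/ℚ)) * τ⁻¹ ∈ K.fixingSubgroup ⊓ S.fixingSubgroup := by
      rw [h3]
      exact ⟨K.fixingSubgroup.mul_mem (K.fixingSubgroup.mul_mem hτ2.1 h1.1)
        (K.fixingSubgroup.inv_mem hτ2.1), hSn.conj_mem _ h1.2 τ⟩
    exact h4
  · exact (rankLe_subgroupOf (H := K.fixingSubgroup ⊓ R'.fixingSubgroup) hG₀o
      (inf_le_left.trans hKG)).2 hC
  · exact (rankLe_subgroupOf (H := K.fixingSubgroup ⊓ R.fixingSubgroup) hG₀o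
      (inf_le_left.trans hKG)).1 h

/-- The gap theorem for the rank of one layer, if the groups `I A` act trivially on the layers. -/
theorem gapk_rank [hp : Fact p.Prime] (hp2 : p ≠ 2)
    (hI : ∀ (g : Gal(Qb/ℚ)) (A : ValuationSubring Qb), ∀ σ ∈ I A, g * σ * g⁻¹ ∈ I (g • A))
    (hI2 : ∀ A, I A ≤ inertia A ∨ (p : Qb) ∈ A.nonunits)
    (hI3 : ∀ (m : ℕ) (S : IntermediateField ℚ Qb), IsLayer p m S → ∀ A, I A ≤ S.fixingSubgroup)
    (hkK : k ≤ K) (hKn : (K.fixingSubgroup.subgroupOf k.fixingSubgroup).Normal)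
    (𝓔 : Set (IntermediateField ℚ Qb)) (h𝓔 : ∀ E ∈ 𝓔, k ≤ E ∧ E ≤ K) {d : ℕ}
    (hdet : DetectsOver p d k K 𝓔) {n : ℕ} {R : IntermediateField ℚ Qb} (hR : IsLayer p n R)
    {C : ℕ} (hC : DegLeI p I (K ⊔ R) C)
    (hCE : C < p ^ (d * (finrank ℚ ↥(K ⊔ R) / finrank ℚ K))) :
    MuI p I K ↔ ∀ E ∈ 𝓔, MuI p I E := by
  classical
  refine ⟨fun h E hE => muI_down (h𝓔 E hE).2 h, fun hmu => ?_⟩
  have hfk : FiniteDimensional ℚ k := fd_of_le hkK
  have hfR := layer_fd hp.out hR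
  rw [deg_layer hR] at hCE
  rw [← rankLe_iffI, fixingSubgroup_sup] at hC
  obtain ⟨a, -, ha⟩ := relIndex_pow_of_layer K hR
  rw [ha] at hCE
  have hG₀o : IsOpen (k.fixingSubgroup : Set Gal(Qb/ℚ)) := k.fixingSubgroup_isOpen
  have hKG : K.fixingSubgroup ≤ k.fixingSubgroup := fixingSubgroup_le hkK
  have hK0 := index_ne_zero' K
  have hsn : ∀ {m : ℕ} {S : IntermediateField ℚ Qb}, IsLayer p m S →
      (S.fixingSubgroup.subgroupOf k.fixingSubgroup).Normal := fun {m S} hS => by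
    have := layer_normal hp.out hS
    infer_instance
  refine gapk_core hp2 hI hI2 hkK hKn 𝓔 h𝓔 hdet hR (N₀ := p ^ a - 1) (C₀ := C ^ (p ^ a - 1))
    (fun m S hS hRS => ?_) hmu
  have hfS := layer_fd hp.out hS
  refine cond_of_rank (I := fun w => (I w).subgroupOf k.fixingSubgroup)
    (Dn := R.fixingSubgroup.subgroupOf k.fixingSubgroup) (fun g w x hx => hI g w x hx) hKn (hsn hR)
    (fun x hx => fixingSubgroup_le hRS hx) ?_ ?_
    (comm_layer hp2 hS) (by rw [Subgroup.relIndex_subgroupOf hKG, ha])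
    (fun A x hx => hI3 m S hS A hx) ?_ hCE
  · intro h
    have h1 := Subgroup.relIndex_mul_index hKG
    have h2 : K.fixingSubgroup.relIndex k.fixingSubgroup = 0 := h
    rw [h2, zero_mul] at h1
    exact hK0 h1.symm
  · have htopS : S.fixingSubgroup.relIndex ⊤ ≠ 0 := by
      rw [Subgroup.relIndex_top_right]
      exact index_ne_zero' S
    exact fun h => htopS (Subgroup.relIndex_eq_zero_of_le_right le_top h)
  · exact (rankLe_subgroupOf (H := K.fixingSubgroup ⊓ R.fixingSubgroup) hG₀o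
      (inf_le_left.trans hKG)).2 hC

end Run7.h947.IW
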