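import Pool.Agent.Run7.h947.IW.GapL

/-!
# The layers of the cyclotomic `ℤ_p`-extension of `ℚ` exist
-/

set_option autoImplicit false

namespace Run7.h947.IW

open IntermediateField Module Pool.Agent.Q60.MU Pool.Agent.W5h77.MB Pool.Agent.W5h33.DF NumberField
open scoped Pointwise commutatorElement

/-- The layer of degree `p ^ m` exists. -/
theorem exists_layer {p : ℕ} (hp : p.Prime) (hp2 : p ≠ 2) (m : ℕ) :
    ∃ R : IntermediateField ℚ Qb, IsLayer p m R := by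
  classical
  set N := m + 1 with hN
  have hn0 : 0 < p ^ N := pow_pos hp.pos N
  have hpn : NeZero (p ^ N) := ⟨hn0.ne'⟩
  have hpQ : NeZero ((p ^ N : ℕ) : Qb) := ⟨by exact_mod_cast hn0.ne'⟩
  have hE : HasEnoughRootsOfUnity Qb (p ^ N) := inferInstance
  have hn : Nat.card { x // x ∈ rootsOfUnity (p ^ N) Qb } = p ^ N :=
    HasEnoughRootsOfUnity.natCard_rootsOfUnity Qb (p ^ N)
  obtain ⟨ζ, hζ⟩ := HasEnoughRootsOfUnity.exists_primitiveRoot Qb (p ^ N)
  let f : Gal(Qb/ℚ) →* (Qb ≃+* Qb) :=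
    { toFun := fun g => g.toRingEquiv
      map_one' := rfl
      map_mul' := fun _ _ => rfl }
  let χ : Gal(Qb/ℚ) →* (ZMod (p ^ N))ˣ := (modularCyclotomicCharacter Qb hn).comp f
  have hζ0 : ζ ≠ 0 := hζ.ne_zero hn0.ne'
  set ζu : Qbˣ := Units.mk0 ζ hζ0 with hζu
  have hζr : ζu ∈ rootsOfUnity (p ^ N) Qb := by
    rw [mem_rootsOfUnity]
    ext
    exact hζ.pow_eq_one
  have hspec : ∀ g : Gal(Qb/ℚ), g ζ = ζ ^ ((χ g : (ZMod (p ^ N))ˣ) : ZMod (p ^ N)).val := fun g =>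
    modularCyclotomicCharacter.spec Qb hn (f g) hζr
  have hp1 : 1 < p ^ N := Nat.one_lt_pow (by omega) hp.one_lt
  have hf1 : Fact (1 < p ^ N) := ⟨hp1⟩
  have hker : ∀ g, χ g = 1 → g ζ = ζ := by
    intro g hg
    rw [hspec g, hg, Units.val_one, ZMod.val_one, pow_one]
  have hsurj : Function.Surjective χ := by
    intro u
    have hcop : Nat.Coprime (u : ZMod (p ^ N)).val (p ^ N) := ZMod.val_coe_unit_coprime u
    have hζℓ : IsPrimitiveRoot (ζ ^ (u : ZMod (p ^ N)).val) (p ^ N) := hζ.pow_of_coprime _ hcop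
    have hconj : IsConjRoot ℚ ζ (ζ ^ (u : ZMod (p ^ N)).val) := by
      rw [isConjRoot_def, ← Polynomial.cyclotomic_eq_minpoly_rat hζ hn0,
        ← Polynomial.cyclotomic_eq_minpoly_rat hζℓ hn0]
    obtain ⟨g, hg⟩ := (isConjRoot_iff_exists_algEquiv).1 hconj.symm
    refine ⟨g, ?_⟩
    have h1 : ζ ^ ((χ g : (ZMod (p ^ N))ˣ) : ZMod (p ^ N)).val = ζ ^ (u : ZMod (p ^ N)).val := by
      rw [← hspec g]
      exact hg
    have h2 := hζ.pow_inj (ZMod.val_lt _) (ZMod.val_lt _) h1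
    exact Units.ext (ZMod.val_injective _ h2)
  -- the subgroup
  have hcyc : IsCyclic (ZMod (p ^ N))ˣ := ZMod.isCyclic_units_of_prime_pow p hp hp2 N
  let ψ : (ZMod (p ^ N))ˣ →* (ZMod (p ^ N))ˣ := powMonoidHom (p - 1)
  have hcard : Nat.card (ZMod (p ^ N))ˣ = p ^ m * (p - 1) := by
    rw [Nat.card_eq_fintype_card, ZMod.card_units_eq_totient, hN, Nat.totient_prime_pow_succ hp]
  have hp1' : 0 < p - 1 := by
    have := hp.two_le
    omega
  have hidx : ψ.ker.index = p ^ m := by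
    have h1 : ψ.ker.index = Nat.card (ZMod (p ^ N))ˣ / (Nat.card (ZMod (p ^ N))ˣ).gcd (p - 1) :=
      IsCyclic.index_powMonoidHom_ker _ (p - 1)
    rw [h1, hcard, Nat.gcd_eq_right (Dvd.intro_left _ rfl), Nat.mul_div_cancel _ hp1']
  set H := ψ.ker.comap χ with hH
  have hHi : H.index = p ^ m := by
    rw [hH, Subgroup.index_comap_of_surjective _ hsurj, hidx]
  have hfd : FiniteDimensional ℚ ℚ⟮ζ⟯ :=
    adjoin.finiteDimensional ((root_integral hn0 hζ.pow_eq_one).tower_top)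
  have hkerH : ℚ⟮ζ⟯.fixingSubgroup ≤ χ.ker := by
    intro g hg
    have h1 := (IntermediateField.mem_fixingSubgroup_iff ℚ⟮ζ⟯ _).1 hg ζ (mem_adjoin_simple_self ℚ ζ)
    rw [MonoidHom.mem_ker]
    have h2 : ζ ^ ((χ g : (ZMod (p ^ N))ˣ) : ZMod (p ^ N)).val = ζ ^ (1 : ZMod (p ^ N)).val := by
      rw [← hspec g, h1, ZMod.val_one, pow_one]
    have h3 := hζ.pow_inj (ZMod.val_lt _) (ZMod.val_lt _) h2
    exact Units.ext (ZMod.val_injective _ h3)
  have hle : ℚ⟮ζ⟯.fixingSubgroup ≤ H := fun g hg => by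
    rw [hH, Subgroup.mem_comap, MonoidHom.mem_ker.1 (hkerH hg)]
    exact one_mem _
  have hHo : IsOpen (H : Set Gal(Qb/ℚ)) := Subgroup.isOpen_mono hle ℚ⟮ζ⟯.fixingSubgroup_isOpen
  refine ⟨fixedField H, ?_, N, ?_⟩
  · rw [finrank_eq_fixingSubgroup_index, fix_fixed hHo, hHi]
  · have h1 : fixedField H ≤ fixedField ℚ⟮ζ⟯.fixingSubgroup := fixedField_le hle
    rw [InfiniteGalois.fixedField_fixingSubgroup] at h1
    refine h1.trans ?_
    rw [adjoin_simple_le_iff]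
    exact subset_adjoin ℚ _ hζ.pow_eq_one

end Run7.h947.IW
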