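import Pool.Agent.Run7.h947.IW.Red

/-!
# Extensions unramified outside `p`, totally real fields and involutions
-/

set_option autoImplicit false

namespace Run7.h947.IW

open IntermediateField Module Pool.Agent.Q60.MU Pool.Agent.W5h77.MB Pool.Agent.W5h33.DF NumberField
open Pool.Agent.X310.Mu (comms comms_normal)
open scoped Pointwise commutatorElement ComplexConjugate

open Classical in
/-- The inertia groups at the primes of `Qb` which are not above `p`, and the trivial group at the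
primes above `p`. -/
noncomputable def inertiaOutside (p : ℕ) (A : ValuationSubring Qb) : Subgroup Gal(Qb/ℚ) :=
  if (p : Qb) ∈ A.nonunits then ⊥ else inertia A

/-- Every embedding of `M` in `ℂ` is real. -/
def IsTotReal (M : IntermediateField ℚ Qb) : Prop :=
  ∀ (φ : M →+* ℂ) (x : M), conj (φ x) = φ x

theorem outside_conj (p : ℕ) (g : Gal(Qb/ℚ)) (A : ValuationSubring Qb) :
    ∀ σ ∈ inertiaOutside p A, g * σ * g⁻¹ ∈ inertiaOutside p (g • A) := by
  intro σ hσ
  unfold inertiaOutside at hσ ⊢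
  by_cases h : (p : Qb) ∈ A.nonunits
  · rw [if_pos h, Subgroup.mem_bot] at hσ
    rw [hσ, mul_one, mul_inv_cancel]
    exact one_mem _
  · rw [if_neg h] at hσ
    have h1 : (p : Qb) ∉ (g • A).nonunits := by
      intro h2
      have h3 := natCast_smul_nonunits (g := g⁻¹) h2
      rw [inv_smul_smul] at h3
      exact h h3
    rw [if_neg h1]
    exact inertia_conj g A σ hσ

theorem outside_le (p : ℕ) (A : ValuationSubring Qb) :
    inertiaOutside p A ≤ inertia A ∨ (p : Qb) ∈ A.nonunits := by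
  unfold inertiaOutside
  by_cases h : (p : Qb) ∈ A.nonunits
  · exact Or.inr h
  · rw [if_neg h]
    exact Or.inl le_rfl

theorem totReal_iff {ι : Qb →+* ℂ} {c : Gal(Qb/ℚ)} (hc : ∀ x, ι (c x) = conj (ι x))
    (M : IntermediateField ℚ Qb) :
    IsTotReal M ↔ ∀ g : Gal(Qb/ℚ), g * c * g⁻¹ ∈ M.fixingSubgroup := by
  constructor
  · intro h g
    rw [IntermediateField.mem_fixingSubgroup_iff]
    intro x hx
    have h1 := h (ι.comp (((g⁻¹ : Gal(Qb/ℚ)) : Qb →ₐ[ℚ] Qb).toRingHom.comp M.val.toRingHom)) ⟨x, hx⟩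
    have h2 : conj (ι (g⁻¹ x)) = ι (g⁻¹ x) := h1
    rw [← hc] at h2
    show g (c (g⁻¹ x)) = x
    rw [ι.injective h2]
    show (g * g⁻¹) x = x
    rw [mul_inv_cancel]
    rfl
  · intro h φ x
    obtain ⟨g, hg⟩ := ext_emb ι M φ
    rw [← hg, ← hc]
    congr 1
    have h1 := (IntermediateField.mem_fixingSubgroup_iff _ _).1 (h g⁻¹) x x.2
    rw [inv_inv] at h1
    have h2 : c (g (x : Qb)) = g ((g⁻¹ * c * g) x) := by
      show (c * g) (x : Qb) = (g * (g⁻¹ * c * g)) (x : Qb)
      congr 1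
      group
    rw [h2, h1]

theorem totReal_of_le {M N : IntermediateField ℚ Qb} (h : M ≤ N) (hN : IsTotReal N) : IsTotReal M := by
  obtain ⟨ι⟩ := exists_iota
  obtain ⟨c, hc, hcc⟩ := exists_conj ι
  rw [totReal_iff hc] at hN ⊢
  exact fun g => fixingSubgroup_le h (hN g)

/-- The Galois closure of a totally real field is totally real. -/
theorem real_closure (F : IntermediateField ℚ Qb) (hF : FiniteDimensional ℚ F) (hR : IsTotReal F) :
    ∃ N : IntermediateField ℚ Qb, F ≤ N ∧ FiniteDimensional ℚ N ∧ IsGalois ℚ N ∧ IsTotReal N := by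
  have hUf : F.fixingSubgroup.FiniteIndex := ⟨index_ne_zero' F⟩
  set K := F.fixingSubgroup.normalCore with hKdef
  have hKn : K.Normal := Subgroup.normalCore_normal _
  have hKo : IsOpen (K : Set Gal(Qb/ℚ)) :=
    isOpen_normalCore F.fixingSubgroup_isOpen (index_ne_zero' F)
  have hKf : K.index ≠ 0 := by
    have : K.FiniteIndex := F.fixingSubgroup.finiteIndex_normalCore
    exact Subgroup.FiniteIndex.index_ne_zero
  have hfix := fix_fixed hKo
  refine ⟨fixedField K, (le_iff_le _ _).2 (Subgroup.normalCore_le _), finite_fixed hKo hKf,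
    (InfiniteGalois.normal_iff_isGalois (fixedField K)).1 (by rw [hfix]; exact hKn), ?_⟩
  obtain ⟨ι⟩ := exists_iota
  obtain ⟨c, hc, hcc⟩ := exists_conj ι
  rw [totReal_iff hc] at hR ⊢
  rw [hfix]
  have h1 : c ∈ K := by
    intro g
    exact hR g
  exact fun g => hKn.conj_mem c h1 g

theorem inf_fixed (N : IntermediateField ℚ Qb) (H : Subgroup Gal(Qb/ℚ)) :
    N ⊓ fixedField H = fixedField (N.fixingSubgroup ⊔ H) := by
  apply le_antisymm
  · rintro x ⟨hx, hx'⟩
    rw [mem_fixedField_iff]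
    have h1 : N.fixingSubgroup ⊔ H ≤ MulAction.stabilizer Gal(Qb/ℚ) x := by
      rw [sup_le_iff]
      refine ⟨fun g hg => (IntermediateField.mem_fixingSubgroup_iff _ _).1 hg x hx, fun g hg => ?_⟩
      exact (mem_fixedField_iff _ _).1 hx' g hg
    exact fun g hg => h1 hg
  · refine le_inf ?_ (fixedField_antitone le_sup_right)
    conv_rhs => rw [← InfiniteGalois.fixedField_fixingSubgroup N]
    exact fixedField_antitone le_sup_left

theorem inf_fixed_fix (N : IntermediateField ℚ Qb) [FiniteDimensional ℚ N] (H : Subgroup Gal(Qb/ℚ)) :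
    (N ⊓ fixedField H).fixingSubgroup = N.fixingSubgroup ⊔ H := by
  rw [inf_fixed]
  exact fix_fixed (Subgroup.isOpen_mono le_sup_left N.fixingSubgroup_isOpen)

section inv
variable {p : ℕ} [hp : Fact p.Prime] {S : Type} [AddCommGroup S] [Module (ZMod p) S]
  (τ : Representation (ZMod p) Gal(Qb/ℚ) S)

theorem inv_cases {c : Gal(Qb/ℚ)} (hcc : ∀ v : S, τ c (τ c v) = v) :
    (∃ v : S, v ≠ 0 ∧ τ c v = v) ∨ ∀ v : S, τ c v = -v := by
  by_cases h : ∃ v : S, v ≠ 0 ∧ τ c v = v
  · exact Or.inl h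
  · right
    intro v
    have h2 : τ c (v + τ c v) = v + τ c v := by
      rw [map_add, hcc, add_comm]
    by_contra h3
    apply h
    refine ⟨v + τ c v, fun h4 => h3 ?_, h2⟩
    exact eq_neg_of_add_eq_zero_right h4

theorem inv_comms {c : Gal(Qb/ℚ)} (h : ∀ v : S, τ c v = -v) :
    ∀ g ∈ comms c, ∀ v : S, τ g v = v := by
  let K : Subgroup Gal(Qb/ℚ) :=
    { carrier := {g | ∀ v : S, τ g v = v}
      mul_mem' := by
        intro a b ha hb v
        rw [map_mul, Module.End.mul_apply, hb v, ha v]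
      one_mem' := by
        intro v
        rw [map_one]
        rfl
      inv_mem' := by
        intro a ha v
        calc τ a⁻¹ v = τ a⁻¹ (τ a v) := by rw [ha]
          _ = τ (a⁻¹ * a) v := by rw [map_mul, Module.End.mul_apply]
          _ = v := by
            rw [inv_mul_cancel, map_one]
            rfl }
  have hle : comms c ≤ K := by
    unfold comms
    rw [Subgroup.closure_le]
    rintro _ ⟨g, rfl⟩ v
    have h2 : τ g (τ g⁻¹ v) = v := by
      rw [← Module.End.mul_apply, ← map_mul, mul_inv_cancel, map_one]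
      rfl
    have h3 : τ c⁻¹ v = -v := by
      have h4 : τ c⁻¹ (τ c (-v)) = -v := by
        rw [← Module.End.mul_apply, ← map_mul, inv_mul_cancel, map_one]
        rfl
      rw [h, neg_neg] at h4
      exact h4
    show τ (g * c * g⁻¹ * c⁻¹) v = v
    rw [map_mul, map_mul, map_mul, Module.End.mul_apply, Module.End.mul_apply,
      Module.End.mul_apply, h3, h, map_neg, map_neg, map_neg, neg_neg, h2]
  exact fun g hg => hle hg

/-- A vector whose field has degree prime to `p` and a free automorphism group. -/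
theorem vec_prime [Module.Finite (ZMod p) S] [Nontrivial S] {N : IntermediateField ℚ Qb}
    [FiniteDimensional ℚ N] [hNg : IsGalois ℚ N] (hτ : ∀ g ∈ N.fixingSubgroup, ∀ x, τ g x = x) :
    ∃ v : S, v ≠ 0 ∧ fixedField (stab τ v) ≤ N ∧
      FreeAut p (fixedField (stab τ v)) ∧ ¬ p ∣ finrank ℚ (fixedField (stab τ v)) := by
  have hNn : N.fixingSubgroup.Normal := (InfiniteGalois.normal_iff_isGalois N).2 hNg
  obtain ⟨v, hv, H, hH, hHp⟩ := exists_vec_P hNn (index_ne_zero' N) τ hτ
  obtain ⟨v, hv, hPv, hf⟩ := exists_free τ hτ (fun H => ¬ p ∣ H.index)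
    (fun H H' hH hcH h1 => hcH (h1.trans (Subgroup.index_dvd_of_le hH)))
    ⟨v, hv, fun h1 => hHp (h1.trans (Subgroup.index_dvd_of_le hH))⟩
  obtain ⟨h1, h2⟩ := stab_fix τ hτ v
  refine ⟨v, hv, h2, hf, ?_⟩
  rw [finrank_eq_fixingSubgroup_index, h1]
  exact hPv

end inv

/-- **Involutions.** -/
theorem mu_involution {p : ℕ} (hp : p.Prime) {I : ValuationSubring Qb → Subgroup Gal(Qb/ℚ)}
    (hI : ∀ (g : Gal(Qb/ℚ)) (A : ValuationSubring Qb), ∀ σ ∈ I A, g * σ * g⁻¹ ∈ I (g • A))
    (hI2 : ∀ A, I A ≤ inertia A ∨ (p : Qb) ∈ A.nonunits)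
    (N : IntermediateField ℚ Qb) [FiniteDimensional ℚ N] [hNg : IsGalois ℚ N] (c : Gal(Qb/ℚ))
    (hc : ∀ x ∈ N, c (c x) = x) :
    MuI p I N ↔ MuI p I (N ⊓ fixedField (Subgroup.zpowers c)) ∧ MuI p I (N ⊓ fixedField (comms c)) := by
  have hpf : Fact p.Prime := ⟨hp⟩
  refine ⟨fun h => ⟨downI hp N _ inf_le_left h, downI hp N _ inf_le_left h⟩, fun h => ?_⟩
  refine detectI hp hI hI2 N {N ⊓ fixedField (Subgroup.zpowers c), N ⊓ fixedField (comms c)} ?_ ?_ ?_ N le_rfl
  · rintro E (rfl | rfl)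
    · exact inf_le_left
    · exact inf_le_left
  · intro S _ _ _ τ hτ hs
    have hnt := hs.1
    have hcc : ∀ v : S, τ c (τ c v) = v := by
      intro v
      rw [← Module.End.mul_apply, ← map_mul]
      apply hτ
      rw [IntermediateField.mem_fixingSubgroup_iff]
      exact hc
    have key : ∀ (H : Subgroup Gal(Qb/ℚ)) (v : S), (∀ g ∈ H, τ g v = v) →
        ∀ g ∈ (N ⊓ fixedField H).fixingSubgroup, τ g v = v := by
      intro H v hv
      rw [inf_fixed_fix]
      have h1 : N.fixingSubgroup ⊔ H ≤ stab τ v := by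
        rw [sup_le_iff]
        exact ⟨fun g hg => hτ g hg v, hv⟩
      exact fun g hg => h1 hg
    rcases inv_cases τ hcc with ⟨v, hv, hcv⟩ | h1
    · refine ⟨_, Or.inl rfl, v, hv, key _ v ?_⟩
      have h2 : Subgroup.zpowers c ≤ stab τ v := by
        rw [Subgroup.zpowers_le]
        exact hcv
      exact fun g hg => h2 hg
    · obtain ⟨v, hv⟩ := exists_ne (0 : S)
      exact ⟨_, Or.inr rfl, v, hv, key _ v fun g hg => inv_comms τ h1 g hg v⟩
  · rintro E (rfl | rfl)
    · exact h.1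
    · exact h.2

/-- A finite group which acts freely has order prime to `p`. -/
theorem free_card {p : ℕ} (hp : p.Prime) {G : Type} [Group G] [Finite G] (h : ActsFreely p G) :
    ¬ p ∣ Nat.card G := by
  intro hd
  have hpf : Fact p.Prime := ⟨hp⟩
  obtain ⟨σ, hσ⟩ := exists_prime_orderOf_dvd_card' p hd
  obtain ⟨V, _, _, hfin, hnt, ρ, hρ⟩ := h
  have hσ1 : σ ≠ 1 := by
    rintro rfl
    rw [orderOf_one] at hσ
    exact hp.one_lt.ne hσ
  have hch : CharP (Module.End (ZMod p) V) p :=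
    charP_of_injective_algebraMap (FaithfulSMul.algebraMap_injective (ZMod p) (Module.End (ZMod p) V)) p
  have hσp : σ ^ p = 1 := by
    have h0 := pow_orderOf_eq_one σ
    rwa [hσ] at h0
  have h1 : (ρ σ - 1) ^ p = 0 := by
    rw [sub_pow_char_of_commute _ (Commute.one_right _), ← map_pow, hσp, map_one, one_pow, sub_self]
  have h2 : Function.Injective (ρ σ - 1 : Module.End (ZMod p) V) := by
    rw [injective_iff_map_eq_zero]
    intro v hv
    apply hρ σ hσ1
    rw [LinearMap.sub_apply, Module.End.one_apply] at hv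
    exact sub_eq_zero.1 hv
  have h3 : Function.Injective (((ρ σ - 1) ^ p : Module.End (ZMod p) V)) := by
    rw [Module.End.coe_pow]
    exact h2.iterate p
  rw [h1] at h3
  obtain ⟨v, hv⟩ := exists_ne (0 : V)
  apply hv
  apply h3
  simp

/-- A group which acts freely has at most one involution. -/
theorem free_involution {p : ℕ} {G : Type} [Group G] (h : ActsFreely p G) {σ τ : G} (hσ : σ ≠ 1)
    (hτ : τ ≠ 1) (hσ2 : σ * σ = 1) (hτ2 : τ * τ = 1) : σ = τ := by
  obtain ⟨V, _, _, hfin, hnt, ρ, hρ⟩ := h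
  have key : ∀ σ : G, σ ≠ 1 → σ * σ = 1 → ∀ v, ρ σ v = -v := by
    intro σ hσ hσ2 v
    have h1 : ρ σ (ρ σ v) = v := by
      rw [← Module.End.mul_apply, ← map_mul, hσ2, map_one]
      rfl
    have h2 := hρ σ hσ (v + ρ σ v) (by rw [map_add, h1, add_comm])
    exact eq_neg_of_add_eq_zero_right h2
  by_contra hne
  have h1 : σ * τ ≠ 1 := by
    intro h2
    apply hne
    rw [← mul_one σ, ← hτ2, ← mul_assoc, h2, one_mul]
  obtain ⟨v, hv⟩ := exists_ne (0 : V)
  apply hv
  apply hρ _ h1 v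
  rw [map_mul, Module.End.mul_apply, key τ hτ hτ2, map_neg, key σ hσ hσ2, neg_neg]

end Run7.h947.IW
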