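import Pool.Agent.Run7.h947.IW.GapF

/-!
# Extensions in which the primes above `p` split completely
-/

set_option autoImplicit false

namespace Run7.h947.IW

open IntermediateField Module Pool.Agent.Q60.MU Pool.Agent.W5h77.MB Pool.Agent.W5h33.DF NumberField
open scoped Pointwise commutatorElement

open Classical in
/-- The decomposition groups at the primes of `Qb` above `p`, and the inertia groups at the other
primes. -/
noncomputable def splitAbove (p : ℕ) (A : ValuationSubring Qb) : Subgroup Gal(Qb/ℚ) :=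
  if (p : Qb) ∈ A.nonunits then MulAction.stabilizer Gal(Qb/ℚ) A else inertia A

theorem split_conj (p : ℕ) (g : Gal(Qb/ℚ)) (A : ValuationSubring Qb) :
    ∀ σ ∈ splitAbove p A, g * σ * g⁻¹ ∈ splitAbove p (g • A) := by
  intro σ hσ
  unfold splitAbove at hσ ⊢
  by_cases h : (p : Qb) ∈ A.nonunits
  · rw [if_pos h, MulAction.mem_stabilizer_iff] at hσ
    rw [if_pos (natCast_smul_nonunits h), MulAction.mem_stabilizer_iff, mul_smul, mul_smul,
      inv_smul_smul, hσ]
  · rw [if_neg h] at hσ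
    have h1 : (p : Qb) ∉ (g • A).nonunits := by
      intro h2
      have h3 := natCast_smul_nonunits (g := g⁻¹) h2
      rw [inv_smul_smul] at h3
      exact h h3
    rw [if_neg h1]
    exact inertia_conj g A σ hσ

theorem split_le (p : ℕ) (A : ValuationSubring Qb) :
    splitAbove p A ≤ inertia A ∨ (p : Qb) ∈ A.nonunits := by
  unfold splitAbove
  by_cases h : (p : Qb) ∈ A.nonunits
  · exact Or.inr h
  · rw [if_neg h]
    exact Or.inl le_rfl

theorem group_total {𝔾 : Type} [Group 𝔾] {p : ℕ} (hp : p.Prime) {Z K D D' : Subgroup 𝔾} (hKn : K.Normal)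
    (hDn : D.Normal) (hD'n : D'.Normal) (hDD : D' ≤ D) {e m : ℕ} (hDi : D.index = p ^ e)
    (hD'i : D'.index = p ^ m) (hσ : ∃ σ : 𝔾, ∀ τ, ∃ i : ℤ, τ * (σ ^ i)⁻¹ ∈ D') (hZ : Z ⊔ D' = ⊤)
    (hK : ¬ p ^ (e + 1) ∣ K.index) :
    ∀ σ ∈ K ⊓ D, ∃ τ ∈ Z, τ ∈ K ∧ σ * τ⁻¹ ∈ D' := by
  have hcm := comm_mem_of hσ
  set X : Subgroup 𝔾 := Z ⊓ K ⊔ D' with hX
  have hDX : D' ≤ X := le_sup_right
  have hXn : X.Normal := by
    refine ⟨fun x hx g => ?_⟩
    have h1 : g * x * g⁻¹ = ⁅g, x⁆ * x := by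
      rw [commutatorElement_def]
      group
    rw [h1]
    exact X.mul_mem (hDX (hcm g x)) hx
  have h1 : X.index ∣ K.index := by
    have h2 : Z ⊔ X = ⊤ := by
      rw [eq_top_iff, ← hZ]
      exact sup_le_sup_left hDX _
    have h3 : X.index = X.relIndex Z := by
      rw [← Subgroup.relIndex_top_right, ← h2, Subgroup.relIndex_sup_right]
    rw [h3]
    refine (Subgroup.relIndex_dvd_of_le_left (L := Z) (le_sup_left : Z ⊓ K ≤ X)).trans ?_
    rw [Subgroup.inf_relIndex_left]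
    exact Subgroup.relIndex_dvd_index_of_normal K Z
  obtain ⟨v, -, hv⟩ : ∃ v ≤ m, X.index = p ^ v :=
    (Nat.dvd_prime_pow hp).1 (hD'i ▸ Subgroup.index_dvd_of_le hDX)
  have hve : v ≤ e := by
    by_contra hlt
    push Not at hlt
    apply hK
    rw [hv] at h1
    exact (pow_dvd_pow p hlt).trans h1
  obtain ⟨σ₀, hσ₀⟩ := hσ
  have h2 : σ₀ ^ p ^ e ∈ X := by
    obtain ⟨j, rfl⟩ := Nat.exists_eq_add_of_le hve
    rw [pow_add, pow_mul]
    apply X.pow_mem
    rw [← hv]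
    exact X.pow_index_mem σ₀
  rintro σ ⟨hσK, hσD⟩
  obtain ⟨j, hj⟩ := mod_gamma (K := ⊤) hDD (Subgroup.mem_top σ₀) (fun τ _ => hσ₀ τ)
    (Subgroup.mem_top σ) hσD
  rw [Subgroup.relIndex_top_right, hDi] at hj
  have h3 : σ ∈ X := by
    have h4 : σ = (σ * ((σ₀ ^ p ^ e) ^ j)⁻¹) * (σ₀ ^ p ^ e) ^ j := by group
    rw [h4]
    exact X.mul_mem (hDX hj) (X.zpow_mem h2 j)
  rw [hX, Subgroup.mem_sup_of_normal_right] at h3
  obtain ⟨z, ⟨hzZ, hzK⟩, d, hd, hzd⟩ := h3
  refine ⟨z, hzZ, hzK, ?_⟩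
  rw [← hzd]
  exact hD'n.conj_mem d hd z

/-- The primes above `p` of `K R` are not decomposed in the layers above `K R`, if the degree of the layer
`R` is at least the largest power of `p` which divides the degree of `K`. -/
theorem split_total {p : ℕ} [hp : Fact p.Prime] (hp2 : p ≠ 2) (K : IntermediateField ℚ Qb)
    [FiniteDimensional ℚ K] [hKg : IsGalois ℚ K] {e : ℕ} {R : IntermediateField ℚ Qb}
    (hR : IsLayer p e R) (he : ¬ p ^ (e + 1) ∣ finrank ℚ K) : TotallyI p (splitAbove p) (K ⊔ R) := by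
  intro m S hS A hA σ hσ
  have hfR := layer_fd hp.out hR
  have hfS := layer_fd hp.out hS
  obtain ⟨m', hS'⟩ := layer_sup hR hS
  have hfS' := layer_fd hp.out hS'
  have hKn : K.fixingSubgroup.Normal := (InfiniteGalois.normal_iff_isGalois K).2 hKg
  have hSn := layer_normal hp.out hS'
  have hidx : ∀ (m : ℕ) (R : IntermediateField ℚ Qb), IsLayer p m R →
      R.fixingSubgroup.index = p ^ m := fun m R hR => by
    rw [← hR.1, finrank_eq_fixingSubgroup_index Qb R]
  have hKidx : finrank ℚ K = K.fixingSubgroup.index := finrank_eq_fixingSubgroup_index Qb K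
  have hZ : MulAction.stabilizer Gal(Qb/ℚ) A ⊔ (R ⊔ S).fixingSubgroup = ⊤ := by
    rw [eq_top_iff]
    intro g _
    obtain ⟨-, N, hN⟩ := hS'
    obtain ⟨τ, hτ, hτ2⟩ := one_orbit (N := N) hp.out A hA g
    have h1 : τ ∈ (R ⊔ S).fixingSubgroup := by
      have h2 : adjoin ℚ {z : Qb | z ^ p ^ N = 1} ≤ fixedField (Subgroup.zpowers τ) := by
        rw [adjoin_le_iff]
        intro z hz
        have h3 : Subgroup.zpowers τ ≤ MulAction.stabilizer Gal(Qb/ℚ) z := by
          rw [Subgroup.zpowers_le]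
          exact hτ2 z hz
        exact (mem_fixedField_iff _ _).2 fun f hf => h3 hf
      rw [IntermediateField.mem_fixingSubgroup_iff]
      intro x hx
      exact (mem_fixedField_iff _ _).1 (h2 (hN hx)) τ (Subgroup.mem_zpowers τ)
    have h2 : τ⁻¹ * g ∈ MulAction.stabilizer Gal(Qb/ℚ) A := by
      rw [MulAction.mem_stabilizer_iff, mul_smul, hτ, inv_smul_smul]
    have h3 : g = τ * (τ⁻¹ * g) := by group
    rw [h3]
    exact mul_mem ((le_sup_right : (R ⊔ S).fixingSubgroup ≤ _) h1) (Subgroup.mem_sup_left h2)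
  rw [fixingSubgroup_sup] at hσ
  obtain ⟨τ, hτZ, hτK, hστ⟩ := group_total hp.out hKn (layer_normal hp.out hR) hSn
    (fixingSubgroup_le (le_sup_left : R ≤ R ⊔ S)) (hidx e R hR) (hidx m' _ hS')
    (layer_cyclic hp.out hp2 hS') hZ (by rwa [← hKidx]) σ hσ
  have hτR : τ ∈ R.fixingSubgroup := by
    have h1 : σ * τ⁻¹ ∈ R.fixingSubgroup := fixingSubgroup_le (le_sup_left : R ≤ R ⊔ S) hστ
    have h2 : τ = (σ * τ⁻¹)⁻¹ * σ := by group
    rw [h2]
    exact mul_mem (inv_mem h1) hσ.2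
  refine ⟨τ, ?_, ?_, fun x hx => ?_⟩
  · unfold splitAbove
    rw [if_pos hA]
    exact hτZ
  · rw [fixingSubgroup_sup]
    exact ⟨hτK, hτR⟩
  · have h1 : τ⁻¹ * σ ∈ (K ⊔ (R ⊔ S)).fixingSubgroup := by
      rw [fixingSubgroup_sup]
      refine ⟨K.fixingSubgroup.mul_mem (K.fixingSubgroup.inv_mem hτK) hσ.1, ?_⟩
      have h2 := hSn.conj_mem _ hστ τ⁻¹
      have h3 : τ⁻¹ * (σ * τ⁻¹) * τ⁻¹⁻¹ = τ⁻¹ * σ := by group
      rwa [h3] at h2
    have h2 := (IntermediateField.mem_fixingSubgroup_iff _ _).1 h1 x (by rwa [← sup_assoc])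
    have h3 : τ ((τ⁻¹ * σ) x) = σ x := by
      show (τ * (τ⁻¹ * σ)) x = σ x
      rw [mul_inv_cancel_left]
    rw [← h3, h2]

end Run7.h947.IW
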