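import Pool.Agent.Run7.h947.IW.Det
import Pool.Agent.X310.MuGrp

/-!
# Complex conjugation, vector fields and their automorphism groups
-/

set_option autoImplicit false

namespace Run7.h947.IW

open IntermediateField Module Pool.Agent.Q60.MU Pool.Agent.W5h77.MB Pool.Agent.W5h33.DF NumberField
open Pool.Agent.X310.Mu (comms comms_normal)
open scoped Pointwise commutatorElement ComplexConjugate

/-- Complex conjugation of `ℂ` induces, for all the embeddings of `M`, the same automorphism of `M`: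
the number field `M` is totally real or CM. -/
def IsRealOrCM (M : IntermediateField ℚ Qb) : Prop :=
  ∃ j : M → M, ∀ (φ : M →+* ℂ) (x : M), φ (j x) = conj (φ x)

/-- The number field `M` is CM: complex conjugation of `ℂ` induces, for all the embeddings of `M`, the
same automorphism of `M`, and this is not the identity. -/
def IsCM (M : IntermediateField ℚ Qb) : Prop :=
  ∃ j : M → M, (∀ (φ : M →+* ℂ) (x : M), φ (j x) = conj (φ x)) ∧ ∃ x, j x ≠ x

/-- `M` has an embedding in the field of the real numbers. -/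
def HasRealEmbedding (M : IntermediateField ℚ Qb) : Prop :=
  ∃ φ : M →+* ℂ, ∀ x, conj (φ x) = φ x

/-- The group `G` acts freely on the nonzero vectors of a nonzero finite vector space over `𝔽_p`. -/
def ActsFreely (p : ℕ) (G : Type) [Group G] : Prop :=
  ∃ (V : Type) (_ : AddCommGroup V) (_ : Module (ZMod p) V), Finite V ∧ Nontrivial V ∧
    ∃ ρ : Representation (ZMod p) G V, ∀ σ : G, σ ≠ 1 → ∀ v, ρ σ v = v → v = 0

/-- The group of automorphisms of `M` acts freely on the nonzero vectors of a nonzero finite vector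
space over `𝔽_p`. -/
def FreeAut (p : ℕ) (M : IntermediateField ℚ Qb) : Prop := ActsFreely p (M ≃ₐ[ℚ] M)

theorem exists_iota : Nonempty (Qb →+* ℂ) := ⟨(IsAlgClosed.lift (R := ℚ) (S := Qb) (M := ℂ)).toRingHom⟩

theorem ext_emb (ι : Qb →+* ℂ) (E : IntermediateField ℚ Qb) (φ : E →+* ℂ) :
    ∃ h : Gal(Qb/ℚ), ∀ x : E, ι (h x) = φ x := by
  let _ : Algebra E ℂ := φ.toAlgebra
  have halg : Algebra.IsAlgebraic E Qb := Algebra.IsAlgebraic.tower_top (K := ℚ) E
  let φ' : Qb →ₐ[E] ℂ := IsAlgClosed.lift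
  have hφ' : ∀ x : E, φ' (x : Qb) = φ x := fun x => φ'.commutes x
  let _ : Algebra Qb ℂ := ι.toAlgebra
  have htow : IsScalarTower ℚ Qb ℂ := IsScalarTower.of_algebraMap_eq fun r => by
    show _ = ι (algebraMap ℚ Qb r)
    rw [eq_ratCast, eq_ratCast, map_ratCast]
  have hn : Normal ℚ Qb := inferInstance
  let ψ : Qb →ₐ[ℚ] ℂ := φ'.toRingHom.toRatAlgHom
  refine ⟨AlgHom.restrictNormal' ψ Qb, fun x => ?_⟩
  have h1 := AlgHom.restrictNormal_commutes ψ Qb (x : Qb)
  exact h1.trans (hφ' x)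

variable {p : ℕ} [hp : Fact p.Prime] {S : Type} [AddCommGroup S] [Module (ZMod p) S]
  (τ : Representation (ZMod p) Gal(Qb/ℚ) S)

/-- Each upwards closed property of stabilizers holds for the stabilizer of a vector whose field has a
free automorphism group. -/
theorem exists_free [Module.Finite (ZMod p) S] {N : IntermediateField ℚ Qb} [FiniteDimensional ℚ N]
    (hτ : ∀ g ∈ N.fixingSubgroup, ∀ x, τ g x = x)
    (P : Subgroup Gal(Qb/ℚ) → Prop) (hP : ∀ H H', H ≤ H' → P H → P H')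
    (h : ∃ v : S, v ≠ 0 ∧ P (stab τ v)) :
    ∃ v : S, v ≠ 0 ∧ P (stab τ v) ∧ FreeAut p (fixedField (stab τ v)) := by
  classical
  have hex : ∃ n, ∃ v : S, v ≠ 0 ∧ P (stab τ v) ∧ (stab τ v).index = n := by
    obtain ⟨v, hv, hPv⟩ := h
    exact ⟨_, v, hv, hPv, rfl⟩
  obtain ⟨v, hv, hPv, hn⟩ := Nat.find_spec hex
  have hmin : ∀ u : S, u ≠ 0 → P (stab τ u) → (stab τ v).index ≤ (stab τ u).index := by
    intro u hu hPu
    rw [hn]
    exact Nat.find_min' hex ⟨u, hu, hPu, rfl⟩
  have hle : ∀ u : S, N.fixingSubgroup ≤ stab τ u := fun u g hg => hτ g hg u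
  have hopen : ∀ u : S, IsOpen (stab τ u : Set Gal(Qb/ℚ)) := fun u =>
    Subgroup.isOpen_mono (hle u) N.fixingSubgroup_isOpen
  have hidx : ∀ u : S, (stab τ u).index ≠ 0 := by
    intro u h0
    have h1 := Subgroup.index_dvd_of_le (hle u)
    rw [h0] at h1
    exact index_ne_zero' N (Nat.eq_zero_of_zero_dvd h1)
  set H := stab τ v with hH
  set M := fixedField H with hM
  have hMf : M.fixingSubgroup = H := fix_fixed (hopen v)
  refine ⟨v, hv, hPv, ?_⟩
  -- the vectors fixed by `H`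
  let F : Submodule (ZMod p) S :=
    { carrier := {u | ∀ g ∈ H, τ g u = u}
      add_mem' := by
        intro a b ha hb g hg
        rw [map_add, ha g hg, hb g hg]
      zero_mem' := fun g _ => map_zero _
      smul_mem' := by
        intro c a ha g hg
        rw [map_smul, ha g hg] }
  have hF : ∀ u, u ∈ F ↔ ∀ g ∈ H, τ g u = u := fun u => Iff.rfl
  -- lifts of automorphisms
  let L : (M ≃ₐ[ℚ] M) → Gal(Qb/ℚ) := fun σ => σ.liftNormal Qb
  have hL : ∀ (σ : M ≃ₐ[ℚ] M) (x : M), L σ (x : Qb) = (σ x : Qb) := fun σ x =>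
    AlgEquiv.liftNormal_commutes σ Qb x
  have hmemH : ∀ g : Gal(Qb/ℚ), g ∈ H ↔ ∀ x : M, g (x : Qb) = x := by
    intro g
    rw [← hMf, IntermediateField.mem_fixingSubgroup_iff]
    exact ⟨fun h x => h x x.2, fun h x hx => h ⟨x, hx⟩⟩
  have hnorm : ∀ (σ : M ≃ₐ[ℚ] M) (g : Gal(Qb/ℚ)), g ∈ H → (L σ)⁻¹ * g * L σ ∈ H := by
    intro σ g hg
    rw [hmemH] at hg ⊢
    intro x
    show (L σ)⁻¹ (g (L σ x)) = x
    rw [hL, hg, ← hL]
    show ((L σ)⁻¹ * L σ) (x : Qb) = x
    rw [inv_mul_cancel]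
    rfl
  have hstab : ∀ (σ : M ≃ₐ[ℚ] M), ∀ u ∈ F, τ (L σ) u ∈ F := by
    intro σ u hu g hg
    have h1 := hu _ (hnorm σ g hg)
    have h2 : τ g (τ (L σ) u) = τ (L σ) (τ ((L σ)⁻¹ * g * L σ) u) := by
      rw [← Module.End.mul_apply, ← Module.End.mul_apply, ← map_mul, ← map_mul]
      congr 2
      group
    rw [h2, h1]
  let act : (M ≃ₐ[ℚ] M) → (F →ₗ[ZMod p] F) := fun σ => (τ (L σ)).restrict (hstab σ)
  have hact : ∀ σ (u : F), ((act σ u : F) : S) = τ (L σ) u := fun σ u => rfl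
  have h1 : act 1 = 1 := by
    ext u
    rw [hact]
    show τ (L 1) (u : S) = u
    apply u.2
    rw [hmemH]
    intro x
    rw [hL]
    rfl
  have hmul : ∀ σ σ', act (σ * σ') = act σ * act σ' := by
    intro σ σ'
    ext u
    rw [Module.End.mul_apply, hact, hact, hact]
    have h2 : (L (σ * σ'))⁻¹ * (L σ * L σ') ∈ H := by
      rw [hmemH]
      intro x
      show (L (σ * σ'))⁻¹ (L σ (L σ' x)) = x
      rw [hL, hL]
      have h3 : ((σ (σ' x) : M) : Qb) = L (σ * σ') x := by
        rw [hL]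
        rfl
      rw [h3]
      show ((L (σ * σ'))⁻¹ * L (σ * σ')) (x : Qb) = x
      rw [inv_mul_cancel]
      rfl
    have h3 := u.2 _ h2
    have h4 : τ (L σ) (τ (L σ') (u : S)) = τ (L (σ * σ')) (τ ((L (σ * σ'))⁻¹ * (L σ * L σ')) u) := by
      rw [← Module.End.mul_apply, ← Module.End.mul_apply, ← map_mul, ← map_mul]
      congr 2
      group
    rw [h4, h3]
  have hfin : Finite S := Module.finite_of_finite (ZMod p)
  refine ⟨F, inferInstance, inferInstance, inferInstance, ⟨⟨⟨v, fun g hg => hg⟩, 0, ?_⟩⟩,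
    (⟨⟨act, h1⟩, hmul⟩ : (M ≃ₐ[ℚ] M) →* (F →ₗ[ZMod p] F)), ?_⟩
  · intro h2
    exact hv (congrArg Subtype.val h2)
  · intro σ hσ u hu
    by_contra hu0
    have hu0' : (u : S) ≠ 0 := fun h2 => hu0 (Subtype.ext h2)
    have h2 : τ (L σ) (u : S) = u := by
      have h3 := congrArg Subtype.val hu
      exact h3
    have h3 : H ≤ stab τ (u : S) := fun g hg => u.2 g hg
    have h4 : L σ ∈ stab τ (u : S) := h2
    have h5 : L σ ∉ H := by
      rw [hmemH]
      intro h6
      apply hσ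
      ext x
      rw [← hL, h6]
      rfl
    have h6 := hmin u hu0' (hP _ _ h3 hPv)
    have h7 := Subgroup.relIndex_mul_index h3
    have h8 : H.relIndex (stab τ (u : S)) ≠ 0 := by
      intro h9
      rw [h9, zero_mul] at h7
      exact hidx v h7.symm
    have h9 : H.relIndex (stab τ (u : S)) ≠ 1 := by
      rw [Ne, Subgroup.relIndex_eq_one]
      exact fun h10 => h5 (h10 h4)
    have h10 : 2 ≤ H.relIndex (stab τ (u : S)) := by omega
    have h11 : 0 < (stab τ (u : S)).index := Nat.pos_of_ne_zero (hidx u)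
    rw [← h7] at h6
    nlinarith

/-- A simple representation either has a nonzero vector fixed by complex conjugation, or complex
conjugation acts as `-1`. -/
theorem conj_cases {c : Gal(Qb/ℚ)} (hcc : c * c = 1) :
    (∃ v : S, v ≠ 0 ∧ τ c v = v) ∨ ∀ v : S, τ c v = -v := by
  by_cases h : ∃ v : S, v ≠ 0 ∧ τ c v = v
  · exact Or.inl h
  · right
    intro v
    have h1 : τ c (τ c v) = v := by
      rw [← Module.End.mul_apply, ← map_mul, hcc, map_one]
      rfl
    have h2 : τ c (v + τ c v) = v + τ c v := by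
      rw [map_add, h1, add_comm]
    by_contra h3
    apply h
    refine ⟨v + τ c v, fun h4 => h3 ?_, h2⟩
    exact eq_neg_of_add_eq_zero_right h4

theorem comms_triv {c : Gal(Qb/ℚ)} (hcc : c * c = 1) (h : ∀ v : S, τ c v = -v) :
    ∀ g ∈ comms c, ∀ v : S, τ g v = v := by
  let K : Subgroup Gal(Qb/ℚ) :=
    { carrier := {g | ∀ v : S, τ g v = v}
      mul_mem' := by
        intro a b ha hb v
        rw [map_mul, Module.End.mul_apply, hb v, ha v]
      one_mem' := by
        intro v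
        rw [map_one]
        rfl
      inv_mem' := by
        intro a ha v
        calc τ a⁻¹ v = τ a⁻¹ (τ a v) := by rw [ha]
          _ = τ (a⁻¹ * a) v := by rw [map_mul, Module.End.mul_apply]
          _ = v := by
            rw [inv_mul_cancel, map_one]
            rfl }
  have hle : comms c ≤ K := by
    unfold comms
    rw [Subgroup.closure_le]
    rintro _ ⟨g, rfl⟩ v
    have h1 : c⁻¹ = c := inv_eq_of_mul_eq_one_right hcc
    have h2 : τ g (τ g⁻¹ v) = v := by
      rw [← Module.End.mul_apply, ← map_mul, mul_inv_cancel, map_one]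
      rfl
    show τ (g * c * g⁻¹ * c⁻¹) v = v
    rw [h1, map_mul, map_mul, map_mul, Module.End.mul_apply, Module.End.mul_apply,
      Module.End.mul_apply, h, map_neg, h, map_neg, map_neg, neg_neg, h2]
  exact fun g hg => hle hg

/-- The fields on which complex conjugation commutes with everything. -/
theorem realOrCM_of {ι : Qb →+* ℂ} {c : Gal(Qb/ℚ)} (hc : ∀ x, ι (c x) = conj (ι x))
    {E : IntermediateField ℚ Qb} (hE : ∀ g ∈ comms c, ∀ x ∈ E, g x = x) (hEc : ∀ x ∈ E, c x ∈ E) :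
    ∃ j : E → E, (∀ (φ : E →+* ℂ) (x : E), φ (j x) = conj (φ x)) ∧ ∀ x : E, ((j x : E) : Qb) = c x := by
  have hcn := comms_normal c
  refine ⟨fun x => ⟨c x, hEc x x.2⟩, fun φ x => ?_, fun x => rfl⟩
  obtain ⟨h, hh⟩ := ext_emb ι E φ
  rw [← hh, ← hh]
  show ι (h (c x)) = conj (ι (h x))
  rw [← hc]
  congr 1
  have h1 : h * c * h⁻¹ * c⁻¹ ∈ comms c := Subgroup.subset_closure ⟨h, rfl⟩
  have h2 : (c * h)⁻¹ * (h * c * h⁻¹ * c⁻¹) * (c * h) ∈ comms c := by
    have h3 := hcn.conj_mem _ h1 (c * h)⁻¹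
    rwa [inv_inv] at h3
  have h3 := hE _ h2 x x.2
  have h4 : (h * c) (x : Qb) = (c * h) (((c * h)⁻¹ * (h * c * h⁻¹ * c⁻¹) * (c * h)) x) := by
    rw [← AlgEquiv.mul_apply]
    congr 1
    group
  rw [h3] at h4
  exact h4

end Run7.h947.IW
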