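import Pool.Agent.Run7.h947.IW.Frob

/-!
# The primes are finitely decomposed in the cyclotomic `ℤ_p`-extension
-/

set_option autoImplicit false

namespace Run7.h947.IW

open IntermediateField Module Pool.Agent.Q60.MU Pool.Agent.W5h77.MB Pool.Agent.W5h33.DF NumberField
open scoped Pointwise

theorem ord_bound {p ℓ : ℕ} (hp : p.Prime) (hℓ : ℓ.Prime) (hne : ℓ ≠ p) :
    ∃ s₀ : ℕ, ∀ (n : ℕ) (u : (ZMod (p ^ (n + s₀)))ˣ), (u : ZMod (p ^ (n + s₀))) = (ℓ : ZMod (p ^ (n + s₀))) →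
      p ^ n ≤ orderOf u := by
  have hcop : Nat.Coprime ℓ (p ^ 2) := Nat.Coprime.pow_right 2 ((Nat.coprime_primes hℓ hp).2 hne)
  set k := (p ^ 2).totient with hk
  have hk0 : 0 < k := Nat.totient_pos.2 (pow_pos hp.pos 2)
  have h1 : 1 < ℓ ^ k := Nat.one_lt_pow hk0.ne' hℓ.one_lt
  have h2 : p ^ 2 ∣ ℓ ^ k - 1 := (Nat.modEq_iff_dvd' h1.le).1 (Nat.ModEq.pow_totient hcop).symm
  obtain ⟨s₀, b, hb, hs⟩ := Nat.exists_eq_pow_mul_and_not_dvd (n := ℓ ^ k - 1) (by omega) p hp.one_lt.ne'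
  have hs2 : 2 ≤ s₀ := by
    by_contra hlt
    have h3 : p ^ (s₀ + 1) ∣ p ^ s₀ * b := by
      rw [← hs]
      exact (pow_dvd_pow p (by omega)).trans h2
    rw [pow_succ] at h3
    exact hb (Nat.dvd_of_mul_dvd_mul_left (pow_pos hp.pos s₀) h3)
  refine ⟨s₀, fun n u hu => ?_⟩
  have h3 : ((u ^ k : (ZMod (p ^ (n + s₀)))ˣ) : ZMod (p ^ (n + s₀))) = 1 + (p : ZMod (p ^ (n + s₀))) ^ s₀ * ((b : ℤ) : ZMod (p ^ (n + s₀))) := by
    rw [Units.val_pow_eq_pow_val, hu]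
    have h4 : ℓ ^ k = 1 + p ^ s₀ * b := by omega
    have h5 := congrArg (fun x : ℕ => (x : ZMod (p ^ (n + s₀)))) h4
    push_cast at h5 ⊢
    exact h5
  have h4 : orderOf (u ^ k) = p ^ n := by
    rw [← orderOf_units, h3]
    refine ZMod.orderOf_one_add_mul_prime_pow hp s₀ (by omega) ?_ (b : ℤ) ?_ n
    · nlinarith [hp.two_le]
    · exact fun h => hb (by exact_mod_cast h)
  have : NeZero (p ^ (n + s₀)) := ⟨(pow_pos hp.pos _).ne'⟩
  have h5 : orderOf (u ^ k) ∣ orderOf u := orderOf_pow_dvd k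
  rw [h4] at h5
  exact Nat.le_of_dvd (orderOf_pos u) h5

theorem index_bound {p ℓ : ℕ} (hp : p.Prime) (hℓ : ℓ.Prime) (hne : ℓ ≠ p) :
    ∃ s₀ : ℕ, ∀ (n : ℕ) (D : Subgroup Gal(Qb/ℚ)) (s : Gal(Qb/ℚ)),
      (∀ g : Gal(Qb/ℚ), (∀ z : Qb, z ^ p ^ (n + s₀) = 1 → g z = z) → g ∈ D) →
      (∀ z : Qb, z ^ p ^ (n + s₀) = 1 → s z = z ^ ℓ) →
      (D ⊔ Subgroup.zpowers s).index ≤ p ^ s₀ := by
  obtain ⟨s₀, hs₀⟩ := ord_bound hp hℓ hne
  refine ⟨s₀, fun n D s hD hs => ?_⟩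
  set N := n + s₀ with hN
  have hn0 : 0 < p ^ N := pow_pos hp.pos N
  have hpn : NeZero (p ^ N) := ⟨hn0.ne'⟩
  have hpQ : NeZero ((p ^ N : ℕ) : Qb) := ⟨by exact_mod_cast hn0.ne'⟩
  have hE : HasEnoughRootsOfUnity Qb (p ^ N) := inferInstance
  have hn : Nat.card { x // x ∈ rootsOfUnity (p ^ N) Qb } = p ^ N :=
    HasEnoughRootsOfUnity.natCard_rootsOfUnity Qb (p ^ N)
  obtain ⟨ζ, hζ⟩ := HasEnoughRootsOfUnity.exists_primitiveRoot Qb (p ^ N)
  let f : Gal(Qb/ℚ) →* (Qb ≃+* Qb) :=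
    { toFun := fun g => g.toRingEquiv
      map_one' := rfl
      map_mul' := fun _ _ => rfl }
  let χ : Gal(Qb/ℚ) →* (ZMod (p ^ N))ˣ := (modularCyclotomicCharacter Qb hn).comp f
  have hζ0 : ζ ≠ 0 := hζ.ne_zero hn0.ne'
  set ζu : Qbˣ := Units.mk0 ζ hζ0 with hζu
  have hζr : ζu ∈ rootsOfUnity (p ^ N) Qb := by
    rw [mem_rootsOfUnity]
    ext
    exact hζ.pow_eq_one
  have hspec : ∀ g : Gal(Qb/ℚ), g ζ = ζ ^ ((χ g : (ZMod (p ^ N))ˣ) : ZMod (p ^ N)).val := fun g =>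
    modularCyclotomicCharacter.spec Qb hn (f g) hζr
  have hker : ∀ g, χ g = 1 → g ∈ D := by
    intro g hg
    apply hD
    intro z hz
    apply root_fix hn0 hζ _ hz
    rw [hspec g, hg]
    rcases Nat.eq_or_lt_of_le hn0 with h | h
    · have h8 : ζ ^ p ^ N = 1 := hζ.pow_eq_one
      rw [← h, show Nat.succ 0 = 1 from rfl, pow_one] at h8
      rw [h8, one_pow]
    · have : Fact (1 < p ^ N) := ⟨h⟩
      rw [Units.val_one, ZMod.val_one, pow_one]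
  have hχs : ((χ s : (ZMod (p ^ N))ˣ) : ZMod (p ^ N)) = (ℓ : ZMod (p ^ N)) := by
    have h1 := hspec s
    rw [hs ζ hζ.pow_eq_one] at h1
    have h1' : ζu ^ ℓ = ζu ^ ((χ s : (ZMod (p ^ N))ˣ) : ZMod (p ^ N)).val := by
      ext
      exact h1
    have h2 := pow_eq_pow_iff_modEq.1 h1'
    rw [← orderOf_units, show ((ζu : Qbˣ) : Qb) = ζ from rfl, ← hζ.eq_orderOf] at h2
    have h3 : ((ℓ : ℕ) : ZMod (p ^ N)) = ((((χ s : (ZMod (p ^ N))ˣ) : ZMod (p ^ N)).val : ℕ) : ZMod (p ^ N)) := by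
      rw [ZMod.natCast_eq_natCast_iff]
      exact h2
    rw [h3, ZMod.natCast_val, ZMod.cast_id', id_eq]
  have hord := hs₀ n (χ s) hχs
  set H := D ⊔ Subgroup.zpowers s with hH
  have hkH : χ.ker ≤ H := fun g hg => Subgroup.mem_sup_left (hker g hg)
  have h1 := Subgroup.index_map H χ
  rw [sup_eq_left.2 hkH] at h1
  have h2 := (H.map χ).card_mul_index
  have h2' : Nat.card (ZMod (p ^ N))ˣ = (p ^ N).totient := by
    rw [Nat.card_eq_fintype_card, ZMod.card_units_eq_totient]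
  rw [h2'] at h2
  have h3 : (p ^ N).totient ≤ p ^ N := Nat.totient_le _
  have h4 : p ^ n ≤ Nat.card (H.map χ) := by
    refine hord.trans ?_
    rw [← Nat.card_zpowers]
    apply Subgroup.card_le_of_le
    rw [Subgroup.zpowers_le]
    exact ⟨s, Subgroup.mem_sup_right (Subgroup.mem_zpowers s), rfl⟩
  have h5 : H.index ≤ (H.map χ).index := by
    rw [h1]
    exact Nat.le_mul_of_pos_right _ (Nat.pos_of_ne_zero χ.range.index_ne_zero_of_finite)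
  have h6 : p ^ n * H.index ≤ p ^ n * p ^ s₀ := by
    calc p ^ n * H.index ≤ Nat.card (H.map χ) * (H.map χ).index := Nat.mul_le_mul h4 h5
      _ = (p ^ N).totient := h2
      _ ≤ p ^ N := h3
      _ = p ^ n * p ^ s₀ := by rw [hN, pow_add]
  exact Nat.le_of_mul_le_mul_left h6 (pow_pos hp.pos n)

theorem T_of_index {D S : Subgroup Gal(Qb/ℚ)} (hD : D.Normal) (w : ValuationSubring Qb)
    (hS : ∀ s ∈ S, s • w = w) (hfi : (D ⊔ S).index ≠ 0) :
    ∃ T : Finset (ValuationSubring Qb), T.card ≤ (D ⊔ S).index ∧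
      ∀ g : Gal(Qb/ℚ), ∃ B ∈ T, ∃ σ ∈ D, g • w = σ • B := by
  classical
  have h1 : (D ⊔ S).FiniteIndex := ⟨hfi⟩
  have ft : Fintype (Gal(Qb/ℚ) ⧸ (D ⊔ S)) := Fintype.ofFinite _
  refine ⟨Finset.univ.image fun q : Gal(Qb/ℚ) ⧸ (D ⊔ S) => q.out • w, ?_, fun g => ?_⟩
  · refine Finset.card_image_le.trans ?_
    rw [Finset.card_univ, ← Nat.card_eq_fintype_card]
    exact le_rfl
  · obtain ⟨h, hh⟩ := QuotientGroup.mk_out_eq_mul (D ⊔ S) g
    obtain ⟨d, hd, s, hs, hds⟩ := mem_sup_nrm hD ((D ⊔ S).inv_mem h.2)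
    refine ⟨_, Finset.mem_image.2 ⟨(g : Gal(Qb/ℚ) ⧸ (D ⊔ S)), Finset.mem_univ _, rfl⟩,
      g * h * d * (g * h)⁻¹, hD.conj_mem d hd _, ?_⟩
    have h2 : (h : Gal(Qb/ℚ)) * d * s = 1 := by
      rw [mul_assoc, ← hds, mul_inv_cancel]
    have h3 : (h : Gal(Qb/ℚ)) * d = s⁻¹ := mul_eq_one_iff_eq_inv.1 h2
    have h4 : s⁻¹ • w = w := by
      conv_lhs => rw [← hS s hs]
      rw [inv_smul_smul]
    show g • w = (g * h * d * (g * h)⁻¹) • ((QuotientGroup.mk g : Gal(Qb/ℚ) ⧸ (D ⊔ S)).out • w)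
    rw [hh, smul_smul, inv_mul_cancel_right, mul_assoc, h3, mul_smul, h4]

/-- Bounded decomposition. -/
theorem findec {p ℓ : ℕ} (hp : p.Prime) (hℓ : ℓ.Prime) :
    ∃ t : ℕ, ∀ (N : ℕ) (R : IntermediateField ℚ Qb), FiniteDimensional ℚ R → R.fixingSubgroup.Normal →
      R ≤ adjoin ℚ {z : Qb | z ^ p ^ N = 1} →
      ∃ T : Finset (ValuationSubring Qb), T.card ≤ t ∧
        ∀ A : ValuationSubring Qb, (ℓ : Qb) ∈ A.nonunits → ∃ B ∈ T, ∃ σ ∈ R.fixingSubgroup, A = σ • B := by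
  classical
  -- the elements which fix the roots of unity
  have hfix : ∀ (N : ℕ) (R : IntermediateField ℚ Qb), R ≤ adjoin ℚ {z : Qb | z ^ p ^ N = 1} →
      ∀ g : Gal(Qb/ℚ), (∀ z : Qb, z ^ p ^ N = 1 → g z = z) → g ∈ R.fixingSubgroup := by
    intro N R hR g hg
    have h2 : adjoin ℚ {z : Qb | z ^ p ^ N = 1} ≤ fixedField (Subgroup.zpowers g) := by
      rw [adjoin_le_iff]
      intro z hz
      have h3 : Subgroup.zpowers g ≤ MulAction.stabilizer Gal(Qb/ℚ) z := by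
        rw [Subgroup.zpowers_le]
        exact hg z hz
      exact (mem_fixedField_iff _ _).2 fun f hf => h3 hf
    rw [IntermediateField.mem_fixingSubgroup_iff]
    intro x hx
    exact (mem_fixedField_iff _ _).1 (h2 (hR hx)) g (Subgroup.mem_zpowers g)
  by_cases hex : ∃ w : ValuationSubring Qb, (ℓ : Qb) ∈ w.nonunits
  swap
  · exact ⟨0, fun N R _ _ _ => ⟨∅, le_rfl, fun A hA => absurd ⟨A, hA⟩ hex⟩⟩
  obtain ⟨w, hw⟩ := hex
  -- all the valuation rings above `ℓ` are conjugate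
  have hall : ∀ A : ValuationSubring Qb, (ℓ : Qb) ∈ A.nonunits → ∃ g : Gal(Qb/ℚ), A = g • w := by
    intro A hA
    obtain ⟨g, -, hg⟩ := conj_of_one hℓ (⊥ : IntermediateField ℚ Qb) (onePrime_bot hℓ) hA hw
    exact ⟨g, hg⟩
  have key : ∃ t : ℕ, ∀ (N : ℕ) (R : IntermediateField ℚ Qb), FiniteDimensional ℚ R → R.fixingSubgroup.Normal →
      R ≤ adjoin ℚ {z : Qb | z ^ p ^ N = 1} →
      ∃ S : Subgroup Gal(Qb/ℚ), (∀ s ∈ S, s • w = w) ∧ (R.fixingSubgroup ⊔ S).index ≤ t := by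
    by_cases hne : ℓ = p
    · subst hne
      refine ⟨1, fun N R hfd hRn hR => ⟨MulAction.stabilizer Gal(Qb/ℚ) w, fun s hs => hs, ?_⟩⟩
      have h1 : R.fixingSubgroup ⊔ MulAction.stabilizer Gal(Qb/ℚ) w = ⊤ := by
        rw [eq_top_iff]
        intro g _
        obtain ⟨τ, hτ, hτr⟩ := one_orbit (N := N) hp w hw g
        have h2 : g = τ * (τ⁻¹ * g) := by group
        rw [h2]
        refine mul_mem (Subgroup.mem_sup_left (hfix N R hR τ hτr)) (Subgroup.mem_sup_right ?_)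
        rw [MulAction.mem_stabilizer_iff, mul_smul, hτ, inv_smul_smul]
      rw [h1, Subgroup.index_top]
    · obtain ⟨s₀, hs₀⟩ := index_bound hp hℓ hne
      refine ⟨p ^ s₀, fun N R hfd hRn hR => ?_⟩
      obtain ⟨s, hsw, hs⟩ := exists_frob (N := N + s₀) hp hℓ hne w hw
      refine ⟨Subgroup.zpowers s, ?_, hs₀ N R.fixingSubgroup s ?_ hs⟩
      · intro x hx
        have h1 : Subgroup.zpowers s ≤ MulAction.stabilizer Gal(Qb/ℚ) w := by
          rw [Subgroup.zpowers_le]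
          exact hsw
        exact h1 hx
      · intro g hg
        apply hfix N R hR g
        intro z hz
        apply hg
        rw [pow_add, pow_mul, hz, one_pow]
  obtain ⟨t, ht⟩ := key
  refine ⟨t, fun N R hfd hRn hR => ?_⟩
  obtain ⟨S, hS, hi⟩ := ht N R hfd hRn hR
  have h0 : (R.fixingSubgroup ⊔ S).index ≠ 0 := by
    intro h
    have h1 := Subgroup.index_dvd_of_le (H := R.fixingSubgroup) (K := R.fixingSubgroup ⊔ S) le_sup_left
    rw [h] at h1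
    exact index_ne_zero' R (Nat.eq_zero_of_zero_dvd h1)
  obtain ⟨T, hT, hT2⟩ := T_of_index hRn w hS h0
  refine ⟨T, hT.trans hi, fun A hA => ?_⟩
  obtain ⟨g, rfl⟩ := hall A hA
  exact hT2 g

end Run7.h947.IW
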