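import Pool.Agent.Run7.h947.IW.Cyc

/-!
# Detecting subfields for the cyclotomic `ℤ_p`-extension and families of inertia-like groups
-/

set_option autoImplicit false

namespace Run7.h947.IW

open IntermediateField Module Pool.Agent.Q60.MU Pool.Agent.W5h77.MB Pool.Agent.W5h33.DF NumberField
open scoped Pointwise commutatorElement

/-- Every finite extension `M` of `E` which is Galois over `E` with abelian Galois group of exponent
`p` and on which the elements of the groups `I A` over `E` act trivially has degree at most `C`. -/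
def DegLeI (p : ℕ) (I : ValuationSubring Qb → Subgroup Gal(Qb/ℚ)) (E : IntermediateField ℚ Qb)
    (C : ℕ) : Prop :=
  ∀ M : IntermediateField ℚ Qb, E ≤ M → FiniteDimensional ℚ M →
    (∀ σ ∈ E.fixingSubgroup, ∀ x ∈ M, σ x ∈ M) →
    (∀ σ ∈ E.fixingSubgroup, ∀ τ ∈ E.fixingSubgroup, ∀ x ∈ M, σ (τ x) = τ (σ x)) →
    (∀ σ ∈ E.fixingSubgroup, ∀ x ∈ M, (σ ^ p) x = x) →
    (∀ A, ∀ σ ∈ I A, σ ∈ E.fixingSubgroup → ∀ x ∈ M, σ x = x) →
    finrank ℚ M ≤ C * finrank ℚ E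

theorem degLeI_inertia {p : ℕ} {E : IntermediateField ℚ Qb} {C : ℕ} :
    DegLeI p inertia E C ↔ DegLe p E C := Iff.rfl

variable {p : ℕ} {I : ValuationSubring Qb → Subgroup Gal(Qb/ℚ)}

theorem rankLe_iffI (E : IntermediateField ℚ Qb) [FiniteDimensional ℚ E] (C : ℕ) :
    RankLe p I E.fixingSubgroup C ↔ DegLeI p I E C := by
  have hK0 := index_ne_zero' E
  constructor
  · intro h M hEM hM h1 h2 h3 h4
    have hWK : M.fixingSubgroup ≤ E.fixingSubgroup := fixingSubgroup_le hEM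
    have hmul := Subgroup.relIndex_mul_index hWK
    have hW0 := index_ne_zero' M
    have h5 := h M.fixingSubgroup hWK M.fixingSubgroup_isOpen (by
      intro h0
      rw [h0, zero_mul] at hmul
      exact hW0 hmul.symm) (by
      rintro x ((⟨a, ha, rfl⟩ | ⟨a, ha, b, hb, rfl⟩) | ⟨hx, w, hw⟩)
      · exact (IntermediateField.mem_fixingSubgroup_iff _ _).2 fun x hx => h3 a ha x hx
      · refine (IntermediateField.mem_fixingSubgroup_iff _ _).2 fun x hx => ?_
        have hb' : b⁻¹ x ∈ M := h1 _ (inv_mem hb) x hx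
        have ha' : a⁻¹ (b⁻¹ x) ∈ M := h1 _ (inv_mem ha) _ hb'
        have h6 := h2 a ha b hb _ ha'
        show ⁅a, b⁆ x = x
        have h7 : ⁅a, b⁆ x = a (b (a⁻¹ (b⁻¹ x))) := rfl
        have h8 : a (a⁻¹ (b⁻¹ x)) = b⁻¹ x := by
          rw [← AlgEquiv.mul_apply, mul_inv_cancel, AlgEquiv.one_apply]
        have h9 : b (b⁻¹ x) = x := by
          rw [← AlgEquiv.mul_apply, mul_inv_cancel, AlgEquiv.one_apply]
        rw [h7, h6, h8, h9]
      · exact (IntermediateField.mem_fixingSubgroup_iff _ _).2 fun y hy => h4 w x hw hx y hy)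
    rw [finrank_eq_fixingSubgroup_index, finrank_eq_fixingSubgroup_index, ← hmul]
    exact Nat.mul_le_mul_right _ h5
  · intro h W hWK hWo hWf hg
    have hmul := Subgroup.relIndex_mul_index hWK
    have hW0 : W.index ≠ 0 := by
      rw [← hmul]
      exact mul_ne_zero hWf hK0
    have hfix := fix_fixed hWo
    have hEM : E ≤ fixedField W := (le_iff_le _ _).2 hWK
    have hfd := finite_fixed hWo hW0
    have hmem : ∀ x, x ∈ fixedField W ↔ ∀ w ∈ W, w x = x := fun x => mem_fixedField_iff _ _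
    have h5 := h (fixedField W) hEM hfd (by
      intro σ hσ x hx
      rw [hmem] at hx ⊢
      intro w hw
      have h1 : ⁅σ⁻¹, w⁆ ∈ W := hg (Or.inl (Or.inr ⟨σ⁻¹, inv_mem hσ, w, hWK hw, rfl⟩))
      have h2 : w (σ x) = σ ((⁅σ⁻¹, w⁆ * w) x) := by
        rw [← AlgEquiv.mul_apply, ← AlgEquiv.mul_apply]
        congr 1
        rw [commutatorElement_def]
        group
      rw [h2, hx _ (W.mul_mem h1 hw)]) (by
      intro σ hσ τ hτ x hx
      rw [hmem] at hx
      have h1 : ⁅σ⁻¹, τ⁻¹⁆ ∈ W := hg (Or.inl (Or.inr ⟨σ⁻¹, inv_mem hσ, τ⁻¹, inv_mem hτ, rfl⟩))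
      have h2 : σ (τ x) = τ (σ (⁅σ⁻¹, τ⁻¹⁆ x)) := by
        rw [← AlgEquiv.mul_apply, ← AlgEquiv.mul_apply, ← AlgEquiv.mul_apply]
        congr 1
        rw [commutatorElement_def]
        group
      rw [h2, hx _ h1]) (by
      intro σ hσ x hx
      rw [hmem] at hx
      exact hx _ (hg (Or.inl (Or.inl ⟨σ, hσ, rfl⟩)))) (by
      intro A σ hσA hσ x hx
      rw [hmem] at hx
      exact hx _ (hg (Or.inr ⟨hσ, A, hσA⟩)))
    rw [finrank_eq_fixingSubgroup_index, finrank_eq_fixingSubgroup_index, hfix, ← hmul] at h5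
    exact Nat.le_of_mul_le_mul_right h5 (Nat.pos_of_ne_zero hK0)

/-- The degrees in the cyclotomic `ℤ_p`-extension of `F` are bounded. -/
def MuI (p : ℕ) (I : ValuationSubring Qb → Subgroup Gal(Qb/ℚ)) (F : IntermediateField ℚ Qb) : Prop :=
  ∃ C : ℕ, ∀ (m : ℕ) (R : IntermediateField ℚ Qb), IsLayer p m R → DegLeI p I (F ⊔ R) C

theorem muI_inertia {F : IntermediateField ℚ Qb} :
    MuI p inertia F ↔ Pool.Agent.W5h77.MB.MuZero p F := Iff.rfl

theorem countable_Qb : Countable Qb := by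
  have h1 := Algebra.IsAlgebraic.cardinalMk_le_max ℚ Qb
  rw [← Cardinal.mk_le_aleph0_iff]
  exact h1.trans (max_le Cardinal.mk_le_aleph0 le_rfl)

/-- The layers can be enumerated. -/
theorem exists_seq (hp : p.Prime) : ∃ R : ℕ → IntermediateField ℚ Qb,
    (∀ n, ∃ m, IsLayer p m (R n)) ∧ ∀ m S, IsLayer p m S → ∃ n, R n = S := by
  classical
  have := countable_Qb
  have hp' : Fact p.Prime := ⟨hp⟩
  obtain ⟨f, hf⟩ := exists_surjective_nat Qb
  refine ⟨fun n => if ∃ m, IsLayer p m ℚ⟮f n⟯ then ℚ⟮f n⟯ else ⊥, fun n => ?_, fun m S hS => ?_⟩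
  · by_cases h : ∃ m, IsLayer p m ℚ⟮f n⟯
    · simp only [if_pos h]
      exact h
    · simp only [if_neg h]
      exact ⟨0, layer_bot⟩
  · have hfd := layer_fd hp hS
    obtain ⟨α, hα⟩ := Field.exists_primitive_element ℚ S
    obtain ⟨n, hn⟩ := hf (α : Qb)
    have h1 : ℚ⟮(α : Qb)⟯ = S := by
      apply le_antisymm (adjoin_simple_le_iff.2 α.2)
      intro x hx
      have h2 : (⟨x, hx⟩ : S) ∈ IntermediateField.adjoin ℚ {α} := by
        rw [hα]
        exact IntermediateField.mem_top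
      obtain ⟨r, s, hrs⟩ := (IntermediateField.mem_adjoin_simple_iff ℚ _).1 h2
      have h3 : x = Polynomial.aeval (α : Qb) r / Polynomial.aeval (α : Qb) s := by
        have h4 := congrArg S.val hrs
        rw [map_div₀, ← Polynomial.aeval_algHom_apply, ← Polynomial.aeval_algHom_apply] at h4
        exact h4
      exact (IntermediateField.mem_adjoin_simple_iff ℚ _).2 ⟨r, s, h3⟩
    refine ⟨n, ?_⟩
    simp only [hn, h1, if_pos (⟨m, hS⟩ : ∃ m, IsLayer p m S)]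

theorem ram_layers (hp : p.Prime) (hI2 : ∀ A, I A ≤ inertia A ∨ (p : Qb) ∈ A.nonunits)
    (N : IntermediateField ℚ Qb) [FiniteDimensional ℚ N] :
    ∃ t : ℕ, ∀ (m : ℕ) (R : IntermediateField ℚ Qb), IsLayer p m R →
      ∃ T : Finset (ValuationSubring Qb), T.card ≤ t ∧
        ∀ w, I w ⊓ R.fixingSubgroup ≤ N.fixingSubgroup ∨
          ∃ u ∈ T, ∃ d ∈ R.fixingSubgroup, w = d • u := by
  classical
  obtain ⟨c, hc0, hc⟩ := exists_bad N
  have hpc0 : p * c ≠ 0 := mul_ne_zero hp.ne_zero hc0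
  have hex : ∀ ℓ : ℕ, ∃ t : ℕ, ℓ.Prime → ∀ (N : ℕ) (R : IntermediateField ℚ Qb), FiniteDimensional ℚ R →
      R.fixingSubgroup.Normal → R ≤ adjoin ℚ {z : Qb | z ^ p ^ N = 1} →
      ∃ T : Finset (ValuationSubring Qb), T.card ≤ t ∧
        ∀ A : ValuationSubring Qb, (ℓ : Qb) ∈ A.nonunits → ∃ B ∈ T, ∃ σ ∈ R.fixingSubgroup, A = σ • B := by
    intro ℓ
    by_cases hℓ : ℓ.Prime
    · obtain ⟨t, ht⟩ := findec hp hℓ
      exact ⟨t, fun _ => ht⟩
    · exact ⟨0, fun h => absurd h hℓ⟩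
  choose t ht using hex
  refine ⟨∑ ℓ ∈ (p * c).primeFactors, t ℓ, fun m R hR => ?_⟩
  have hfd := layer_fd hp hR
  have hRn := layer_normal hp hR
  obtain ⟨-, n, hn⟩ := hR
  have h1 : ∀ ℓ : ℕ, ∃ T : Finset (ValuationSubring Qb), ℓ.Prime → T.card ≤ t ℓ ∧
        ∀ A : ValuationSubring Qb, (ℓ : Qb) ∈ A.nonunits → ∃ B ∈ T, ∃ σ ∈ R.fixingSubgroup, A = σ • B := by
    intro ℓ
    by_cases hℓ : ℓ.Prime
    · obtain ⟨T, hT⟩ := ht ℓ hℓ n R hfd hRn hn
      exact ⟨T, fun _ => hT⟩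
    · exact ⟨∅, fun h => absurd h hℓ⟩
  choose T hT using h1
  refine ⟨(p * c).primeFactors.biUnion T, ?_, fun A => ?_⟩
  · refine Finset.card_biUnion_le.trans (Finset.sum_le_sum fun ℓ hℓ => ?_)
    exact (hT ℓ (Nat.prime_of_mem_primeFactors hℓ)).1
  · by_cases h : I A ⊓ R.fixingSubgroup ≤ N.fixingSubgroup
    · exact Or.inl h
    right
    have hpcA : ((p * c : ℕ) : Qb) ∈ A.nonunits := by
      rcases hI2 A with h2 | h2
      · obtain ⟨σ, hσ, hσN⟩ := SetLike.not_le_iff_exists.1 h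
        have h3 := hc A σ (h2 hσ.1) hσN
        rw [Nat.cast_mul, mul_comm]
        exact mul_nonunits h3 (natCast_mem A p)
      · rw [Nat.cast_mul]
        exact mul_nonunits h2 (natCast_mem A c)
    obtain ⟨ℓ, hℓ, hℓA⟩ := exists_prime hpc0 hpcA
    obtain ⟨B, hB, σ', hσ', h3⟩ := (hT ℓ (Nat.prime_of_mem_primeFactors hℓ)).2 A hℓA
    exact ⟨B, Finset.mem_biUnion.2 ⟨ℓ, hℓ, hB⟩, σ', hσ', h3⟩

theorem muI_iff (hp : p.Prime) {R : ℕ → IntermediateField ℚ Qb} (hR : ∀ n, ∃ m, IsLayer p m (R n))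
    (hR2 : ∀ m S, IsLayer p m S → ∃ n, R n = S) (F : IntermediateField ℚ Qb) [FiniteDimensional ℚ F] :
    Mu0 p I (fun n => (R n).fixingSubgroup) F.fixingSubgroup ↔ MuI p I F := by
  refine exists_congr fun C => ⟨fun h m S hS => ?_, fun h n => ?_⟩
  · obtain ⟨n, rfl⟩ := hR2 m S hS
    have hfd := layer_fd hp hS
    have h1 := h n
    rw [← fixingSubgroup_sup] at h1
    exact (rankLe_iffI _ _).1 h1
  · obtain ⟨m, hm⟩ := hR n
    have hfd := layer_fd hp hm
    rw [← fixingSubgroup_sup]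
    exact (rankLe_iffI _ _).2 (h m _ hm)

/-- **Detecting subfields.** -/
theorem detectI (hp : p.Prime) [Fact p.Prime]
    (hI : ∀ (g : Gal(Qb/ℚ)) (A : ValuationSubring Qb), ∀ σ ∈ I A, g * σ * g⁻¹ ∈ I (g • A))
    (hI2 : ∀ A, I A ≤ inertia A ∨ (p : Qb) ∈ A.nonunits)
    (N : IntermediateField ℚ Qb) [FiniteDimensional ℚ N] [hNn : IsGalois ℚ N]
    (𝓔 : Set (IntermediateField ℚ Qb)) (h𝓔 : ∀ E ∈ 𝓔, E ≤ N)
    (hdet : ∀ (S : Type) [AddCommGroup S] [Module (ZMod p) S] [Module.Finite (ZMod p) S]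
      (τ : Representation (ZMod p) Gal(Qb/ℚ) S), (∀ g ∈ N.fixingSubgroup, ∀ x, τ g x = x) →
      IsSimple τ → ∃ E ∈ 𝓔, ∃ v : S, v ≠ 0 ∧ ∀ g ∈ E.fixingSubgroup, τ g v = v)
    (hmu : ∀ E ∈ 𝓔, MuI p I E) (F : IntermediateField ℚ Qb) (hF : F ≤ N) : MuI p I F := by
  obtain ⟨R, hR, hR2⟩ := exists_seq hp
  have hFd : FiniteDimensional ℚ F := fd_of_le hF
  rw [← muI_iff hp hR hR2]
  have hKn : N.fixingSubgroup.Normal := (InfiniteGalois.normal_iff_isGalois N).2 hNn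
  have hKo := N.fixingSubgroup_isOpen
  have hfd : ∀ m, FiniteDimensional ℚ (R m) := fun m => by
    obtain ⟨k, hk⟩ := hR m
    exact layer_fd hp hk
  have hDo : ∀ m, IsOpen ((R m).fixingSubgroup : Set Gal(Qb/ℚ)) := fun m => by
    have := hfd m
    exact (R m).fixingSubgroup_isOpen
  refine Mu0.of_le hDo hKn (fixingSubgroup_le hF) hKo (index_ne_zero' N) ?_
  refine reduction (p := p) (I := I) hI
    (fun m => by
      obtain ⟨k, hk⟩ := hR m
      exact layer_normal hp hk) hDo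
    (fun m => by
      have := hfd m
      exact index_ne_zero' (R m)) hKn hKo (index_ne_zero' N) ?_ ?_
  · obtain ⟨t, ht⟩ := ram_layers hp hI2 N
    refine ⟨t, fun n => ?_⟩
    obtain ⟨m, hm⟩ := hR n
    exact ht m _ hm
  · intro S _ _ _ τ hτ hs
    obtain ⟨E, hE, v, hv, hfix⟩ := hdet S τ hτ hs
    have hEd : FiniteDimensional ℚ E := fd_of_le (h𝓔 E hE)
    exact ⟨E.fixingSubgroup, ⟨fixingSubgroup_le (h𝓔 E hE), (muI_iff hp hR hR2 E).2 (hmu E hE)⟩, v, hv, hfix⟩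

/-- Subfields. -/
theorem downI (hp : p.Prime) (N : IntermediateField ℚ Qb) [FiniteDimensional ℚ N] [hNn : IsGalois ℚ N]
    (F : IntermediateField ℚ Qb) (hF : F ≤ N) (h : MuI p I N) : MuI p I F := by
  obtain ⟨R, hR, hR2⟩ := exists_seq hp
  have hFd : FiniteDimensional ℚ F := fd_of_le hF
  rw [← muI_iff hp hR hR2] at h ⊢
  have hKn : N.fixingSubgroup.Normal := (InfiniteGalois.normal_iff_isGalois N).2 hNn
  refine Mu0.of_le (fun m => ?_) hKn (fixingSubgroup_le hF) N.fixingSubgroup_isOpen (index_ne_zero' N) h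
  obtain ⟨k, hk⟩ := hR m
  have := layer_fd hp hk
  exact (R m).fixingSubgroup_isOpen

end Run7.h947.IW
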