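import Mathlib

/-!
# Characters of commuting operators over `𝔽_p`
-/

set_option autoImplicit false

namespace Run7.h947.IW

open Module

section eigen

variable {p : ℕ} [Fact p.Prime] {F : Type} [Field F] [Algebra (ZMod p) F]
  {N : Type} [Group N] {X : Type} [AddCommGroup X] [Module (ZMod p) X] [Module.Finite (ZMod p) X]

/-- A common eigenvector of commuting operators. -/
theorem common_eigen {F N V : Type} [Field F] [IsAlgClosed F] [AddCommGroup V] [Module F V]
    [Module.Finite F V] [Nontrivial V] (A : N → Module.End F V)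
    (hAc : ∀ g h (L : V), A g (A h L) = A h (A g L)) :
    ∃ (χ : N → F) (L : V), L ≠ 0 ∧ ∀ g, A g L = χ g • L := by
  classical
  let P : Submodule F V → Prop := fun W => W ≠ ⊥ ∧ ∀ g, ∀ L ∈ W, A g L ∈ W
  have hex : ∃ n, ∃ W : Submodule F V, P W ∧ finrank F W = n :=
    ⟨_, ⊤, ⟨top_ne_bot, fun _ _ _ => Submodule.mem_top⟩, rfl⟩
  obtain ⟨W, ⟨hW0, hWs⟩, hn⟩ := Nat.find_spec hex
  have hmin := fun m hm => Nat.find_min hex (m := m) hm
  have hscal : ∀ g, ∃ l : F, ∀ L ∈ W, A g L = l • L := by
    intro g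
    have hWn : Nontrivial W := (Submodule.nontrivial_iff_ne_bot).2 hW0
    let B : Module.End F W := LinearMap.restrict (A g) (fun L hL => hWs g L hL)
    obtain ⟨l, hl⟩ := Module.End.exists_eigenvalue B
    obtain ⟨w, hw⟩ := hl.exists_hasEigenvector
    have hw1 : A g w = l • (w : V) := by
      have h1 := hw.apply_eq_smul
      exact congrArg Subtype.val h1
    refine ⟨l, ?_⟩
    let W' : Submodule F V := W ⊓ (A g).eigenspace l
    have hW' : P W' := by
      refine ⟨fun h => ?_, fun h L hL => ⟨hWs h L hL.1, ?_⟩⟩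
      · have h1 : (w : V) ∈ W' := ⟨w.2, Module.End.mem_eigenspace_iff.2 hw1⟩
        rw [h, Submodule.mem_bot] at h1
        exact hw.2 (Subtype.ext h1)
      · have h1 := Module.End.mem_eigenspace_iff.1 hL.2
        apply Module.End.mem_eigenspace_iff.2
        rw [hAc, h1, map_smul]
    have h1 : W' = W := by
      by_contra hne
      have h2 : W' < W := lt_of_le_of_ne inf_le_left hne
      refine hmin (finrank F W') ?_ ⟨_, hW', rfl⟩
      rw [← hn]
      exact Submodule.finrank_lt_finrank_of_lt h2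
    intro L hL
    rw [← h1] at hL
    exact Module.End.mem_eigenspace_iff.1 hL.2
  choose χ hχ using hscal
  obtain ⟨L, hL, hL0⟩ := (Submodule.ne_bot_iff _).1 hW0
  exact ⟨χ, L, hL0, fun g => hχ g L hL⟩

/-- A common eigenvector in the dual space. -/
theorem exists_eigen [IsAlgClosed F] [Nontrivial X] (τ : Representation (ZMod p) N X)
    (hc : ∀ g h, τ g * τ h = τ h * τ g) :
    ∃ (χ : N →* F) (L : X →ₗ[ZMod p] F), L ≠ 0 ∧ ∀ g x, L (τ g x) = χ g * L x := by
  have hVn : Nontrivial (X →ₗ[ZMod p] F) := by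
    apply Module.nontrivial_of_finrank_pos (R := F)
    have h1 : finrank F (X →ₗ[ZMod p] F) = finrank (ZMod p) X := Module.finrank_linearMap_self (ZMod p) F X
    rw [h1]
    exact Module.finrank_pos
  let A : N → Module.End F (X →ₗ[ZMod p] F) := fun g =>
    { toFun := fun L => L ∘ₗ τ g
      map_add' := fun _ _ => rfl
      map_smul' := fun _ _ => rfl }
  have hA : ∀ g (L : X →ₗ[ZMod p] F) x, A g L x = L (τ g x) := fun _ _ _ => rfl
  have hAc : ∀ g h (L : X →ₗ[ZMod p] F), A g (A h L) = A h (A g L) := by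
    intro g h L
    ext x
    rw [hA, hA, hA, hA]
    exact congrArg L (LinearMap.congr_fun (hc h g) x)
  obtain ⟨χ, L, hL0, hχ⟩ := common_eigen A hAc
  obtain ⟨x, hx⟩ : ∃ x, L x ≠ 0 := by
    by_contra hcon
    push Not at hcon
    exact hL0 (LinearMap.ext hcon)
  have hLx : ∀ g y, L (τ g y) = χ g * L y := by
    intro g y
    have h1 := LinearMap.congr_fun (hχ g) y
    exact h1
  refine ⟨{ toFun := χ, map_one' := ?_, map_mul' := fun g h => ?_ }, L, hL0, hLx⟩
  · have h1 := hLx 1 x
    rw [map_one, Module.End.one_apply] at h1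
    exact mul_right_cancel₀ hx (by rw [← h1, one_mul])
  · have h1 := hLx (g * h) x
    rw [map_mul, Module.End.mul_apply, hLx, hLx, ← mul_assoc] at h1
    exact mul_right_cancel₀ hx h1.symm

/-- The number of different characters is at most the dimension. -/
theorem card_le_of_char (τ : Representation (ZMod p) N X) {ι : Type} [Fintype ι] (χ : ι → (N →* F))
    (hχ : Function.Injective χ) (L : ι → (X →ₗ[ZMod p] F)) (hL : ∀ i, L i ≠ 0)
    (h : ∀ i g x, L i (τ g x) = χ i g * L i x) : Fintype.card ι ≤ finrank (ZMod p) X := by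
  have hli : LinearIndependent F L := by
    rw [Fintype.linearIndependent_iff]
    intro a ha i
    obtain ⟨x, hx⟩ : ∃ x, L i x ≠ 0 := by
      by_contra hcon
      push Not at hcon
      exact hL i (LinearMap.ext hcon)
    have h1 : ∑ j, (a j * L j x) • (χ j : N → F) = 0 := by
      funext g
      have h2 := LinearMap.congr_fun ha (τ g x)
      rw [LinearMap.sum_apply, LinearMap.zero_apply] at h2
      rw [Finset.sum_apply, Pi.zero_apply, ← h2]
      refine Finset.sum_congr rfl fun j _ => ?_
      rw [LinearMap.smul_apply, h, Pi.smul_apply, smul_eq_mul, smul_eq_mul]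
      ring
    have h2 := (linearIndependent_monoidHom N F).comp χ hχ
    have h3 := Fintype.linearIndependent_iff.1 h2 _ h1 i
    exact (mul_eq_zero.1 h3).resolve_right hx
  have h1 := hli.fintype_card_le_finrank
  have h2 : finrank F (X →ₗ[ZMod p] F) = finrank (ZMod p) X := Module.finrank_linearMap_self (ZMod p) F X
  rwa [h2] at h1

/-- The Frobenius twist of a linear form. -/
noncomputable def twist [CharP F p] (i : ℕ) (L : X →ₗ[ZMod p] F) : X →ₗ[ZMod p] F :=
  ((iterateFrobenius F p i).toAddMonoidHom.toZModLinearMap p).comp L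

omit [Module.Finite (ZMod p) X] in
theorem twist_apply [CharP F p] (i : ℕ) (L : X →ₗ[ZMod p] F) (x : X) : twist i L x = L x ^ p ^ i := rfl

omit [Module.Finite (ZMod p) X] in
theorem twist_ne [CharP F p] (i : ℕ) {L : X →ₗ[ZMod p] F} (hL : L ≠ 0) : twist i L ≠ 0 := by
  intro h
  apply hL
  ext x
  have h1 := LinearMap.congr_fun h x
  rw [twist_apply, LinearMap.zero_apply] at h1
  exact eq_zero_of_pow_eq_zero h1

omit [Module.Finite (ZMod p) X] in
/-- A nonzero linear form with values in `F` gives one with values in the prime field. -/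
theorem exists_functional {L : X →ₗ[ZMod p] F} (hL : L ≠ 0) :
    ∃ l : F →ₗ[ZMod p] ZMod p, l ∘ₗ L ≠ 0 := by
  obtain ⟨x, hx⟩ : ∃ x, L x ≠ 0 := by
    by_contra hcon
    push Not at hcon
    exact hL (LinearMap.ext hcon)
  obtain ⟨l, hl⟩ : ∃ l : F →ₗ[ZMod p] ZMod p, l (L x) ≠ 0 := by
    by_contra hcon
    push Not at hcon
    exact hx ((Module.forall_dual_apply_eq_zero_iff (ZMod p) (L x)).1 hcon)
  exact ⟨l, fun h => hl (LinearMap.congr_fun h x)⟩

end eigen

end Run7.h947.IW
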