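import Pool.Agent.W5h33.DF.Field

/-!
# Frobenius elements for the cyclotomic fields of prime power conductor
-/

set_option autoImplicit false

namespace Run7.h947.IW

open IntermediateField Module Pool.Agent.Q60.MU Pool.Agent.W5h77.MB Pool.Agent.W5h33.DF NumberField
open scoped Pointwise

theorem comap_ne_top {ℓ : ℕ} (hℓ : ℓ.Prime) (M : IntermediateField ℚ Qb) (C : ValuationSubring Qb)
    (hC : (ℓ : Qb) ∈ C.nonunits) : C.comap (algebraMap M Qb) ≠ ⊤ := by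
  intro htop
  have h2 : ((ℓ : M))⁻¹ ∈ C.comap (algebraMap M Qb) := by rw [htop]; trivial
  rw [ValuationSubring.mem_comap, map_inv₀, map_natCast] at h2
  rw [ValuationSubring.mem_nonunits_iff_or] at hC
  rcases hC with h3 | h3
  · exact hℓ.ne_zero (by exact_mod_cast h3)
  · exact h3 h2

theorem comap_eq_of {ℓ : ℕ} (hℓ : ℓ.Prime) (M : IntermediateField ℚ Qb) [FiniteDimensional ℚ M]
    (w w' : ValuationSubring Qb) (hw : (ℓ : Qb) ∈ w.nonunits) (hw' : (ℓ : Qb) ∈ w'.nonunits)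
    (h : ∀ z ∈ M, IsIntegral ℤ z → (z ∈ w.nonunits ↔ z ∈ w'.nonunits)) :
    w.comap (algebraMap M Qb) = w'.comap (algebraMap M Qb) := by
  apply Pool.Agent.H639R3.eq_of_integral_nonunits (A := ℤ) (F := ℚ) (M := M)
  · intro a
    rw [ValuationSubring.mem_comap]
    have h1 : algebraMap M Qb (algebraMap ℤ M a) = (a : Qb) := by
      rw [eq_intCast, map_intCast]
    rw [h1]
    exact integral_mem w isIntegral_algebraMap
  · intro a
    rw [ValuationSubring.mem_comap]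
    have h1 : algebraMap M Qb (algebraMap ℤ M a) = (a : Qb) := by
      rw [eq_intCast, map_intCast]
    rw [h1]
    exact integral_mem w' isIntegral_algebraMap
  · exact comap_ne_top hℓ M w hw
  · exact comap_ne_top hℓ M w' hw'
  · intro z hz
    rw [Pool.Agent.H639R3.comap_val_lt_one, Pool.Agent.H639R3.comap_val_lt_one,
      ← ValuationSubring.mem_nonunits_iff, ← ValuationSubring.mem_nonunits_iff]
    exact h z z.2 (hz.map ((algebraMap M Qb).toIntAlgHom))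

theorem conj_of_comap {ℓ : ℕ} (hℓ : ℓ.Prime) (M : IntermediateField ℚ Qb) [FiniteDimensional ℚ M]
    {A B : ValuationSubring Qb} (hB : (ℓ : Qb) ∈ B.nonunits)
    (h2 : A.comap (algebraMap M Qb) = B.comap (algebraMap M Qb)) :
    ∃ g ∈ M.fixingSubgroup, A = g • B := by
  have hnf : NumberField M := ⟨⟩
  have hint : ∀ (C : ValuationSubring Qb) (a : 𝓞 M), algebraMap (𝓞 M) M a ∈ C.comap (algebraMap M Qb) := by
    intro C a
    rw [ValuationSubring.mem_comap]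
    apply integral_mem C
    exact (RingOfIntegers.isIntegral_coe a).map ((algebraMap M Qb).toIntAlgHom)
  obtain ⟨σ, hσ⟩ := Pool.Agent.H639R3.exists_aut (F := M) (L := Qb) (A := 𝓞 M) B A (hint B)
    (comap_ne_top hℓ M B hB) h2.symm
  let τ : Gal(Qb/ℚ) := σ.restrictScalars ℚ
  have hτM : τ ∈ M.fixingSubgroup := by
    rw [IntermediateField.mem_fixingSubgroup_iff]
    intro x hx
    exact σ.commutes (⟨x, hx⟩ : M)
  refine ⟨τ⁻¹, inv_mem hτM, ?_⟩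
  ext a
  rw [ValuationSubring.mem_pointwise_smul_iff_inv_smul_mem, inv_inv, hσ]
  rfl

theorem mem_smul_nonunits {g : Gal(Qb/ℚ)} {w : ValuationSubring Qb} {z : Qb} :
    z ∈ (g • w).nonunits ↔ g⁻¹ z ∈ w.nonunits := by
  rw [ValuationSubring.mem_nonunits_iff_or, ValuationSubring.mem_nonunits_iff_or,
    ValuationSubring.mem_pointwise_smul_iff_inv_smul_mem]
  have h1 : g⁻¹ • z⁻¹ = (g⁻¹ z)⁻¹ := by
    show g⁻¹ z⁻¹ = (g⁻¹ z)⁻¹
    rw [map_inv₀]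
  rw [h1]
  have h2 : g⁻¹ z = 0 ↔ z = 0 := by
    rw [map_eq_zero]
  rw [h2]

theorem natCast_smul_nonunits {ℓ : ℕ} {g : Gal(Qb/ℚ)} {w : ValuationSubring Qb}
    (hw : (ℓ : Qb) ∈ w.nonunits) : (ℓ : Qb) ∈ (g • w).nonunits := by
  rw [mem_smul_nonunits, map_natCast]
  exact hw

/-- The integers of a cyclotomic field of prime power conductor. -/
theorem integral_poly {p N : ℕ} (hp : p.Prime) {ζ : Qb} (hζ : IsPrimitiveRoot ζ (p ^ N)) {z : Qb}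
    (hz : z ∈ ℚ⟮ζ⟯) (hi : IsIntegral ℤ z) : ∃ f : Polynomial ℤ, z = Polynomial.aeval ζ f := by
  have hpf : Fact p.Prime := ⟨hp⟩
  have hne : NeZero (p ^ N) := ⟨(pow_pos hp.pos N).ne'⟩
  have hcyc : IsCyclotomicExtension {p ^ N} ℚ ℚ⟮ζ⟯ :=
    hζ.intermediateField_adjoin_isCyclotomicExtension ℚ
  set ζ' : ℚ⟮ζ⟯ := ⟨ζ, mem_adjoin_simple_self ℚ ζ⟩ with hζ'
  have hζ'p : IsPrimitiveRoot ζ' (p ^ N) := by
    refine IsPrimitiveRoot.of_map_of_injective (f := algebraMap ℚ⟮ζ⟯ Qb) ?_ (algebraMap ℚ⟮ζ⟯ Qb).injective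
    exact hζ
  have hcl := IsCyclotomicExtension.Rat.isIntegralClosure_adjoin_singleton_of_prime_pow hζ'p
  have hz' : IsIntegral ℤ (⟨z, hz⟩ : ℚ⟮ζ⟯) := by
    rw [← isIntegral_algebraMap_iff (algebraMap ℚ⟮ζ⟯ Qb).injective]
    exact hi
  obtain ⟨y, hy⟩ := hcl.isIntegral_iff.1 hz'
  have key : ∀ a ∈ Algebra.adjoin ℤ ({ζ'} : Set ℚ⟮ζ⟯), ∃ f : Polynomial ℤ, Polynomial.aeval ζ' f = a := by
    intro a ha
    rw [Algebra.adjoin_singleton_eq_range_aeval] at ha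
    exact ha
  obtain ⟨f, hf⟩ := key _ y.2
  refine ⟨f, ?_⟩
  have h1 : (⟨z, hz⟩ : ℚ⟮ζ⟯) = Polynomial.aeval ζ' f := by
    rw [← hy]
    exact hf.symm
  have h2 := congrArg (algebraMap ℚ⟮ζ⟯ Qb) h1
  rw [← Polynomial.aeval_algebraMap_apply] at h2
  exact h2

theorem root_fix {n : ℕ} {ζ : Qb} (hn : 0 < n) (hζ : IsPrimitiveRoot ζ n) {g : Gal(Qb/ℚ)}
    (h : g ζ = ζ) {z : Qb} (hz : z ^ n = 1) : g z = z := by
  have hne : NeZero n := ⟨hn.ne'⟩
  obtain ⟨i, -, hi⟩ := hζ.eq_pow_of_pow_eq_one hz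
  rw [← hi, map_pow, h]

/-- `f(ζ ^ ℓ) = f(ζ) ^ ℓ + ℓ c`. -/
theorem aeval_frob {ℓ : ℕ} (hℓ : ℓ.Prime) {R : Type} [CommRing R] (ζ : R) (f : Polynomial ℤ) :
    ∃ h : Polynomial ℤ, Polynomial.aeval (ζ ^ ℓ) f =
      Polynomial.aeval ζ f ^ ℓ + (ℓ : R) * Polynomial.aeval ζ h := by
  have hf : Fact ℓ.Prime := ⟨hℓ⟩
  have h1 : (Polynomial.expand ℤ ℓ f - f ^ ℓ).map (Int.castRingHom (ZMod ℓ)) = 0 := by
    rw [Polynomial.map_sub, Polynomial.map_pow, Polynomial.map_expand, ZMod.expand_card, sub_self]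
  have h2 : ∃ h : Polynomial ℤ, Polynomial.expand ℤ ℓ f - f ^ ℓ = Polynomial.C (ℓ : ℤ) * h := by
    have h3 : ∀ i, (ℓ : ℤ) ∣ (Polynomial.expand ℤ ℓ f - f ^ ℓ).coeff i := by
      intro i
      have h4 := congrArg (fun q => Polynomial.coeff q i) h1
      simp only [Polynomial.coeff_map, Polynomial.coeff_zero] at h4
      exact (ZMod.intCast_zmod_eq_zero_iff_dvd _ _).1 (by simpa using h4)
    obtain ⟨h, hh⟩ := (Polynomial.C_dvd_iff_dvd_coeff _ _).2 h3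
    exact ⟨h, hh⟩
  obtain ⟨h, hh⟩ := h2
  refine ⟨h, ?_⟩
  have h3 : Polynomial.expand ℤ ℓ f = f ^ ℓ + Polynomial.C (ℓ : ℤ) * h := by rw [← hh]; ring
  have h4 := congrArg (Polynomial.aeval ζ) h3
  rw [Polynomial.expand_aeval] at h4
  rw [h4]
  simp

theorem int_mem (w : ValuationSubring Qb) {ζ : Qb} (hζ : IsIntegral ℤ ζ) (f : Polynomial ℤ) :
    Polynomial.aeval ζ f ∈ w := by
  apply integral_mem w
  have h1 : Polynomial.aeval ζ f ∈ Algebra.adjoin ℤ ({ζ} : Set Qb) := Polynomial.aeval_mem_adjoin_singleton ℤ ζ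
  have h2 : Algebra.adjoin ℤ ({ζ} : Set Qb) ≤ integralClosure ℤ Qb := by
    rw [Algebra.adjoin_le_iff]
    intro x hx
    rw [Set.mem_singleton_iff.1 hx]
    exact hζ
  exact h2 h1

theorem pow_nonunits {w : ValuationSubring Qb} {z : Qb} {n : ℕ} (h : z ^ n ∈ w.nonunits) :
    z ∈ w.nonunits := by
  rw [ValuationSubring.mem_nonunits_iff] at h ⊢
  rw [map_pow] at h
  by_contra h1
  exact absurd h (not_lt.2 (one_le_pow₀ (not_lt.1 h1)))

theorem root_integral {n : ℕ} (hn : 0 < n) {ζ : Qb} (hζ : ζ ^ n = 1) : IsIntegral ℤ ζ := by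
  refine ⟨Polynomial.X ^ n - 1, Polynomial.monic_X_pow_sub_C 1 hn.ne', ?_⟩
  simp [hζ]

/-- **Frobenius elements.** -/
theorem exists_frob {p N ℓ : ℕ} (hp : p.Prime) (hℓ : ℓ.Prime) (hne : ℓ ≠ p)
    (w : ValuationSubring Qb) (hw : (ℓ : Qb) ∈ w.nonunits) :
    ∃ s : Gal(Qb/ℚ), s • w = w ∧ ∀ z : Qb, z ^ p ^ N = 1 → s z = z ^ ℓ := by
  have hn : 0 < p ^ N := pow_pos hp.pos N
  have hpn : NeZero (p ^ N) := ⟨hn.ne'⟩
  have hpQ : NeZero ((p ^ N : ℕ) : Qb) := ⟨by exact_mod_cast hn.ne'⟩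
  have hE : HasEnoughRootsOfUnity Qb (p ^ N) := inferInstance
  obtain ⟨ζ, hζ⟩ := HasEnoughRootsOfUnity.exists_primitiveRoot Qb (p ^ N)
  have hcop : Nat.Coprime ℓ (p ^ N) :=
    Nat.Coprime.pow_right N ((Nat.coprime_primes hℓ hp).2 hne)
  have hζℓ : IsPrimitiveRoot (ζ ^ ℓ) (p ^ N) := hζ.pow_of_coprime ℓ hcop
  have hint : IsIntegral ℤ ζ := root_integral hn hζ.pow_eq_one
  have hconj : IsConjRoot ℚ ζ (ζ ^ ℓ) := by
    rw [isConjRoot_def, ← Polynomial.cyclotomic_eq_minpoly_rat hζ hn,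
      ← Polynomial.cyclotomic_eq_minpoly_rat hζℓ hn]
  obtain ⟨τ, hτ⟩ := (isConjRoot_iff_exists_algEquiv).1 hconj.symm
  have hfd : FiniteDimensional ℚ ℚ⟮ζ⟯ :=
    adjoin.finiteDimensional (hint.tower_top)
  have hℓmul : ∀ f : Polynomial ℤ, (ℓ : Qb) * Polynomial.aeval ζ f ∈ w.nonunits := fun f =>
    mul_nonunits hw (int_mem w hint f)
  have hcm : w.comap (algebraMap ℚ⟮ζ⟯ Qb) = (τ⁻¹ • w).comap (algebraMap ℚ⟮ζ⟯ Qb) := by
    apply comap_eq_of hℓ ℚ⟮ζ⟯ w (τ⁻¹ • w) hw (natCast_smul_nonunits hw)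
    intro z hz hzi
    rw [mem_smul_nonunits, inv_inv]
    obtain ⟨f, rfl⟩ := integral_poly hp hζ hz hzi
    obtain ⟨h, hh⟩ := aeval_frob hℓ ζ f
    have h1 : τ (Polynomial.aeval ζ f) = Polynomial.aeval ζ f ^ ℓ + (ℓ : Qb) * Polynomial.aeval ζ h := by
      refine Eq.trans ?_ hh
      rw [← hτ]
      exact (Polynomial.aeval_algHom_apply ((τ : Qb →ₐ[ℚ] Qb).restrictScalars ℤ) ζ f).symm
    rw [h1]
    constructor
    · intro h2
      refine add_mem ?_ (hℓmul h)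
      obtain ⟨k, hk⟩ := Nat.exists_eq_succ_of_ne_zero hℓ.ne_zero
      rw [hk, Nat.succ_eq_add_one, pow_succ', ← map_pow]
      exact mul_nonunits h2 (int_mem w hint (f ^ k))
    · intro h2
      apply pow_nonunits (n := ℓ)
      have h3 := sub_mem h2 (hℓmul h)
      rwa [add_sub_cancel_right] at h3
  obtain ⟨g, hg, hgw⟩ := conj_of_comap hℓ ℚ⟮ζ⟯ (natCast_smul_nonunits hw) hcm
  refine ⟨τ * g⁻¹, ?_, fun z hz => ?_⟩
  · rw [mul_smul]
    have h1 : g⁻¹ • w = τ⁻¹ • w := by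
      conv_lhs => rw [hgw]
      rw [inv_smul_smul]
    rw [h1, smul_inv_smul]
  · have h1 : (g⁻¹ : Gal(Qb/ℚ)) ζ = ζ :=
      (IntermediateField.mem_fixingSubgroup_iff ℚ⟮ζ⟯ _).1 (inv_mem hg) ζ (mem_adjoin_simple_self ℚ ζ)
    show τ (g⁻¹ z) = z ^ ℓ
    rw [root_fix hn hζ h1 hz]
    obtain ⟨i, -, rfl⟩ := hζ.eq_pow_of_pow_eq_one hz
    rw [map_pow, hτ, ← pow_mul, ← pow_mul, mul_comm]

theorem root_sub_one {p N : ℕ} (hp : p.Prime) {w : ValuationSubring Qb} (hw : (p : Qb) ∈ w.nonunits)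
    {ζ : Qb} (hζ : ζ ^ p ^ N = 1) : ζ - 1 ∈ w.nonunits := by
  have hn : 0 < p ^ N := pow_pos hp.pos N
  have hζw : ζ ∈ w := root_mem hn.ne' hζ
  obtain ⟨r, hr⟩ := exists_add_pow_prime_pow_eq hp (⟨ζ, hζw⟩ - 1 : w) 1 N
  have h1 : (ζ - 1) ^ p ^ N = - ((p : Qb) * ((ζ - 1) * r)) := by
    have h2 := congrArg (fun x : w => (x : Qb)) hr
    simp only [sub_add_cancel, one_pow] at h2
    push_cast at h2
    rw [hζ] at h2
    linear_combination -h2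
  apply pow_nonunits (n := p ^ N)
  rw [h1]
  exact neg_mem (mul_nonunits hw (w.mul_mem _ _ (w.sub_mem hζw w.one_mem) r.2))

/-- The prime above `p` is unique in the cyclotomic fields of `p`-power conductor. -/
theorem one_orbit {p N : ℕ} (hp : p.Prime) (w : ValuationSubring Qb) (hw : (p : Qb) ∈ w.nonunits)
    (g : Gal(Qb/ℚ)) : ∃ τ : Gal(Qb/ℚ), g • w = τ • w ∧ ∀ z : Qb, z ^ p ^ N = 1 → τ z = z := by
  have hn : 0 < p ^ N := pow_pos hp.pos N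
  have hpn : NeZero (p ^ N) := ⟨hn.ne'⟩
  have hpQ : NeZero ((p ^ N : ℕ) : Qb) := ⟨by exact_mod_cast hn.ne'⟩
  have hE : HasEnoughRootsOfUnity Qb (p ^ N) := inferInstance
  obtain ⟨ζ, hζ⟩ := HasEnoughRootsOfUnity.exists_primitiveRoot Qb (p ^ N)
  have hint : IsIntegral ℤ ζ := root_integral hn hζ.pow_eq_one
  have hfd : FiniteDimensional ℚ ℚ⟮ζ⟯ :=
    adjoin.finiteDimensional (hint.tower_top)
  have key : ∀ (ξ : Qb), ξ ^ p ^ N = 1 → ∀ f : Polynomial ℤ,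
      Polynomial.aeval ξ f ∈ w.nonunits ↔ ((f.eval 1 : ℤ) : Qb) ∈ w.nonunits := by
    intro ξ hξ f
    have hξi := root_integral hn hξ
    obtain ⟨q, hq⟩ := Polynomial.X_sub_C_dvd_sub_C_eval (p := f) (a := (1 : ℤ))
    have h1 : Polynomial.aeval ξ f - ((f.eval 1 : ℤ) : Qb) = (ξ - 1) * Polynomial.aeval ξ q := by
      have h2 := congrArg (Polynomial.aeval ξ) hq
      simpa using h2
    have h2 : Polynomial.aeval ξ f - ((f.eval 1 : ℤ) : Qb) ∈ w.nonunits := by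
      rw [h1]
      exact mul_nonunits (root_sub_one hp hw hξ) (int_mem w hξi q)
    constructor
    · intro h3
      have h4 := sub_mem h3 h2
      rwa [sub_sub_cancel] at h4
    · intro h3
      have h4 := add_mem h2 h3
      rwa [sub_add_cancel] at h4
  have hcm : (g • w).comap (algebraMap ℚ⟮ζ⟯ Qb) = w.comap (algebraMap ℚ⟮ζ⟯ Qb) := by
    apply comap_eq_of hp ℚ⟮ζ⟯ (g • w) w (natCast_smul_nonunits hw) hw
    intro z hz hzi
    rw [mem_smul_nonunits]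
    obtain ⟨f, rfl⟩ := integral_poly hp hζ hz hzi
    have h1 : (g⁻¹ : Gal(Qb/ℚ)) (Polynomial.aeval ζ f) = Polynomial.aeval ((g⁻¹ : Gal(Qb/ℚ)) ζ) f :=
      (Polynomial.aeval_algHom_apply (((g⁻¹ : Gal(Qb/ℚ)) : Qb →ₐ[ℚ] Qb).restrictScalars ℤ) ζ f).symm
    rw [h1, key ζ hζ.pow_eq_one, key]
    rw [← map_pow, hζ.pow_eq_one, map_one]
  obtain ⟨τ, hτ, hτw⟩ := conj_of_comap hp ℚ⟮ζ⟯ hw hcm
  refine ⟨τ, hτw, fun z hz => ?_⟩
  have h1 : τ ζ = ζ :=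
    (IntermediateField.mem_fixingSubgroup_iff ℚ⟮ζ⟯ _).1 hτ ζ (mem_adjoin_simple_self ℚ ζ)
  exact root_fix hn hζ h1 hz

end Run7.h947.IW
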