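import Pool.Agent.Q60.MU.Alg

/-!
# Growth of a nilpotent endomorphism
-/

set_option autoImplicit false

namespace Run7.h947.IW

open Module

variable {k V : Type} [Field k] [AddCommGroup V] [Module k V] [FiniteDimensional k V]
  (φ : V →ₗ[k] V)

theorem rank_map (F : Submodule k V) :
    finrank k (F.map φ) + finrank k (LinearMap.ker φ ⊓ F : Submodule k V) = finrank k F := by
  have h1 := LinearMap.finrank_range_add_finrank_ker (φ.domRestrict F)
  have h2 : LinearMap.range (φ.domRestrict F) = F.map φ := by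
    ext x
    constructor
    · rintro ⟨y, rfl⟩
      exact ⟨y, y.2, rfl⟩
    · rintro ⟨y, hy, rfl⟩
      exact ⟨⟨y, hy⟩, rfl⟩
  have h3 : (LinearMap.ker (φ.domRestrict F)).map F.subtype = LinearMap.ker φ ⊓ F := by
    ext x
    constructor
    · rintro ⟨y, hy, rfl⟩
      exact ⟨hy, y.2⟩
    · rintro ⟨hx, hxF⟩
      exact ⟨⟨x, hxF⟩, hx, rfl⟩
  have h4 : finrank k (LinearMap.ker (φ.domRestrict F)) =
      finrank k (LinearMap.ker φ ⊓ F : Submodule k V) := by
    rw [← h3]
    exact (LinearEquiv.finrank_eq (Submodule.equivMapOfInjective F.subtype F.subtype_injective _))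
  rw [h2, h4] at h1
  exact h1

/-- The filtration by the powers of `φ`. -/
theorem growth (Y : Submodule k V) (hY : ∀ y ∈ Y, φ y ∈ Y) {n d : ℕ} (hn : 1 ≤ n)
    (h : finrank k V + finrank k Y < d * n + finrank k V + finrank k (Y.map (φ ^ n))) :
    finrank k (LinearMap.ker φ ⊓ Y.map (φ ^ (n - 1)) : Submodule k V) < d := by
  by_contra hcon
  push Not at hcon
  have hanti : ∀ j, Y.map (φ ^ (j + 1)) ≤ Y.map (φ ^ j) := by
    intro j
    rintro _ ⟨y, hy, rfl⟩
    exact ⟨φ y, hY y hy, by rw [pow_succ]; rfl⟩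
  have hle : ∀ i j, Y.map (φ ^ (j + i)) ≤ Y.map (φ ^ j) := by
    intro i j
    induction i with
    | zero => exact le_rfl
    | succ i ih => exact (hanti (j + i)).trans ih
  have hstep : ∀ j, Y.map (φ ^ (j + 1)) = (Y.map (φ ^ j)).map φ := by
    intro j
    rw [pow_succ', Module.End.mul_eq_comp, Submodule.map_comp]
  have key : ∀ j, j ≤ n → d * j + finrank k (Y.map (φ ^ j)) ≤ finrank k Y := by
    intro j
    induction j with
    | zero =>
      intro _
      rw [mul_zero, zero_add, pow_zero]
      have h1 : Y.map (1 : V →ₗ[k] V) = Y := Submodule.map_id Y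
      rw [h1]
    | succ j ih =>
      intro hj
      have h1 := ih (by omega)
      have h2 := rank_map φ (Y.map (φ ^ j))
      rw [← hstep] at h2
      have h3 : LinearMap.ker φ ⊓ Y.map (φ ^ (n - 1)) ≤ LinearMap.ker φ ⊓ Y.map (φ ^ j) := by
        apply inf_le_inf_left
        have h4 := hle (n - 1 - j) j
        rwa [show j + (n - 1 - j) = n - 1 by omega] at h4
      have h4 := Submodule.finrank_mono h3
      have h5 : d ≤ finrank k (LinearMap.ker φ ⊓ Y.map (φ ^ j) : Submodule k V) := hcon.trans h4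
      rw [mul_add, mul_one]
      omega
  have h1 := key n le_rfl
  omega

/-- The kernel of a power. -/
theorem ker_pow_le (N : ℕ) :
    finrank k (LinearMap.ker (φ ^ N)) ≤ N * finrank k (LinearMap.ker φ) := by
  induction N with
  | zero =>
    rw [pow_zero, zero_mul]
    have h1 : LinearMap.ker (1 : V →ₗ[k] V) = ⊥ := by
      ext x
      simp
    rw [h1, finrank_bot]
  | succ N ih =>
    have h1 := LinearMap.finrank_range_add_finrank_ker (φ ^ N)
    have h2 := LinearMap.finrank_range_add_finrank_ker (φ ^ (N + 1))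
    have h3 : LinearMap.range (φ ^ (N + 1)) = (LinearMap.range (φ ^ N)).map φ := by
      rw [pow_succ', Module.End.mul_eq_comp, LinearMap.range_comp]
    have h4 := rank_map φ (LinearMap.range (φ ^ N))
    rw [← h3] at h4
    have h5 : finrank k (LinearMap.ker φ ⊓ LinearMap.range (φ ^ N) : Submodule k V) ≤
        finrank k (LinearMap.ker φ) := Submodule.finrank_mono inf_le_left
    rw [add_mul, one_mul]
    omega

/-- The quotient by the image of `φ` and the kernel of `φ ^ N`. -/
theorem quot_eq (N : ℕ) :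
    finrank k (V ⧸ (LinearMap.ker (φ ^ N) ⊔ LinearMap.range φ)) =
      finrank k (LinearMap.ker φ ⊓ LinearMap.range (φ ^ N) : Submodule k V) := by
  set ψ := φ ^ N with hψ
  set X := LinearMap.ker ψ ⊔ LinearMap.range φ with hX
  have h1 := X.finrank_quotient_add_finrank
  have h2 := rank_map ψ X
  have h3 : LinearMap.ker ψ ⊓ X = LinearMap.ker ψ := inf_eq_left.2 le_sup_left
  rw [h3] at h2
  have h4 : X.map ψ = (LinearMap.range ψ).map φ := by
    rw [hX, Submodule.map_sup]
    have h5 : (LinearMap.ker ψ).map ψ = ⊥ := by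
      rw [eq_bot_iff]
      rintro _ ⟨x, hx, rfl⟩
      exact hx
    rw [h5, bot_sup_eq, ← LinearMap.range_comp, ← LinearMap.range_comp, hψ, ← Module.End.mul_eq_comp,
      ← Module.End.mul_eq_comp, ← pow_succ, ← pow_succ']
  rw [h4] at h2
  have h5 := rank_map φ (LinearMap.range ψ)
  have h6 := LinearMap.finrank_range_add_finrank_ker ψ
  omega

/-- All together. -/
theorem growth_all (Y : Submodule k V) (hY : ∀ y ∈ Y, φ y ∈ Y) {n d q c : ℕ} (hn : 1 ≤ n)
    (hq : LinearMap.range (φ ^ q) ≤ Y)
    (h : finrank k V + finrank k Y < d * n + finrank k V + finrank k (Y.map (φ ^ n)))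
    (hc : finrank k V ≤ c + finrank k (Y.map (φ ^ n))) :
    finrank k (V ⧸ (LinearMap.ker (φ ^ (n - 1 + q)) ⊔ LinearMap.range φ)) < d ∧
      finrank k (LinearMap.ker (φ ^ (n - 1 + q))) ≤ (n - 1 + q) * c := by
  constructor
  · rw [quot_eq]
    refine lt_of_le_of_lt (Submodule.finrank_mono (inf_le_inf_left _ ?_)) (growth φ Y hY hn h)
    rw [pow_add, Module.End.mul_eq_comp, LinearMap.range_comp]
    exact Submodule.map_mono hq
  · refine (ker_pow_le φ _).trans (Nat.mul_le_mul_left _ ?_)
    have h1 := LinearMap.finrank_range_add_finrank_ker φ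
    have h2 : Y.map (φ ^ n) ≤ LinearMap.range φ := by
      rintro _ ⟨y, hy, rfl⟩
      obtain ⟨m, rfl⟩ := Nat.exists_eq_add_of_le' hn
      rw [pow_succ']
      exact ⟨(φ ^ m) y, rfl⟩
    have h3 := Submodule.finrank_mono h2
    omega

end Run7.h947.IW
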