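import Pool.Agent.Q60.MU.Alg

/-!
# Detection for a normal subgroup
-/

set_option autoImplicit false

namespace Run7.h947.IW

open Module Pool.Agent.Q60.MU

variable {k : Type} [Field k] {G : Type} [Group G] {V : Type} [AddCommGroup V] [Module k V]
  (ρ : Representation k G V)

/-- A maximal stable subspace. -/
theorem exists_max [Module.Finite k V] {W : Submodule k V} (hW : Stable ρ W) (hWt : W ≠ ⊤) :
    ∃ U : Submodule k V, W ≤ U ∧ Stable ρ U ∧ U ≠ ⊤ ∧
      ∀ U' : Submodule k V, Stable ρ U' → U ≤ U' → U' = U ∨ U' = ⊤ := by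
  classical
  have hex : ∃ n, ∃ U : Submodule k V, Stable ρ U ∧ U ≠ ⊤ ∧ W ≤ U ∧
      finrank k V - finrank k U = n := ⟨_, W, hW, hWt, le_rfl, rfl⟩
  obtain ⟨U, hU, hUt, hWU, hn⟩ := Nat.find_spec hex
  have hmin := fun m hm => Nat.find_min hex (m := m) hm
  refine ⟨U, hWU, hU, hUt, fun Q hQ hUQ => ?_⟩
  by_cases hQt : Q = ⊤
  · exact Or.inr hQt
  left
  by_contra hne
  have h4 : U < Q := lt_of_le_of_ne hUQ fun h => hne h.symm
  have h5 := Submodule.finrank_lt_finrank_of_lt h4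
  have h6 : finrank k (Q : Submodule k V) ≤ finrank k V := Submodule.finrank_le _
  refine hmin (finrank k V - finrank k Q) ?_ ⟨_, hQ, hQt, hWU.trans hUQ, rfl⟩
  rw [← hn]
  omega

theorem simple_of_max {U : Submodule k V} (hU : Stable ρ U) (hUt : U ≠ ⊤)
    (hmax : ∀ U' : Submodule k V, Stable ρ U' → U ≤ U' → U' = U ∨ U' = ⊤) :
    IsSimple (quo ρ hU) := by
  refine ⟨Submodule.Quotient.nontrivial_iff.2 hUt, fun Q hQ => ?_⟩
  have h1 : Stable ρ (Q.comap U.mkQ) := by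
    intro g x hx
    have h2 := hQ g (U.mkQ x) hx
    rw [quo_mk] at h2
    exact h2
  have h3 : U ≤ Q.comap U.mkQ := by
    intro x hx
    show U.mkQ x ∈ Q
    rw [Submodule.mkQ_apply, (Submodule.Quotient.mk_eq_zero U).2 hx]
    exact Q.zero_mem
  rcases hmax _ h1 h3 with h | h
  · left
    rw [← Submodule.map_comap_eq_of_surjective (Submodule.mkQ_surjective U) Q, h,
      Submodule.mkQ_map_self]
  · right
    rw [← Submodule.map_comap_eq_of_surjective (Submodule.mkQ_surjective U) Q, h,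
      Submodule.map_top, Submodule.range_mkQ]

/-- `U` is stable under `D`. -/
def StableD (D : Subgroup G) (U : Submodule k V) : Prop := ∀ g ∈ D, ∀ x ∈ U, ρ g x ∈ U

/-- The image of a subspace under the action. -/
def tr (g : G) (U : Submodule k V) : Submodule k V := U.comap (ρ g⁻¹)

theorem mem_tr {g : G} {U : Submodule k V} {x : V} : x ∈ tr ρ g U ↔ ρ g⁻¹ x ∈ U := Iff.rfl

theorem inv_act (g : G) (x : V) : ρ g (ρ g⁻¹ x) = x := by
  rw [← Module.End.mul_apply, ← map_mul, mul_inv_cancel, map_one]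
  rfl

theorem inv_act' (g : G) (x : V) : ρ g⁻¹ (ρ g x) = x := by
  rw [← Module.End.mul_apply, ← map_mul, inv_mul_cancel, map_one]
  rfl

theorem mul_act (g h : G) (x : V) : ρ (g * h) x = ρ g (ρ h x) := by
  rw [map_mul]
  rfl

theorem tr_stableD {D : Subgroup G} (hD : D.Normal) {U : Submodule k V} (hU : StableD ρ D U) (g : G) :
    StableD ρ D (tr ρ g U) := by
  intro d hd x hx
  rw [mem_tr] at hx ⊢
  have h1 : g⁻¹ * d * g ∈ D := by
    have := hD.conj_mem d hd g⁻¹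
    rwa [inv_inv] at this
  have h2 := hU _ h1 _ hx
  have h3 : ρ g⁻¹ (ρ d x) = ρ (g⁻¹ * d * g) (ρ g⁻¹ x) := by
    rw [← mul_act, ← mul_act]
    congr 2
    group
  rw [h3]
  exact h2

/-- Two stable subspaces whose quotients have trivial coinvariants. -/
theorem inf_coinv {D H : Subgroup G} (hHD : H ≤ D) {A B : Submodule k V} (hA : StableD ρ D A)
    (hB : StableD ρ D B) (hAB : A ⊔ B = ⊤) (h1 : A ⊔ coinv ρ H = ⊤) (h2 : B ⊔ coinv ρ H = ⊤) :
    (A ⊓ B) ⊔ coinv ρ H = ⊤ := by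
  have key : ∀ A B : Submodule k V, StableD ρ D A → StableD ρ D B → A ⊔ B = ⊤ → B ⊔ coinv ρ H = ⊤ →
      A ≤ (A ⊓ B) ⊔ coinv ρ H := by
    intro A B hA hB hAB hBc a ha
    have h3 : coinv ρ H ≤ B ⊔ (A ⊓ coinv ρ H) := by
      rw [coinv, Submodule.span_le]
      rintro _ ⟨h, hh, v, rfl⟩
      obtain ⟨a', ha', b', hb', rfl⟩ := Submodule.mem_sup.1 (hAB ▸ Submodule.mem_top : v ∈ A ⊔ B)
      have h4 : ρ h (a' + b') - (a' + b') = (ρ h b' - b') + (ρ h a' - a') := by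
        rw [map_add]
        abel
      rw [SetLike.mem_coe, h4]
      refine Submodule.add_mem_sup (B.sub_mem (hB h (hHD hh) b' hb') hb') ⟨A.sub_mem (hA h (hHD hh) a' ha') ha',
        Submodule.subset_span ⟨h, hh, a', rfl⟩⟩
    have h4 : a ∈ B ⊔ (A ⊓ coinv ρ H) := by
      have h5 : B ⊔ coinv ρ H ≤ B ⊔ (A ⊓ coinv ρ H) := sup_le le_sup_left h3
      rw [hBc] at h5
      exact h5 Submodule.mem_top
    obtain ⟨b, hb, c, hc, hbc⟩ := Submodule.mem_sup.1 h4
    have h5 : b ∈ A := by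
      have h6 : b = a - c := by
        rw [← hbc]
        abel
      rw [h6]
      exact A.sub_mem ha hc.1
    rw [← hbc]
    exact Submodule.add_mem_sup ⟨h5, hb⟩ hc.2
  rw [eq_top_iff, ← hAB]
  refine sup_le (key A B hA hB hAB h2) ?_
  have h3 := key B A hB hA (by rw [sup_comm]; exact hAB) h1
  rwa [inf_comm] at h3

theorem coinv_tr (g : G) (H : Subgroup G) (U : Submodule k V)
    (h : tr ρ g U ⊔ coinv ρ H ≠ ⊤) :
    U ⊔ coinv ρ (H.map (MulAut.conj g⁻¹).toMonoidHom) ≠ ⊤ := by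
  intro h1
  apply h
  rw [eq_top_iff]
  intro x _
  have h2 : ρ g⁻¹ x ∈ U ⊔ coinv ρ (H.map (MulAut.conj g⁻¹).toMonoidHom) := h1 ▸ Submodule.mem_top
  have h3 : U ⊔ coinv ρ (H.map (MulAut.conj g⁻¹).toMonoidHom) ≤ (tr ρ g U ⊔ coinv ρ H).comap (ρ g) := by
    refine sup_le ?_ ?_
    · intro u hu
      refine Submodule.mem_sup_left ?_
      rw [mem_tr, inv_act']
      exact hu
    · rw [coinv, Submodule.span_le]
      rintro _ ⟨_, ⟨h, hh, rfl⟩, v, rfl⟩
      refine Submodule.mem_sup_right (Submodule.subset_span ⟨h, hh, ρ g v, ?_⟩)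
      rw [map_sub]
      congr 1
      show ρ g (ρ (g⁻¹ * h * g⁻¹⁻¹) v) = ρ h (ρ g v)
      rw [← mul_act, ← mul_act]
      congr 2
      group
  have h4 := h3 h2
  rw [Submodule.mem_comap, inv_act] at h4
  exact h4

variable {ρ}

/-- **Detection for the normal subgroup `D`.** -/
theorem detect_D [Module.Finite k V] {D : Subgroup G} (hD : D.Normal) {𝓗 : Finset (Subgroup G)}
    (hHD : ∀ L ∈ 𝓗, L ≤ D)
    (hconj : ∀ L ∈ 𝓗, ∀ g : G, L.map (MulAut.conj g).toMonoidHom ∈ 𝓗)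
    {Z₀ : Submodule k V} (hZ₀ : Stable ρ Z₀)
    (hdet : ∀ U : Submodule k V, Z₀ ≤ U → Stable ρ U → U ≠ ⊤ →
      (∀ U' : Submodule k V, Stable ρ U' → U ≤ U' → U' = U ∨ U' = ⊤) → ∃ L ∈ 𝓗, U ⊔ coinv ρ L ≠ ⊤)
    {W : Submodule k V} (hWD : StableD ρ D W) (hZW : Z₀ ≤ W) (hWt : W ≠ ⊤) :
    ∃ U : Submodule k V, W ≤ U ∧ StableD ρ D U ∧ ∃ L ∈ 𝓗, U ⊔ coinv ρ L ≠ ⊤ := by
  classical
  -- a maximal `D`-stable subspace
  have hWD' : Stable (ρ.comp D.subtype : Representation k D V) W := fun g x hx => hWD g g.2 x hx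
  obtain ⟨U, hWU, hU', hUt, hmax⟩ := exists_max _ hWD' hWt
  have hU : StableD ρ D U := fun g hg x hx => hU' ⟨g, hg⟩ x hx
  refine ⟨U, hWU, hU, ?_⟩
  by_contra hcon
  push Not at hcon
  have hcon2 : ∀ g : G, ∀ L ∈ 𝓗, tr ρ g U ⊔ coinv ρ L = ⊤ := by
    intro g L hL
    by_contra h
    exact coinv_tr ρ g L U h (hcon _ (hconj L hL g⁻¹))
  have hmaxg : ∀ g : G, ∀ A : Submodule k V, StableD ρ D A → ¬ A ≤ tr ρ g U → A ⊔ tr ρ g U = ⊤ := by
    intro g A hA hle
    have h1 : StableD ρ D (tr ρ g⁻¹ A) := tr_stableD ρ hD hA g⁻¹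
    have h2 : Stable (ρ.comp D.subtype : Representation k D V) (tr ρ g⁻¹ A ⊔ U) := by
      refine Stable.sup (fun d x hx => h1 d d.2 x hx) (fun d x hx => hU d d.2 x hx)
    rcases hmax _ h2 le_sup_right with h | h
    · exfalso
      apply hle
      intro x hx
      rw [mem_tr]
      have h3 : ρ g⁻¹ x ∈ tr ρ g⁻¹ A ⊔ U := by
        refine Submodule.mem_sup_left ?_
        rw [mem_tr, inv_inv, inv_act]
        exact hx
      rwa [h] at h3
    · rw [eq_top_iff]
      intro x _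
      have h3 : ρ g⁻¹ x ∈ tr ρ g⁻¹ A ⊔ U := h ▸ Submodule.mem_top
      obtain ⟨a, ha, u, hu, hau⟩ := Submodule.mem_sup.1 h3
      have h4 : x = ρ g a + ρ g u := by
        rw [← map_add, hau, inv_act]
      rw [h4]
      refine Submodule.add_mem_sup ?_ ?_
      · rw [mem_tr, inv_inv] at ha
        exact ha
      · rw [mem_tr, inv_act']
        exact hu
  -- the smallest intersection
  let P : Submodule k V → Prop := fun A => StableD ρ D A ∧ (∀ L ∈ 𝓗, A ⊔ coinv ρ L = ⊤) ∧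
    ∀ x, (∀ g, x ∈ tr ρ g U) → x ∈ A
  have hex : ∃ n, ∃ A : Submodule k V, P A ∧ finrank k A = n :=
    ⟨_, ⊤, ⟨fun g _ x _ => Submodule.mem_top, fun L _ => top_sup_eq _, fun x _ => Submodule.mem_top⟩, rfl⟩
  obtain ⟨A, ⟨hA1, hA2, hA3⟩, hn⟩ := Nat.find_spec hex
  have hmin := fun m hm => Nat.find_min hex (m := m) hm
  have hle : ∀ g, A ≤ tr ρ g U := by
    intro g
    by_contra hle
    have h1 := hmaxg g A hA1 hle
    have hB := tr_stableD ρ hD hU g
    have h2 : P (A ⊓ tr ρ g U) := by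
      refine ⟨fun d hd x hx => ⟨hA1 d hd x hx.1, hB d hd x hx.2⟩, fun L hL => ?_, fun x hx => ⟨hA3 x hx, hx g⟩⟩
      exact inf_coinv ρ (hHD L hL) hA1 hB h1 (hA2 L hL) (hcon2 g L hL)
    have h3 : A ⊓ tr ρ g U < A := by
      refine lt_of_le_of_ne inf_le_left fun h => hle ?_
      rw [← h]
      exact inf_le_right
    refine hmin (finrank k (A ⊓ tr ρ g U : Submodule k V)) ?_ ⟨_, h2, rfl⟩
    rw [← hn]
    exact Submodule.finrank_lt_finrank_of_lt h3
  have hAst : Stable ρ A := by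
    intro h x hx
    apply hA3
    intro g
    rw [mem_tr, ← mul_act]
    have h1 := hle (h⁻¹ * g) hx
    rw [mem_tr] at h1
    have h2 : (h⁻¹ * g)⁻¹ = g⁻¹ * h := by group
    rwa [h2] at h1
  have hAU : A ≤ U := by
    intro x hx
    have h1 := hle 1 hx
    rw [mem_tr, inv_one, map_one] at h1
    exact h1
  have hAt : A ≠ ⊤ := fun h => hUt (by
    rw [eq_top_iff, ← h]
    exact hAU)
  have hZA : Z₀ ≤ A := by
    intro x hx
    apply hA3
    intro g
    rw [mem_tr]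
    exact hWU (hZW (hZ₀ g⁻¹ x hx))
  obtain ⟨U', hAU', hU's, hU't, hmax'⟩ := exists_max ρ hAst hAt
  obtain ⟨L, hL, hne⟩ := hdet U' (hZA.trans hAU') hU's hU't hmax'
  apply hne
  rw [eq_top_iff, ← hA2 L hL]
  exact sup_le_sup_right hAU' _

/-- **The inequality.** -/
theorem finrank_bound [Module.Finite k V] {D : Subgroup G} (hD : D.Normal) {𝓗 : Finset (Subgroup G)}
    (hHD : ∀ L ∈ 𝓗, L ≤ D)
    (hconj : ∀ L ∈ 𝓗, ∀ g : G, L.map (MulAut.conj g).toMonoidHom ∈ 𝓗)
    {Z₀ : Submodule k V} (hZ₀ : Stable ρ Z₀)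
    (hdet : ∀ U : Submodule k V, Z₀ ≤ U → Stable ρ U → U ≠ ⊤ →
      (∀ U' : Submodule k V, Stable ρ U' → U ≤ U' → U' = U ∨ U' = ⊤) → ∃ L ∈ 𝓗, U ⊔ coinv ρ L ≠ ⊤)
    {K₀ : Subgroup G} (hidx : K₀.relIndex D ≠ 0) (h0 : ∀ g ∈ K₀, ∀ x, ρ g x = x) :
    finrank k V ≤ finrank k Z₀ + K₀.relIndex D * ∑ L ∈ 𝓗, finrank k (V ⧸ coinv ρ L) := by
  classical
  let ρD : Representation k D V := ρ.comp D.subtype
  have hgen : ∀ v, StableD ρ D (gen ρD v) := fun v g hg x hx => gen_stable ρD v ⟨g, hg⟩ x hx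
  have hgenle : ∀ v, finrank k (gen ρD v) ≤ K₀.relIndex D := fun v =>
    finrank_gen_le ρD (K₀ := K₀.subgroupOf D) hidx (fun g hg x => h0 g hg x) v
  have key : ∀ (n : ℕ) (W : Submodule k V), StableD ρ D W → Z₀ ≤ W →
      ∑ i ∈ 𝓗, finrank k (V ⧸ (W ⊔ coinv ρ i)) = n →
      finrank k V ≤ finrank k W + K₀.relIndex D * n := by
    intro n
    induction n using Nat.strong_induction_on with
    | _ n ih =>
      intro W hW hZW hn
      by_cases hWt : W = ⊤
      · rw [hWt, finrank_top]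
        exact Nat.le_add_right _ _
      obtain ⟨U, hWU, hU, i, hi, hne⟩ := detect_D hD hHD hconj hZ₀ hdet hW hZW hWt
      obtain ⟨v, hv⟩ : ∃ v, v ∉ U ⊔ coinv ρ i := by
        by_contra hcon
        push Not at hcon
        exact hne (eq_top_iff.2 fun x _ => hcon x)
      have hle : ∀ H' : Subgroup G, W ⊔ coinv ρ H' ≤ (W ⊔ gen ρD v) ⊔ coinv ρ H' :=
        fun H' => sup_le_sup_right le_sup_left _
      have hq : ∀ X : Submodule k V, finrank k (V ⧸ X) = finrank k V - finrank k X := by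
        intro X
        have := X.finrank_quotient_add_finrank
        omega
      have h1 : ∀ j ∈ 𝓗, finrank k (V ⧸ ((W ⊔ gen ρD v) ⊔ coinv ρ j)) ≤
          finrank k (V ⧸ (W ⊔ coinv ρ j)) := by
        intro j _
        rw [hq, hq]
        have := Submodule.finrank_mono (hle j)
        omega
      have h2 : finrank k (V ⧸ ((W ⊔ gen ρD v) ⊔ coinv ρ i)) <
          finrank k (V ⧸ (W ⊔ coinv ρ i)) := by
        have h3 : W ⊔ coinv ρ i < (W ⊔ gen ρD v) ⊔ coinv ρ i := by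
          refine lt_of_le_of_ne (hle i) fun h => hv ?_
          have h4 : v ∈ (W ⊔ gen ρD v) ⊔ coinv ρ i :=
            Submodule.mem_sup_left (Submodule.mem_sup_right (mem_gen ρD v))
          rw [← h] at h4
          exact (sup_le_sup_right hWU _) h4
        have h5 := Submodule.finrank_lt_finrank_of_lt h3
        have h6 : finrank k ((W ⊔ gen ρD v) ⊔ coinv ρ i : Submodule k V) ≤ finrank k V :=
          Submodule.finrank_le _
        rw [hq, hq]
        omega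
      have h3 : ∑ j ∈ 𝓗, finrank k (V ⧸ ((W ⊔ gen ρD v) ⊔ coinv ρ j)) < n := by
        rw [← hn]
        exact Finset.sum_lt_sum h1 ⟨i, hi, h2⟩
      have hst : StableD ρ D (W ⊔ gen ρD v) := by
        have h8 : Stable ρD (W ⊔ gen ρD v) :=
          Stable.sup (fun d x hx => hW d d.2 x hx) (gen_stable ρD v)
        exact fun g hg x hx => h8 ⟨g, hg⟩ x hx
      have h4 := ih _ h3 (W ⊔ gen ρD v) hst (hZW.trans le_sup_left) rfl
      have h5 : finrank k (W ⊔ gen ρD v : Submodule k V) ≤ finrank k W + K₀.relIndex D :=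
        (Submodule.finrank_add_le_finrank_add_finrank _ _).trans
          (Nat.add_le_add_left (hgenle v) _)
      calc finrank k V ≤ finrank k (W ⊔ gen ρD v : Submodule k V) +
            K₀.relIndex D * ∑ j ∈ 𝓗, finrank k (V ⧸ ((W ⊔ gen ρD v) ⊔ coinv ρ j)) := h4
        _ ≤ (finrank k W + K₀.relIndex D) +
            K₀.relIndex D * ∑ j ∈ 𝓗, finrank k (V ⧸ ((W ⊔ gen ρD v) ⊔ coinv ρ j)) :=
            Nat.add_le_add_right h5 _
        _ = finrank k W +
            K₀.relIndex D * (∑ j ∈ 𝓗, finrank k (V ⧸ ((W ⊔ gen ρD v) ⊔ coinv ρ j)) + 1) := by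
            ring
        _ ≤ finrank k W + K₀.relIndex D * n := by
            apply Nat.add_le_add_left
            exact Nat.mul_le_mul_left _ h3
  refine (key _ Z₀ (fun g _ x hx => hZ₀ g x hx) le_rfl rfl).trans (Nat.add_le_add_left ?_ _)
  refine Nat.mul_le_mul_left _ (Finset.sum_le_sum fun L _ => ?_)
  have h1 := (Z₀ ⊔ coinv ρ L).finrank_quotient_add_finrank
  have h2 := (coinv ρ L).finrank_quotient_add_finrank
  have h3 : finrank k (coinv ρ L) ≤ finrank k (Z₀ ⊔ coinv ρ L : Submodule k V) :=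
    Submodule.finrank_mono le_sup_right
  omega

end Run7.h947.IW
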