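import Pool.Agent.Q60.MU.Main

/-!
# The module of a layer and its coinvariants
-/

set_option autoImplicit false

namespace Run7.h947.IW

open Subgroup Module Pool.Agent.Q60.MU
open scoped commutatorElement

variable {𝔾 : Type} [Group 𝔾] {p : ℕ} [hpf : Fact p.Prime] {K W : Subgroup 𝔾} 

section
variable {V : Type} [AddCommGroup V] [Module (ZMod p) V] [Module.Finite (ZMod p) V]

theorem exists_pre (π : K → V) (hs : Function.Surjective π) (ha : ∀ x y, π (x * y) = π x + π y)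
    (c : Submodule (ZMod p) V) :
    ∃ Q : Subgroup 𝔾, (∀ x, x ∈ Q ↔ ∃ h : x ∈ K, π ⟨x, h⟩ ∈ c) ∧
      Q.relIndex K = p ^ finrank (ZMod p) (V ⧸ c) := by
  classical
  have hπ1 : π 1 = 0 := by
    have h1 := ha 1 1
    rw [mul_one] at h1
    exact left_eq_add.1 h1
  refine ⟨⟨⟨⟨{x | ∃ h : x ∈ K, π ⟨x, h⟩ ∈ c}, ?_⟩, ?_⟩, ?_⟩, fun x => Iff.rfl, ?_⟩
  · rintro a b ⟨h1, h2⟩ ⟨h3, h4⟩
    refine ⟨K.mul_mem h1 h3, ?_⟩
    have h5 : π ⟨a * b, K.mul_mem h1 h3⟩ = π ⟨a, h1⟩ + π ⟨b, h3⟩ := ha ⟨a, h1⟩ ⟨b, h3⟩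
    rw [h5]
    exact c.add_mem h2 h4
  · refine ⟨K.one_mem, ?_⟩
    have h5 : π ⟨1, K.one_mem⟩ = 0 := hπ1
    rw [h5]
    exact c.zero_mem
  · rintro a ⟨h1, h2⟩
    refine ⟨K.inv_mem h1, ?_⟩
    have h5 : π ⟨a, h1⟩ + π ⟨a⁻¹, K.inv_mem h1⟩ = 0 := by
      rw [← ha, ← hπ1]
      congr 1
      exact Subtype.ext (mul_inv_cancel a)
    have h6 : π ⟨a⁻¹, K.inv_mem h1⟩ = - π ⟨a, h1⟩ := (neg_eq_of_add_eq_zero_right h5).symm
    rw [h6]
    exact c.neg_mem h2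
  · let φ : K →* Multiplicative (V ⧸ c) :=
      { toFun := fun x => Multiplicative.ofAdd (c.mkQ (π x))
        map_one' := by
          rw [hπ1, map_zero]
          rfl
        map_mul' := fun x y => by
          rw [ha, map_add]
          rfl }
    have h2 : Function.Surjective φ := by
      intro y
      obtain ⟨v, hv⟩ := c.mkQ_surjective (Multiplicative.toAdd y)
      obtain ⟨x, rfl⟩ := hs v
      exact ⟨x, congrArg Multiplicative.ofAdd hv⟩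
    have h3 : Nat.card (V ⧸ c) = p ^ finrank (ZMod p) (V ⧸ c) := by
      have h4 := Module.natCard_eq_pow_finrank (K := ZMod p) (V := V ⧸ c)
      rwa [Nat.card_zmod] at h4
    rw [← h3]
    have h4 : Nat.card (V ⧸ c) = φ.ker.index := by
      rw [index_ker, MonoidHom.range_eq_top.2 h2, card_top]
      rfl
    rw [h4]
    unfold relIndex
    congr 1
    ext x
    rw [mem_subgroupOf, MonoidHom.mem_ker]
    constructor
    · rintro ⟨_, h⟩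
      exact (Submodule.Quotient.mk_eq_zero c).2 h
    · intro h
      exact ⟨x.2, (Submodule.Quotient.mk_eq_zero c).1 h⟩

end

theorem exists_repG {Ω : Type} {I : Ω → Subgroup 𝔾} (hKn : K.Normal) (hWf : W.relIndex K ≠ 0)
    (hg : gens p I K ⊆ W) (hWn : W.Normal) :
    ∃ (V : Type) (_ : AddCommGroup V) (_ : Module (ZMod p) V) (_ : Module.Finite (ZMod p) V)
      (ρ : Representation (ZMod p) 𝔾 V) (π : K → V), Function.Surjective π ∧
      (∀ x y, π (x * y) = π x + π y) ∧ (∀ x, π x = 0 ↔ (x : 𝔾) ∈ W) ∧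
      ∀ (d : 𝔾) (x : K), ρ d (π x) = π ⟨d * x * d⁻¹, hKn.conj_mem x x.2 d⟩ := by
  obtain ⟨V, i1, i2, i3, ρ, π, hs, ha, h0, hρ⟩ := exists_rep (p := p) (I := I) (K := K) (D := ⊤) (W := W)
    le_top (fun d _ x hx => hKn.conj_mem x hx d) hWf hg (fun d _ x hx => hWn.conj_mem x hx d)
  refine ⟨V, i1, i2, i3, ρ.comp (Subgroup.topEquiv.symm.toMonoidHom : 𝔾 →* (⊤ : Subgroup 𝔾)), π, hs, ha, h0,
    fun d x => ?_⟩
  exact hρ ⟨d, trivial⟩ x

/-- **The coinvariants of the module of a layer.** -/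
theorem coinv_bound {V : Type} [AddCommGroup V] [Module (ZMod p) V] [Module.Finite (ZMod p) V] [TopologicalSpace 𝔾] [ContinuousMul 𝔾] {Ω : Type} [MulAction 𝔾 Ω]
    {I : Ω → Subgroup 𝔾} (hI : ∀ (g : 𝔾) (w : Ω), ∀ x ∈ I w, g * x * g⁻¹ ∈ I (g • w))
    (hKn : K.Normal) (hWK : W ≤ K) (hWo : IsOpen (W : Set 𝔾))
    (hg : gens p I K ⊆ W) (ρ : Representation (ZMod p) 𝔾 V) (π : K → V)
    (hs : Function.Surjective π) (ha : ∀ x y, π (x * y) = π x + π y)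
    (h0 : ∀ x, π x = 0 ↔ (x : 𝔾) ∈ W)
    (hρ : ∀ (d : 𝔾) (x : K), ρ d (π x) = π ⟨d * x * d⁻¹, hKn.conj_mem x x.2 d⟩)
    {L : Subgroup 𝔾} (hKL : K ≤ L) (hKL0 : K.relIndex L ≠ 0) {n t : ℕ} (hn : K.relIndex L ≤ n)
    (T : Finset Ω) (hTt : T.card ≤ t) (hT : ∀ w, I w ⊓ L ≤ K ∨ ∃ u ∈ T, ∃ l ∈ L, w = l • u)
    {C : ℕ} (hC : RankLe p I L C) :
    p ^ finrank (ZMod p) (V ⧸ coinv ρ L) ≤ cst n t * C := by
  classical
  obtain ⟨Q, hQ, hidx⟩ := exists_pre π hs ha (coinv ρ L)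
  have hWQ : W ≤ Q := by
    intro x hx
    refine (hQ x).2 ⟨hWK hx, ?_⟩
    rw [(h0 ⟨x, hWK hx⟩).2 hx]
    exact (coinv ρ L).zero_mem
  have hc : ∀ l ∈ L, ∀ k ∈ K, ⁅l, k⁆ ∈ Q := by
    intro l hl k hk
    have hlk : l * k * l⁻¹ ∈ K := hKn.conj_mem k hk l
    have hm : ⁅l, k⁆ ∈ K := by
      rw [commutatorElement_def]
      exact K.mul_mem hlk (K.inv_mem hk)
    refine (hQ _).2 ⟨hm, ?_⟩
    have h1 : π ⟨⁅l, k⁆, hm⟩ + π ⟨k, hk⟩ = ρ l (π ⟨k, hk⟩) := by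
      rw [hρ, ← ha]
      congr 1
      apply Subtype.ext
      show ⁅l, k⁆ * k = l * k * l⁻¹
      rw [commutatorElement_def]
      group
    have h2 : π ⟨⁅l, k⁆, hm⟩ = ρ l (π ⟨k, hk⟩) - π ⟨k, hk⟩ := by
      rw [← h1, add_sub_cancel_right]
    rw [h2]
    exact Submodule.subset_span ⟨l, hl, _, rfl⟩
  have h1 := genus hI hKL hKL0 (fun x hx => ((hQ x).1 hx).1) (isOpen_mono hWQ hWo)
    (by
      rw [hidx]
      exact pow_ne_zero _ hpf.out.ne_zero)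
    (fun x hx => hWQ (hg hx)) hc T hT hC
  rw [hidx] at h1
  refine h1.trans (Nat.mul_le_mul_right _ ?_)
  exact cst_mono (Nat.pos_of_ne_zero hKL0) hn hTt

end Run7.h947.IW
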