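import Pool.Agent.Run7.h947.IW.GapB
import Pool.Agent.Run7.h947.IW.GapD
import Pool.Agent.W5h33.DF.Main

/-!
# The modules of two layers
-/

set_option autoImplicit false

namespace Run7.h947.IW

open Subgroup Module Pool.Agent.Q60.MU
open Pool.Agent.W5h33.DF (mod_gamma relIndex_le_of_mul)
open scoped commutatorElement

section ring
variable {p : ℕ} [hpf : Fact p.Prime] {V : Type} [AddCommGroup V] [Module (ZMod p) V]

theorem charP_end [Nontrivial V] : CharP (Module.End (ZMod p) V) p :=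
  charP_of_injective_algebraMap (FaithfulSMul.algebraMap_injective (ZMod p) (Module.End (ZMod p) V)) p

theorem pow_frob (G : Module.End (ZMod p) V) (b : ℕ) : (G - 1) ^ (p ^ b) = G ^ (p ^ b) - 1 := by
  rcases subsingleton_or_nontrivial V with h | h
  · ext x
    exact Subsingleton.elim _ _
  · have := charP_end (p := p) (V := V)
    rw [sub_pow_char_pow_of_commute _ _ (Commute.one_right G), one_pow]

theorem pow_norm (G : Module.End (ZMod p) V) (b : ℕ) :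
    (G - 1) ^ (p ^ b - 1) = ∑ i ∈ Finset.range (p ^ b), G ^ i := by
  have h0 : (Polynomial.X - 1 : Polynomial (ZMod p)) ^ (p ^ b - 1) =
      ∑ i ∈ Finset.range (p ^ b), (Polynomial.X : Polynomial (ZMod p)) ^ i := by
    have h2 : (Polynomial.X - 1 : Polynomial (ZMod p)) ≠ 0 := Polynomial.X_sub_C_ne_zero 1
    apply mul_left_cancel₀ h2
    rw [← pow_succ', Nat.sub_add_cancel (Nat.one_le_iff_ne_zero.2 (pow_pos hpf.out.pos b).ne'),
      mul_geom_sum, sub_pow_char_pow, one_pow]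
  have h3 := congrArg (Polynomial.aeval (R := ZMod p) G) h0
  simp only [map_pow, map_sub, map_one, map_sum, Polynomial.aeval_X] at h3
  exact h3

end ring

variable {𝔾 : Type} [Group 𝔾] {p : ℕ} [hpf : Fact p.Prime] {Ω : Type} [MulAction 𝔾 Ω]
    {I : Ω → Subgroup 𝔾}

omit hpf in
theorem gens_conj (hI : ∀ (g : 𝔾) (w : Ω), ∀ x ∈ I w, g * x * g⁻¹ ∈ I (g • w)) {H : Subgroup 𝔾}
    (hH : H.Normal) (g : 𝔾) {x : 𝔾} (hx : x ∈ gens p I H) : g * x * g⁻¹ ∈ gens p I H := by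
  rcases hx with (⟨a, ha, rfl⟩ | ⟨a, ha, b, hb, rfl⟩) | ⟨hx, w, hw⟩
  · refine Or.inl (Or.inl ⟨g * a * g⁻¹, hH.conj_mem a ha g, ?_⟩)
    rw [conj_pow]
  · refine Or.inl (Or.inr ⟨g * a * g⁻¹, hH.conj_mem a ha g, g * b * g⁻¹, hH.conj_mem b hb g, ?_⟩)
    rw [commutatorElement_def, commutatorElement_def]
    group
  · exact Or.inr ⟨hH.conj_mem x hx g, g • w, hI g w x hw⟩

theorem closure_normal {S : Set 𝔾} (h : ∀ g, ∀ x ∈ S, g * x * g⁻¹ ∈ S) : (Subgroup.closure S).Normal := by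
  refine ⟨fun x hx g => ?_⟩
  have h1 : (Subgroup.closure S).map (MulAut.conj g).toMonoidHom ≤ Subgroup.closure S := by
    rw [MonoidHom.map_closure, closure_le]
    rintro _ ⟨y, hy, rfl⟩
    exact subset_closure (h g y hy)
  exact h1 ⟨x, hx, rfl⟩

/-- The structure of the module of the layer `m` with respect to the layers `e` and `n`. -/
theorem layer_struct [TopologicalSpace 𝔾] [ContinuousMul 𝔾]
    (hI : ∀ (g : 𝔾) (w : Ω), ∀ x ∈ I w, g * x * g⁻¹ ∈ I (g • w))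
    {K De Dn Dm Hm He Hn : Subgroup 𝔾} (hHm : Hm = K ⊓ Dm) (hHe : He = K ⊓ De) (hHn : Hn = K ⊓ Dn)
    (hKn : K.Normal) (hDen : De.Normal) (hDnn : Dn.Normal)
    (hmn : Dm ≤ Dn) (hne : Dn ≤ De) (hHm0 : Hm.index ≠ 0)
    {γ : 𝔾} (hγK : γ ∈ K) (hγ : ∀ τ ∈ K, ∃ i : ℤ, τ * (γ ^ i)⁻¹ ∈ Dm) (hcm : ∀ x y : 𝔾, ⁅x, y⁆ ∈ Dm)
    {a b : ℕ} (hqe : De.relIndex K = p ^ a) (hqn : Dn.relIndex K = p ^ (a + b))
    (P : Ω → Prop) (hP : ∀ w, ¬ P w → I w ≤ Dm) (w₀ : Ω) (hw₀ : P w₀)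
    (hram : ∀ w, P w → ∀ σ ∈ He, ∃ τ ∈ I w, τ ∈ He ∧ σ * τ⁻¹ ∈ Hm)
    {Q : Subgroup 𝔾} (hQK : Q ≤ Hm) (hQo : IsOpen (Q : Set 𝔾)) (hQf : Q.relIndex Hm ≠ 0)
    (hQn : Q.Normal) (hg : gens p I Hm ⊆ Q) (hHmn : Hm.Normal)
    {V : Type} [AddCommGroup V] [Module (ZMod p) V] [Module.Finite (ZMod p) V]
    (ρ : Representation (ZMod p) 𝔾 V) (π : Hm → V)
    (hs : Function.Surjective π) (ha : ∀ x y, π (x * y) = π x + π y)
    (h0 : ∀ x, π x = 0 ↔ (x : 𝔾) ∈ Q)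
    (hρ : ∀ (d : 𝔾) (x : Hm), ρ d (π x) = π ⟨d * x * d⁻¹, hHmn.conj_mem x x.2 d⟩)
    {M : Subgroup 𝔾} (hM : gens p I He ⊆ M) (hQM : Q ≤ M)
    {C : ℕ} (hC : RankLe p I Hn C) :
    ∃ Y : Submodule (ZMod p) V, Stable ρ Y ∧ LinearMap.range ((ρ γ - 1) ^ (p ^ a)) ≤ Y ∧
      M.relIndex He ≤ p ^ finrank (ZMod p) (V ⧸ Y) ∧
      p ^ finrank (ZMod p) (V ⧸ Y.map ((ρ γ - 1) ^ (p ^ (a + b) - p ^ a))) ≤ C := by
  classical
  have hmne : Hm ≤ Hn := by
    rw [hHm, hHn]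
    exact inf_le_inf_left K hmn
  have hnee : Hn ≤ He := by
    rw [hHn, hHe]
    exact inf_le_inf_left K hne
  have hmemm : ∀ x, x ∈ Hm ↔ x ∈ K ∧ x ∈ Dm := fun x => by
    rw [hHm]
    exact Iff.rfl
  have hmeme : ∀ x, x ∈ He ↔ x ∈ K ∧ x ∈ De := fun x => by
    rw [hHe]
    exact Iff.rfl
  have hmemn : ∀ x, x ∈ Hn ↔ x ∈ K ∧ x ∈ Dn := fun x => by
    rw [hHn]
    exact Iff.rfl
  have hHen : He.Normal := by
    rw [hHe]
    exact normal_inf_normal K De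
  set φ : Module.End (ZMod p) V := ρ γ - 1 with hφ
  have hQ0 : Q.index ≠ 0 := by
    rw [← relIndex_mul_index hQK]
    exact mul_ne_zero hQf hHm0
  have hrel : ∀ A B : Subgroup 𝔾, Q ≤ A → A.relIndex B ≠ 0 := by
    intro A B hA h
    have h1 : A.index ≠ 0 := by
      intro h2
      have h3 := index_dvd_of_le hA
      rw [h2] at h3
      exact hQ0 (Nat.eq_zero_of_zero_dvd h3)
    have h4 : A.relIndex ⊤ ≠ 0 := by rwa [relIndex_top_right]
    exact h4 (relIndex_eq_zero_of_le_right le_top h)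
  -- facts on `π`
  have hπ1 : ∀ (x y : Hm), π x = π y → (x : 𝔾) * (y : 𝔾)⁻¹ ∈ Q := by
    intro x y h
    have h1 : π (x * y⁻¹) + π y = π x := by
      rw [← ha, inv_mul_cancel_right]
    have h2 : π (x * y⁻¹) = 0 := by
      rw [h] at h1
      exact add_eq_right.1 h1
    exact (h0 _).1 h2
  have hπc : ∀ (g : 𝔾) (x : Hm) (h : ⁅g, (x : 𝔾)⁆ ∈ Hm), π ⟨⁅g, (x : 𝔾)⁆, h⟩ = ρ g (π x) - π x := by
    intro g x h
    have h1 : π ⟨⁅g, (x : 𝔾)⁆, h⟩ + π x = ρ g (π x) := by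
      rw [hρ, ← ha]
      congr 1
      apply Subtype.ext
      show ⁅g, (x : 𝔾)⁆ * (x : 𝔾) = g * x * g⁻¹
      rw [commutatorElement_def]
      group
    rw [← h1, add_sub_cancel_right]
  have hcHm : ∀ (g : 𝔾) (x : 𝔾), x ∈ Hm → ⁅g, x⁆ ∈ Hm := by
    intro g x hx
    rw [commutatorElement_def]
    exact Hm.mul_mem (hHmn.conj_mem x hx g) (Hm.inv_mem hx)
  have htriv : ∀ x ∈ Hm, ρ x = 1 := by
    intro x hx
    ext v
    obtain ⟨y, rfl⟩ := hs v
    have h1 := hπc x y (hcHm x y y.2)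
    have h2 : π ⟨⁅x, (y : 𝔾)⁆, hcHm x y y.2⟩ = 0 :=
      (h0 ⟨⁅x, (y : 𝔾)⁆, hcHm x y y.2⟩).2 (hg (Or.inl (Or.inr ⟨x, hx, y, y.2, rfl⟩)))
    rw [h2] at h1
    exact (sub_eq_zero.1 h1.symm)
  have hmod : ∀ x y : 𝔾, x * y⁻¹ ∈ Hm → ρ x = ρ y := by
    intro x y h
    have h1 : x = (x * y⁻¹) * y := by group
    rw [h1, map_mul, htriv _ h, one_mul]
  have hφa : φ ^ (p ^ a) = ρ (γ ^ p ^ a) - 1 := by
    rw [hφ, pow_frob, map_pow]
  have hφn : φ ^ (p ^ (a + b)) = ρ (γ ^ p ^ (a + b)) - 1 := by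
    rw [hφ, pow_frob, map_pow]
  -- the elements `γ ^ (p ^ a)`
  have hγa : γ ^ p ^ a ∈ He := by
    rw [hmeme]
    refine ⟨K.pow_mem hγK _, ?_⟩
    have h1 : (⟨γ, hγK⟩ : K) ^ (De.subgroupOf K).index ∈ De.subgroupOf K :=
      (De.subgroupOf K).pow_index_mem _
    have h2 : (De.subgroupOf K).index = p ^ a := hqe
    rw [h2] at h1
    exact h1
  have hγn : γ ^ p ^ (a + b) ∈ Hn := by
    rw [hmemn]
    refine ⟨K.pow_mem hγK _, ?_⟩
    have h1 : (⟨γ, hγK⟩ : K) ^ (Dn.subgroupOf K).index ∈ Dn.subgroupOf K :=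
      (Dn.subgroupOf K).pow_index_mem _
    have h2 : (Dn.subgroupOf K).index = p ^ (a + b) := hqn
    rw [h2] at h1
    exact h1
  -- the normal subgroup `N`
  obtain ⟨N, hNn, hgN, hQN, hNM⟩ : ∃ N : Subgroup 𝔾, N.Normal ∧ (∀ x ∈ gens p I He, x ∈ N) ∧ Q ≤ N ∧
      N ≤ M := by
    refine ⟨Subgroup.closure (gens p I He ∪ (Q : Set 𝔾)), ?_, fun x hx => subset_closure (Or.inl hx),
      fun x hx => subset_closure (Or.inr hx), ?_⟩
    · apply closure_normal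
      rintro g x (hx | hx)
      · exact Or.inl (gens_conj hI hHen g hx)
      · exact Or.inr (hQn.conj_mem x hx g)
    · rw [closure_le]
      exact Set.union_subset hM hQM
  obtain ⟨Y, hYmem⟩ : ∃ Y : Submodule (ZMod p) V, ∀ v, v ∈ Y ↔ ∃ x ∈ N, ∃ h : x ∈ Hm, π ⟨x, h⟩ = v := by
    let Yadd : AddSubgroup V :=
      { carrier := {v | ∃ x ∈ N, ∃ h : x ∈ Hm, π ⟨x, h⟩ = v}
        add_mem' := by
          rintro _ _ ⟨x, hx, hx', rfl⟩ ⟨y, hy, hy', rfl⟩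
          exact ⟨x * y, N.mul_mem hx hy, Hm.mul_mem hx' hy', ha ⟨x, hx'⟩ ⟨y, hy'⟩⟩
        zero_mem' := ⟨1, N.one_mem, Hm.one_mem, (h0 ⟨1, Hm.one_mem⟩).2 Q.one_mem⟩
        neg_mem' := by
          rintro _ ⟨x, hx, hx', rfl⟩
          refine ⟨x⁻¹, N.inv_mem hx, Hm.inv_mem hx', ?_⟩
          have h1 : π ((⟨x, hx'⟩ : Hm)⁻¹ * ⟨x, hx'⟩) = π (⟨x, hx'⟩ : Hm)⁻¹ + π ⟨x, hx'⟩ := ha _ _
          have h2 : π ((⟨x, hx'⟩ : Hm)⁻¹ * ⟨x, hx'⟩) = 0 := by
            rw [h0, inv_mul_cancel]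
            exact Q.one_mem
          rw [h2] at h1
          exact (neg_eq_of_add_eq_zero_left h1.symm).symm }
    refine ⟨AddSubgroup.toZModSubmodule p Yadd, fun v => ?_⟩
    rw [AddSubgroup.mem_toZModSubmodule]
    rfl
  have hYst : Stable ρ Y := by
    intro g v hv
    rw [hYmem] at hv ⊢
    obtain ⟨x, hx, hx', rfl⟩ := hv
    exact ⟨g * x * g⁻¹, hNn.conj_mem x hx g, hHmn.conj_mem x hx' g, (hρ g ⟨x, hx'⟩).symm⟩
  have hYr : LinearMap.range (φ ^ (p ^ a)) ≤ Y := by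
    rintro _ ⟨v, rfl⟩
    obtain ⟨x, rfl⟩ := hs v
    rw [hφa, hYmem]
    refine ⟨⁅γ ^ p ^ a, (x : 𝔾)⁆, hgN _ (Or.inl (Or.inr ⟨_, hγa, x, hnee (hmne x.2), rfl⟩)),
      hcHm _ _ x.2, ?_⟩
    rw [hπc]
    rfl
  -- the element `s`
  obtain ⟨s, hsI, hsHe, hsγ⟩ := hram w₀ hw₀ (γ ^ p ^ a) hγa
  have hsg : s ∈ gens p I He := Or.inr ⟨hsHe, w₀, hsI⟩
  -- quotients by `Hm`
  have hqm : ∀ x y : 𝔾, x * y⁻¹ ∈ Hm ↔ (x : 𝔾 ⧸ Hm) = (y : 𝔾 ⧸ Hm) := by
    intro x y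
    rw [← QuotientGroup.eq_one_iff, QuotientGroup.mk_mul, QuotientGroup.mk_inv, mul_inv_eq_one]
  have hsq := (hqm _ _).1 hsγ
  refine ⟨Y, hYst, hYr, ?_, ?_⟩
  · obtain ⟨Q', hQ', hidx⟩ := exists_pre π hs ha Y
    have h1 : ∀ f ∈ He, ∃ w ∈ Hm, ∃ m ∈ M, f = w * m := by
      intro f hf
      obtain ⟨hfK, hfD⟩ := (hmeme f).1 hf
      obtain ⟨j, hj⟩ := mod_gamma (hmn.trans hne) hγK hγ hfK hfD
      rw [hqe] at hj
      have h2 : f * (s ^ j)⁻¹ ∈ Hm := by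
        have h3 : f * ((γ ^ p ^ a) ^ j)⁻¹ ∈ Hm := by
          rw [hmemm]
          exact ⟨K.mul_mem hfK (K.inv_mem (K.zpow_mem ((hmeme _).1 hγa).1 j)), hj⟩
        rw [hqm] at h3 ⊢
        rw [h3, QuotientGroup.mk_zpow, QuotientGroup.mk_zpow, hsq]
      exact ⟨f * (s ^ j)⁻¹, h2, s ^ j, M.zpow_mem (hM hsg) j, by group⟩
    have h2 := relIndex_le_of_mul (hmne.trans hnee) (hrel M Hm hQM) h1
    refine h2.trans ?_
    rw [← hidx]
    refine relIndex_le_of_le_left ?_ (by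
      rw [hidx]
      exact pow_ne_zero _ hpf.out.ne_zero)
    intro x hx
    obtain ⟨hx', hxY⟩ := (hQ' x).1 hx
    obtain ⟨y, hy, hy', hxy⟩ := (hYmem _).1 hxY
    have h3 := hπ1 ⟨x, hx'⟩ ⟨y, hy'⟩ hxy.symm
    have h4 : x = (x * y⁻¹) * y := by group
    rw [h4]
    exact M.mul_mem (hQM h3) (hNM hy)
  · set kk := p ^ (a + b) - p ^ a with hkk
    set F := Y.map (φ ^ kk) with hF
    obtain ⟨P', hP', hidx⟩ := exists_pre π hs ha F
    have hP'K : P' ≤ Hm := fun x hx => ((hP' x).1 hx).1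
    have hQP : Q ≤ P' := by
      intro x hx
      refine (hP' x).2 ⟨hQK hx, ?_⟩
      rw [(h0 ⟨x, hQK hx⟩).2 hx]
      exact F.zero_mem
    have hple : p ^ a ≤ p ^ (a + b) := Nat.pow_le_pow_right hpf.out.pos (Nat.le_add_right a b)
    have hφc : ∀ g, ρ g * φ = φ * ρ g := by
      intro g
      have h1 : ρ (g * γ) = ρ (γ * g) := by
        apply hmod
        have h2 : g * γ * (γ * g)⁻¹ = ⁅g, γ⁆ := by
          rw [commutatorElement_def]
          group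
        rw [h2, hmemm]
        refine ⟨?_, hcm g γ⟩
        rw [commutatorElement_def]
        exact K.mul_mem (hKn.conj_mem γ hγK g) (K.inv_mem hγK)
      rw [map_mul, map_mul] at h1
      rw [hφ, mul_sub, sub_mul, h1, one_mul, mul_one]
    have hFst : Stable ρ F := by
      rintro g _ ⟨y, hy, rfl⟩
      have h1 : Commute (ρ g) (φ ^ kk) := Commute.pow_right (hφc g) kk
      refine ⟨ρ g y, hYst g y hy, ?_⟩
      have h2 := LinearMap.congr_fun h1.eq y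
      exact h2.symm
    have hP'n : P'.Normal := by
      refine ⟨fun x hx g => ?_⟩
      obtain ⟨hx', hxF⟩ := (hP' x).1 hx
      refine (hP' _).2 ⟨hHmn.conj_mem x hx' g, ?_⟩
      have h1 := hFst g _ hxF
      rwa [hρ] at h1
    -- `u`
    have huq : ((s ^ p ^ b : 𝔾) : 𝔾 ⧸ Hm) = ((γ ^ p ^ (a + b) : 𝔾) : 𝔾 ⧸ Hm) := by
      rw [QuotientGroup.mk_pow, ← hsq, ← QuotientGroup.mk_pow, ← pow_mul, ← pow_add]
    set u := s ^ p ^ b with hu
    have huγ : u * (γ ^ p ^ (a + b))⁻¹ ∈ Hm := (hqm _ _).2 huq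
    have huHn : u ∈ Hn := by
      have h1 : u = (u * (γ ^ p ^ (a + b))⁻¹) * γ ^ p ^ (a + b) := by group
      rw [h1]
      exact Hn.mul_mem (hmne huγ) hγn
    have huI : u ∈ I w₀ := (I w₀).pow_mem hsI _
    have hρu : ρ u = 1 + φ ^ (p ^ (a + b)) := by
      rw [hmod _ _ huγ, hφn, add_sub_cancel]
    -- decomposition of `Hn`
    have hdec : ∀ x ∈ Hn, ∃ h ∈ Hm, ∃ j : ℤ, x = h * u ^ j := by
      intro x hx
      obtain ⟨hxK, hxD⟩ := (hmemn x).1 hx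
      obtain ⟨j, hj⟩ := mod_gamma hmn hγK hγ hxK hxD
      rw [hqn] at hj
      have h3 : x * ((γ ^ p ^ (a + b)) ^ j)⁻¹ ∈ Hm := by
        rw [hmemm]
        exact ⟨K.mul_mem hxK (K.inv_mem (K.zpow_mem ((hmemn _).1 hγn).1 j)), hj⟩
      refine ⟨x * (u ^ j)⁻¹, ?_, j, by group⟩
      rw [hqm] at h3 ⊢
      rw [h3, QuotientGroup.mk_zpow, QuotientGroup.mk_zpow, huq]
    -- commutators
    have hC1 : ∀ x y : 𝔾, ⁅x, y⁆ ∈ P' ↔ Commute (x : 𝔾 ⧸ P') (y : 𝔾 ⧸ P') := by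
      intro x y
      rw [← QuotientGroup.eq_one_iff]
      show QuotientGroup.mk' P' ⁅x, y⁆ = 1 ↔ _
      rw [map_commutatorElement, commutatorElement_eq_one_iff_commute]
      rfl
    have hc1 : ∀ x ∈ Hm, ∀ y ∈ Hm, Commute (x : 𝔾 ⧸ P') (y : 𝔾 ⧸ P') := by
      intro x hx y hy
      rw [← hC1]
      exact hQP (hg (Or.inl (Or.inr ⟨x, hx, y, hy, rfl⟩)))
    have hc2 : ∀ x ∈ Hm, Commute (u : 𝔾 ⧸ P') (x : 𝔾 ⧸ P') := by
      intro x hx
      rw [← hC1]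
      refine (hP' _).2 ⟨hcHm u x hx, ?_⟩
      rw [hπc u ⟨x, hx⟩ (hcHm u x hx), hρu]
      refine ⟨(φ ^ (p ^ a)) (π ⟨x, hx⟩), hYr ⟨_, rfl⟩, ?_⟩
      have h1 : φ ^ (p ^ (a + b)) = φ ^ kk * φ ^ (p ^ a) := by
        rw [← pow_add, hkk, Nat.sub_add_cancel hple]
      rw [h1, LinearMap.add_apply, Module.End.one_apply, add_sub_cancel_left]
      rfl
    have hc3 : ∀ x ∈ Hn, ∀ y ∈ Hn, Commute (x : 𝔾 ⧸ P') (y : 𝔾 ⧸ P') := by
      intro x hx y hy
      obtain ⟨h, hh, i, rfl⟩ := hdec x hx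
      obtain ⟨h', hh', j, rfl⟩ := hdec y hy
      rw [QuotientGroup.mk_mul, QuotientGroup.mk_mul, QuotientGroup.mk_zpow, QuotientGroup.mk_zpow]
      refine Commute.mul_left (Commute.mul_right (hc1 h hh h' hh') ?_) (Commute.mul_right ?_ ?_)
      · exact ((hc2 h hh).symm).zpow_right j
      · exact (hc2 h' hh').zpow_left i
      · exact ((Commute.refl _).zpow_left i).zpow_right j
    -- the subgroup
    set W' : Subgroup 𝔾 := P' ⊔ Subgroup.zpowers u with hW'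
    have hPW : P' ≤ W' := le_sup_left
    have huW : u ∈ W' := (le_sup_right : Subgroup.zpowers u ≤ W') (Subgroup.mem_zpowers u)
    have hW'n : W' ≤ Hn := by
      rw [hW', sup_le_iff, Subgroup.zpowers_le]
      exact ⟨hP'K.trans hmne, huHn⟩
    have hgens : gens p I Hn ⊆ W' := by
      rintro x ((⟨y, hy, rfl⟩ | ⟨y, hy, z, hz, rfl⟩) | ⟨hx, w, hw⟩)
      · obtain ⟨h, hh, j, rfl⟩ := hdec y hy
        have h1 : ((h * u ^ j) ^ p) * (u ^ (j * p))⁻¹ ∈ P' := by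
          rw [← QuotientGroup.eq_one_iff, QuotientGroup.mk_mul, QuotientGroup.mk_inv,
            QuotientGroup.mk_pow, QuotientGroup.mk_mul, QuotientGroup.mk_zpow, QuotientGroup.mk_zpow,
            Commute.mul_pow (((hc2 h hh).symm).zpow_right j), ← QuotientGroup.mk_pow,
            (QuotientGroup.eq_one_iff _).2 (hQP (hg (Or.inl (Or.inl ⟨h, hh, rfl⟩)))), one_mul,
            zpow_mul, zpow_natCast, mul_inv_cancel]
        have h2 : (h * u ^ j) ^ p = (((h * u ^ j) ^ p) * (u ^ (j * p))⁻¹) * u ^ (j * p) := by group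
        rw [h2]
        exact W'.mul_mem (hPW h1) (W'.zpow_mem huW _)
      · exact hPW ((hC1 y z).2 (hc3 y hy z hz))
      · by_cases hPw : P w
        · obtain ⟨sw, hswI, hswHe, hswγ⟩ := hram w hPw (γ ^ p ^ a) hγa
          have hswg : sw ∈ gens p I He := Or.inr ⟨hswHe, w, hswI⟩
          have hswq := (hqm _ _).1 hswγ
          have haHm : sw * s⁻¹ ∈ Hm := by
            rw [hqm, ← hswq, hsq]
          have haN : sw * s⁻¹ ∈ N := N.mul_mem (hgN _ hswg) (N.inv_mem (hgN _ hsg))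
          have haY : π ⟨sw * s⁻¹, haHm⟩ ∈ Y := (hYmem _).2 ⟨_, haN, haHm, rfl⟩
          -- powers
          have hpw : ∀ n : ℕ, ∃ h : sw ^ n * (s ^ n)⁻¹ ∈ Hm, π ⟨_, h⟩ =
              (∑ i ∈ Finset.range n, (ρ s) ^ i : Module.End (ZMod p) V) (π ⟨sw * s⁻¹, haHm⟩) := by
            intro n
            induction n with
            | zero =>
              have h1 : sw ^ 0 * (s ^ 0)⁻¹ = 1 := by group
              refine ⟨by
                rw [h1]
                exact Hm.one_mem, ?_⟩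
              rw [Finset.range_zero, Finset.sum_empty, LinearMap.zero_apply, h0]
              show sw ^ 0 * (s ^ 0)⁻¹ ∈ Q
              rw [h1]
              exact Q.one_mem
            | succ n ih =>
              obtain ⟨h1, h2⟩ := ih
              have h3 : sw ^ (n + 1) * (s ^ (n + 1))⁻¹ =
                  (sw * s⁻¹) * (s * (sw ^ n * (s ^ n)⁻¹) * s⁻¹) := by
                rw [pow_succ' sw, pow_succ s]
                group
              have h4 : sw ^ (n + 1) * (s ^ (n + 1))⁻¹ ∈ Hm := by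
                rw [h3]
                exact Hm.mul_mem haHm (hHmn.conj_mem _ h1 s)
              refine ⟨h4, ?_⟩
              have h5 : (⟨_, h4⟩ : Hm) = ⟨sw * s⁻¹, haHm⟩ *
                  ⟨s * (sw ^ n * (s ^ n)⁻¹) * s⁻¹, hHmn.conj_mem _ h1 s⟩ := Subtype.ext h3
              rw [h5, ha, ← hρ s ⟨_, h1⟩, h2, Finset.sum_range_succ']
              rw [LinearMap.add_apply, pow_zero, Module.End.one_apply, add_comm]
              congr 1
              rw [LinearMap.sum_apply, LinearMap.sum_apply, map_sum]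
              refine Finset.sum_congr rfl fun i _ => ?_
              rw [pow_succ']
              rfl
          obtain ⟨hyHm, hyπ⟩ := hpw (p ^ b)
          have hyP : sw ^ p ^ b * u⁻¹ ∈ P' := by
            refine (hP' _).2 ⟨hyHm, ?_⟩
            have h1 : (∑ i ∈ Finset.range (p ^ b), (ρ s) ^ i : Module.End (ZMod p) V) = φ ^ kk := by
              rw [← pow_norm, ← hmod _ _ hsγ, ← hφa, ← pow_mul, hkk]
              congr 1
              rw [Nat.mul_sub, mul_one, ← pow_add]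
            rw [h1] at hyπ
            rw [hF]
            exact ⟨_, haY, hyπ.symm⟩
          have hswW : sw ^ p ^ b ∈ W' := by
            have h1 : sw ^ p ^ b = (sw ^ p ^ b * u⁻¹) * u := by group
            rw [h1]
            exact W'.mul_mem (hPW hyP) huW
          obtain ⟨h, hh, j, hxj⟩ := hdec x hx
          have h1 : x * ((sw ^ p ^ b) ^ j)⁻¹ ∈ Q := by
            refine hg (Or.inr ⟨?_, w, (I w).mul_mem hw ((I w).inv_mem
              ((I w).zpow_mem ((I w).pow_mem hswI _) j))⟩)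
            rw [hqm, hxj, QuotientGroup.mk_mul, (QuotientGroup.eq_one_iff h).2 hh, one_mul,
              QuotientGroup.mk_zpow, QuotientGroup.mk_zpow]
            congr 1
            exact ((hqm _ _).1 hyHm).symm
          have h2 : x = (x * ((sw ^ p ^ b) ^ j)⁻¹) * (sw ^ p ^ b) ^ j := by group
          rw [h2]
          exact W'.mul_mem (hPW (hQP h1)) (W'.zpow_mem hswW j)
        · refine hPW (hQP (hg (Or.inr ⟨?_, w, hw⟩)))
          rw [hmemm]
          exact ⟨((hmemn x).1 hx).1, hP w hPw hw⟩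
    have hQW : Q ≤ W' := hQP.trans hPW
    have h1 := hC W' hW'n (Subgroup.isOpen_mono hQW hQo) (hrel W' Hn hQW) hgens
    rw [← hidx]
    refine le_trans ?_ h1
    refine le_trans ?_ (relIndex_le_of_le_right hmne (hrel W' Hn hQW))
    rw [← inf_relIndex_right W' Hm]
    refine relIndex_le_of_le_left ?_ ?_
    · rintro x ⟨hxW, hxm⟩
      have hxW' : x ∈ P' ⊔ Subgroup.zpowers u := hxW
      rw [← SetLike.mem_coe, Subgroup.normal_mul] at hxW'
      obtain ⟨y, hy, z, ⟨j, rfl⟩, hyz⟩ := hxW'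
      have h2 : u ^ j ∈ Q := by
        refine hg (Or.inr ⟨?_, w₀, (I w₀).zpow_mem huI j⟩)
        have h3 : u ^ j = y⁻¹ * x := by
          rw [← hyz]
          group
        rw [h3]
        exact Hm.mul_mem (Hm.inv_mem (hP'K hy)) hxm
      rw [← hyz]
      exact P'.mul_mem hy (hQP h2)
    · rw [inf_relIndex_right]
      exact hrel W' Hm hQW

end Run7.h947.IW
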