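import Pool.Agent.Run7.h947.IW.GapE
import Pool.Agent.Run7.h947.IW.Ray

/-!
# The gap theorem for number fields
-/

set_option autoImplicit false

namespace Run7.h947.IW

open IntermediateField Module Pool.Agent.Q60.MU Pool.Agent.W5h77.MB Pool.Agent.W5h33.DF NumberField
open scoped Pointwise commutatorElement

section dual
variable {k : Type} [Field k] {G : Type} [Group G] {S : Type} [AddCommGroup S] [Module k S]
  [Module.Finite k S] (τ : Representation k G S)

omit [Module.Finite k S] in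
theorem dual_apply (g : G) (f : Module.Dual k S) (v : S) : τ.dual g f v = f (τ g⁻¹ v) := rfl

theorem dual_simple (h : IsSimple τ) : IsSimple τ.dual := by
  have hnt := h.1
  refine ⟨inferInstance, fun P hP => ?_⟩
  have h1 : Stable τ P.dualCoannihilator := by
    intro g v hv
    rw [Submodule.mem_dualCoannihilator] at hv ⊢
    intro f hf
    have h2 := hv _ (hP g⁻¹ f hf)
    rwa [dual_apply, inv_inv] at h2
  have h2 := Subspace.finrank_add_finrank_dualCoannihilator_eq P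
  rcases h.2 _ h1 with h3 | h3
  · right
    rw [h3, finrank_bot, add_zero] at h2
    apply Submodule.eq_top_of_finrank_eq
    rw [h2, Subspace.dual_finrank_eq]
  · left
    rw [h3, finrank_top] at h2
    apply Submodule.finrank_eq_zero.1
    omega

/-- An invariant linear form gives coinvariants. -/
theorem coinv_of_dual {H : Subgroup G} {f : Module.Dual k S} (hf : f ≠ 0)
    (h : ∀ g ∈ H, τ.dual g f = f) : coinv τ H ≠ ⊤ := by
  intro htop
  apply hf
  have h1 : coinv τ H ≤ LinearMap.ker f := by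
    rw [coinv, Submodule.span_le]
    rintro _ ⟨g, hg, v, rfl⟩
    have h2 := LinearMap.congr_fun (h g⁻¹ (H.inv_mem hg)) v
    rw [dual_apply, inv_inv] at h2
    rw [SetLike.mem_coe, LinearMap.mem_ker, map_sub, h2, sub_self]
  rw [htop, top_le_iff, LinearMap.ker_eq_top] at h1
  exact h1

end dual

/-- Each simple representation of `Gal(K/ℚ)` over `𝔽_p` of dimension less than `d` has a nonzero vector
fixed by `Gal(K/E)` for some `E` in `𝓔`. -/
def DetectsBelow (p d : ℕ) [Fact p.Prime] (K : IntermediateField ℚ Qb)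
    (𝓔 : Set (IntermediateField ℚ Qb)) : Prop :=
  ∀ (S : Type) [AddCommGroup S] [Module (ZMod p) S] [Module.Finite (ZMod p) S]
    (τ : Representation (ZMod p) Gal(Qb/ℚ) S), (∀ g ∈ K.fixingSubgroup, ∀ x, τ g x = x) →
    IsSimple τ → finrank (ZMod p) S < d →
    ∃ E ∈ 𝓔, ∃ v : S, v ≠ 0 ∧ ∀ g ∈ E.fixingSubgroup, τ g v = v

/-- Every automorphism over `E` of each layer above `E` of the cyclotomic `ℤ_p`-extension is induced by an
element of the group `I A`, for the primes `A` above `p`. -/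
def TotallyI (p : ℕ) (I : ValuationSubring Qb → Subgroup Gal(Qb/ℚ)) (E : IntermediateField ℚ Qb) : Prop :=
  ∀ (m : ℕ) (R : IntermediateField ℚ Qb), IsLayer p m R → ∀ A : ValuationSubring Qb,
    (p : Qb) ∈ A.nonunits → ∀ σ ∈ E.fixingSubgroup, ∃ τ ∈ I A, τ ∈ E.fixingSubgroup ∧
      ∀ x ∈ E ⊔ R, τ x = σ x

theorem exists_val {p : ℕ} (hp : p.Prime) : ∃ A : ValuationSubring Qb, (p : Qb) ∈ A.nonunits := by
  set J : Ideal (⊥ : Subring Qb) := Ideal.span {(p : (⊥ : Subring Qb))} with hJ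
  have hne : J ≠ ⊤ := by
    rw [hJ, Ne, Ideal.span_singleton_eq_top]
    intro hu
    obtain ⟨u, hu⟩ := isUnit_iff_exists_inv.1 hu
    obtain ⟨n, hn⟩ := Subring.mem_bot.1 u.2
    have h1 := congrArg (Subtype.val) hu
    have h2 : (p : Qb) * (n : Qb) = 1 := by
      rw [hn]
      simpa using h1
    have h3 : (p : ℤ) * n = 1 := by exact_mod_cast h2
    have h4 : (p : ℤ) ∣ 1 := ⟨n, h3.symm⟩
    have h5 : p ∣ 1 := by exact_mod_cast h4
    exact hp.one_lt.ne' (Nat.dvd_one.1 h5)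
  obtain ⟨B, hB, hJ'⟩ := Ideal.image_subset_nonunits_valuationSubring J hne
  refine ⟨B, hJ' ⟨(p : (⊥ : Subring Qb)), Ideal.mem_span_singleton_self _, by simp⟩⟩

variable {p : ℕ} {I : ValuationSubring Qb → Subgroup Gal(Qb/ℚ)}

theorem muI_of_above [hp : Fact p.Prime] {K : IntermediateField ℚ Qb} [FiniteDimensional ℚ K] {m : ℕ}
    {R : IntermediateField ℚ Qb} (hR : IsLayer p m R)
    (h : ∃ C : ℕ, ∀ (m' : ℕ) (R' : IntermediateField ℚ Qb), IsLayer p m' R' → R ≤ R' →
      RankLe p I (K.fixingSubgroup ⊓ R'.fixingSubgroup) C) : MuI p I K := by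
  obtain ⟨C, hC⟩ := h
  have hfR := layer_fd hp.out hR
  refine ⟨C * R.fixingSubgroup.index, fun m' R' hR' => ?_⟩
  have hfR' := layer_fd hp.out hR'
  obtain ⟨m'', hR''⟩ := layer_sup hR hR'
  have h0 := hC m'' _ hR'' le_sup_left
  have hRn := layer_normal hp.out hR
  rw [← rankLe_iffI]
  rw [fixingSubgroup_sup] at h0
  rw [fixingSubgroup_sup]
  have h1 : (K.fixingSubgroup ⊓ (R.fixingSubgroup ⊓ R'.fixingSubgroup)).relIndex
      (K.fixingSubgroup ⊓ R'.fixingSubgroup) =
      R.fixingSubgroup.relIndex (K.fixingSubgroup ⊓ R'.fixingSubgroup) := by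
    rw [← Subgroup.inf_relIndex_right, ← Subgroup.inf_relIndex_right R.fixingSubgroup]
    congr 1
    ext x
    simp only [Subgroup.mem_inf]
    tauto
  have h2 : R.fixingSubgroup.relIndex (K.fixingSubgroup ⊓ R'.fixingSubgroup) ∣
      R.fixingSubgroup.index := Subgroup.relIndex_dvd_index_of_normal _ _
  have h3 : (K.fixingSubgroup ⊓ (R.fixingSubgroup ⊓ R'.fixingSubgroup)).relIndex
      (K.fixingSubgroup ⊓ R'.fixingSubgroup) ≠ 0 := by
    rw [h1]
    intro h
    rw [h] at h2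
    exact index_ne_zero' R (Nat.eq_zero_of_zero_dvd h2)
  refine (RankLe.of_le (inf_le_inf_left _ inf_le_right) (by
    rw [Subgroup.coe_inf, Subgroup.coe_inf]
    exact K.fixingSubgroup_isOpen.inter (R.fixingSubgroup_isOpen.inter R'.fixingSubgroup_isOpen))
    h3 h0).mono ?_
  rw [h1]
  exact Nat.mul_le_mul_left _ (Nat.le_of_dvd (Nat.pos_of_ne_zero (index_ne_zero' R)) h2)

theorem relIndex_pow_of_layer [hp : Fact p.Prime] (K : IntermediateField ℚ Qb) {m : ℕ}
    {R : IntermediateField ℚ Qb} (hR : IsLayer p m R) :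
    ∃ a ≤ m, R.fixingSubgroup.relIndex K.fixingSubgroup = p ^ a := by
  have hfR := layer_fd hp.out hR
  have hRn := layer_normal hp.out hR
  have h1 : R.fixingSubgroup.index = p ^ m := by
    rw [← hR.1, finrank_eq_fixingSubgroup_index Qb R]
  exact (Nat.dvd_prime_pow hp.out).1 (h1 ▸ Subgroup.relIndex_dvd_index_of_normal _ _)

/-- **The gap theorem.** -/
theorem gap [hp : Fact p.Prime] (hp2 : p ≠ 2)
    (hI : ∀ (g : Gal(Qb/ℚ)) (A : ValuationSubring Qb), ∀ σ ∈ I A, g * σ * g⁻¹ ∈ I (g • A))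
    (hI2 : ∀ A, I A ≤ inertia A ∨ (p : Qb) ∈ A.nonunits)
    (K : IntermediateField ℚ Qb) [FiniteDimensional ℚ K] [hKg : IsGalois ℚ K]
    (𝓔 : Set (IntermediateField ℚ Qb)) (h𝓔 : ∀ E ∈ 𝓔, E ≤ K) {d : ℕ} (hdet : DetectsBelow p d K 𝓔)
    {e n : ℕ} {R R' : IntermediateField ℚ Qb} (hR : IsLayer p e R) (hR' : IsLayer p n R')
    (hRR : R ≤ R') (htot : TotallyI p I (K ⊔ R)) {C E : ℕ} (hC : DegLeI p I (K ⊔ R') C)
    (hE : ¬ DegLeI p I (K ⊔ R) E)
    (hCE : C < p ^ (d * (finrank ℚ ↥(K ⊔ R') / finrank ℚ K - finrank ℚ ↥(K ⊔ R) / finrank ℚ K)) * (E + 1)) :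
    MuI p I K ↔ ∀ E ∈ 𝓔, MuI p I E := by
  classical
  refine ⟨fun h E hE => downI hp.out K E (h𝓔 E hE) h, fun hmu => ?_⟩
  have hfR := layer_fd hp.out hR
  have hfR' := layer_fd hp.out hR'
  have hKn : K.fixingSubgroup.Normal := (InfiniteGalois.normal_iff_isGalois K).2 hKg
  have hKo := K.fixingSubgroup_isOpen
  have hK0 := index_ne_zero' K
  have hidxK : finrank ℚ K = K.fixingSubgroup.index := finrank_eq_fixingSubgroup_index Qb K
  have hq : ∀ (m : ℕ) (R : IntermediateField ℚ Qb), IsLayer p m R →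
      finrank ℚ ↥(K ⊔ R) / finrank ℚ K = R.fixingSubgroup.relIndex K.fixingSubgroup := by
    intro m R hR
    have hfR := layer_fd hp.out hR
    have hKRidx : finrank ℚ ↥(K ⊔ R) = (K ⊔ R).fixingSubgroup.index :=
      finrank_eq_fixingSubgroup_index Qb (K ⊔ R)
    have h3 := Subgroup.relIndex_mul_index
      (inf_le_left : K.fixingSubgroup ⊓ R.fixingSubgroup ≤ K.fixingSubgroup)
    rw [Subgroup.inf_relIndex_left] at h3
    rw [hKRidx, hidxK, fixingSubgroup_sup, ← h3]
    exact Nat.mul_div_cancel _ (Nat.pos_of_ne_zero hK0)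
  rw [hq e R hR, hq n R' hR'] at hCE
  rw [← rankLe_iffI, fixingSubgroup_sup] at hC hE
  obtain ⟨a, -, ha⟩ := relIndex_pow_of_layer K hR
  obtain ⟨b', -, hb'⟩ := relIndex_pow_of_layer K hR'
  have hRR' : R'.fixingSubgroup ≤ R.fixingSubgroup := fixingSubgroup_le hRR
  have hle : a ≤ b' := by
    have h1 : R.fixingSubgroup.relIndex K.fixingSubgroup ≤ R'.fixingSubgroup.relIndex K.fixingSubgroup :=
      Subgroup.relIndex_le_of_le_left hRR' (by
        rw [hb']
        exact pow_ne_zero _ hp.out.ne_zero)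
    rw [ha, hb'] at h1
    exact (Nat.pow_le_pow_iff_right hp.out.one_lt).1 h1
  obtain ⟨b, rfl⟩ := Nat.exists_eq_add_of_le hle
  have hb : b ≠ 0 := by
    rintro rfl
    apply hE
    rw [ha, hb', add_zero, Nat.sub_self, mul_zero, pow_zero, one_mul] at hCE
    have h1 : K.fixingSubgroup ⊓ R'.fixingSubgroup = K.fixingSubgroup ⊓ R.fixingSubgroup := by
      apply le_antisymm (inf_le_inf_left _ hRR')
      have h2 : (K.fixingSubgroup ⊓ R'.fixingSubgroup).relIndex (K.fixingSubgroup ⊓ R.fixingSubgroup) *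
          (K.fixingSubgroup ⊓ R.fixingSubgroup).relIndex K.fixingSubgroup =
          (K.fixingSubgroup ⊓ R'.fixingSubgroup).relIndex K.fixingSubgroup :=
        Subgroup.relIndex_mul_relIndex _ _ _ (inf_le_inf_left _ hRR') inf_le_left
      rw [Subgroup.inf_relIndex_left, Subgroup.inf_relIndex_left, ha, hb', add_zero] at h2
      rw [← Subgroup.relIndex_eq_one]
      exact Nat.eq_of_mul_eq_mul_right (pow_pos hp.out.pos a) (h2.trans (one_mul _).symm)
    rw [h1] at hC
    exact hC.mono (by omega)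
  rw [ha, hb'] at hCE
  -- the finite set of subgroups with bounded ranks
  obtain ⟨Rs, hRs, hRs2⟩ := exists_seq (p := p) hp.out
  have hfin : {L : Subgroup Gal(Qb/ℚ) | K.fixingSubgroup ≤ L ∧
      Mu0 p I (fun n => (Rs n).fixingSubgroup) L}.Finite :=
    (finite_ge hKn hK0).subset fun L hL => hL.1
  set 𝓛 := hfin.toFinset with h𝓛
  have hmem : ∀ L, L ∈ 𝓛 ↔ K.fixingSubgroup ≤ L ∧ Mu0 p I (fun n => (Rs n).fixingSubgroup) L := fun L => by
    rw [h𝓛, Set.Finite.mem_toFinset]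
    rfl
  obtain ⟨B, hB⟩ : ∃ B, ∀ L ∈ 𝓛, ∀ m, RankLe p I (L ⊓ (Rs m).fixingSubgroup) B := by
    choose! c hc using fun L (hL : L ∈ 𝓛) => ((hmem L).1 hL).2
    exact ⟨𝓛.sup c, fun L hL m => (hc L hL m).mono (Finset.le_sup hL)⟩
  have hRsn : ∀ n, (Rs n).fixingSubgroup.Normal := fun n => by
    obtain ⟨m, hm⟩ := hRs n
    exact layer_normal hp.out hm
  have hLc : ∀ L ∈ 𝓛, ∀ g : Gal(Qb/ℚ), L.map (MulAut.conj g).toMonoidHom ∈ 𝓛 := by
    intro L hL g
    rw [hmem] at hL ⊢
    refine ⟨fun x hx => ?_, hL.2.conj hI hRsn g⟩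
    refine ⟨g⁻¹ * x * g⁻¹⁻¹, hL.1 (hKn.conj_mem x hx g⁻¹), ?_⟩
    show g * (g⁻¹ * x * g⁻¹⁻¹) * g⁻¹ = x
    group
  obtain ⟨t, ht⟩ := ram_layers hp.out hI2 K
  obtain ⟨w₀, hw₀⟩ := exists_val hp.out
  refine muI_of_above hR' ⟨C ^ (p ^ (a + b) - p ^ a - 1 + p ^ a) *
      ((cst K.fixingSubgroup.index (K.fixingSubgroup.index * t) * B + 1) ^ 𝓛.card) ^
        K.fixingSubgroup.index, fun m S hS hRS => ?_⟩
  have hfS := layer_fd hp.out hS
  obtain ⟨i, hi⟩ := hRs2 m S hS
  have hSn := layer_normal hp.out hS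
  obtain ⟨c, -, hc⟩ := relIndex_pow_of_layer K hS
  obtain ⟨T, hTt, hT⟩ := ht m S hS
  have hS0 : S.fixingSubgroup.index ≠ 0 := index_ne_zero' S
  have hrel : (K.fixingSubgroup ⊓ S.fixingSubgroup).relIndex S.fixingSubgroup ≤ K.fixingSubgroup.index := by
    rw [Subgroup.inf_relIndex_right]
    exact Nat.le_of_dvd (Nat.pos_of_ne_zero hK0) (Subgroup.relIndex_dvd_index_of_normal _ _)
  have hmain := gap_layer (p := p) (I := I) hI (K := K.fixingSubgroup) (De := R.fixingSubgroup)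
    (Dn := R'.fixingSubgroup) (Dm := S.fixingSubgroup) hKn (layer_normal hp.out hR)
    (layer_normal hp.out hR') hSn (fixingSubgroup_le hRS) hRR' hK0 hS0 (layer_cyclic hp.out hp2 hS)
    hb ha hb' hc (fun A => (p : Qb) ∈ A.nonunits) (fun A hA => by
      rcases hI2 A with h | h
      · exact h.trans (inertia_le_layer hp.out hS hA)
      · exact absurd h hA) w₀ hw₀ (by
      intro A hA σ hσ
      rw [← fixingSubgroup_sup] at hσ
      obtain ⟨τ, hτ, hτ2, hτ3⟩ := htot m S hS A hA σ hσ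
      rw [← fixingSubgroup_sup]
      refine ⟨τ, hτ, hτ2, ?_⟩
      rw [← fixingSubgroup_sup, IntermediateField.mem_fixingSubgroup_iff]
      intro x hx
      have hnS : IsGalois ℚ S := (InfiniteGalois.normal_iff_isGalois S).1 hSn
      have hKSn : (K ⊔ S).fixingSubgroup.Normal := by
        rw [fixingSubgroup_sup]
        exact Subgroup.normal_inf_normal _ _
      have hx' : τ⁻¹ x ∈ K ⊔ S := by
        have h1 : ∀ g ∈ (K ⊔ S).fixingSubgroup, g (τ⁻¹ x) = τ⁻¹ x := by
          intro g hg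
          have h2 := hKSn.conj_mem g hg τ
          have h3 := (IntermediateField.mem_fixingSubgroup_iff _ _).1 h2 x hx
          have h4 : g (τ⁻¹ x) = τ⁻¹ ((τ * g * τ⁻¹) x) := by
            show (g * τ⁻¹) x = (τ⁻¹ * (τ * g * τ⁻¹)) x
            congr 1
            group
          rw [h4, h3]
        rw [← InfiniteGalois.fixedField_fixingSubgroup (K ⊔ S), mem_fixedField_iff]
        exact h1
      have h5 := hτ3 (τ⁻¹ x) (by
        have h6 : K ⊔ S ≤ (K ⊔ R) ⊔ S := sup_le (le_sup_left.trans le_sup_left) le_sup_right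
        exact h6 hx')
      show σ (τ⁻¹ x) = x
      rw [← h5]
      show (τ * τ⁻¹) x = x
      rw [mul_inv_cancel]
      rfl) hC hE hCE (𝓛.image fun L => L ⊓ S.fixingSubgroup) (by
      intro L hL
      obtain ⟨L', hL', rfl⟩ := Finset.mem_image.1 hL
      exact ⟨inf_le_inf_right _ ((hmem L').1 hL').1, inf_le_right⟩) (by
      intro L hL g
      obtain ⟨L', hL', rfl⟩ := Finset.mem_image.1 hL
      refine Finset.mem_image.2 ⟨_, hLc L' hL' g, ?_⟩
      ext x
      constructor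
      · rintro ⟨⟨y, hy, rfl⟩, hyD⟩
        refine ⟨y, ⟨hy, ?_⟩, rfl⟩
        have h3 := hSn.conj_mem _ hyD g⁻¹
        have h4 : g⁻¹ * ((MulAut.conj g).toMonoidHom y) * g⁻¹⁻¹ = y := by
          show g⁻¹ * (g * y * g⁻¹) * g⁻¹⁻¹ = y
          group
        rwa [h4] at h3
      · rintro ⟨y, ⟨hy, hyD⟩, rfl⟩
        exact ⟨⟨y, hy, rfl⟩, hSn.conj_mem y hyD g⟩) (by
      intro Q _ _ _ τ hτ hs hdim
      obtain ⟨E, hE, f, hf, hfix⟩ := hdet (Module.Dual (ZMod p) Q) τ.dual (by
        intro g hg f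
        apply LinearMap.ext
        intro v
        rw [dual_apply, hτ _ (K.fixingSubgroup.inv_mem hg)]) (dual_simple τ hs) (by
        rwa [Subspace.dual_finrank_eq])
      refine ⟨E.fixingSubgroup, Finset.mem_image.2 ⟨_, (hmem _).2 ⟨fixingSubgroup_le (h𝓔 E hE), ?_⟩, rfl⟩,
        coinv_of_dual τ hf hfix⟩
      have hfE : FiniteDimensional ℚ E := fd_of_le (h𝓔 E hE)
      exact (muI_iff hp.out hRs hRs2 E).2 (hmu E hE)) hrel T hTt
    (fun w => (hT w).imp (fun h => le_inf h inf_le_right) id) (B := B) (by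
      intro L hL
      obtain ⟨L', hL', rfl⟩ := Finset.mem_image.1 hL
      have := hB L' hL' i
      rwa [hi] at this)
  refine hmain.mono (Nat.mul_le_mul_left _ ?_)
  refine (Nat.pow_le_pow_left (?_ : _ ≤ _) _).trans (Nat.pow_le_pow_right ?_ hrel)
  · refine (Nat.pow_le_pow_left (Nat.le_succ _) _).trans (Nat.pow_le_pow_right (Nat.succ_pos _) ?_)
    exact Finset.card_image_le
  · exact Nat.pow_pos (Nat.succ_pos _)

end Run7.h947.IW
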