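import Pool.Agent.Run7.h947.IW.GapE

/-!
# The core of the gap theorems
-/

set_option autoImplicit false

namespace Run7.h947.IW

open Subgroup Module Pool.Agent.Q60.MU
open Pool.Agent.W5h33.DF (mod_gamma exists_gamma comm_mem_of)
open scoped commutatorElement

variable {𝔾 : Type} [Group 𝔾] {p : ℕ} [hpf : Fact p.Prime] {Ω : Type} [MulAction 𝔾 Ω]
    {I : Ω → Subgroup 𝔾}

/-- The modules of the layer: the quotient by the kernel of a fixed power of `γ - 1` has small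
coinvariants, and the kernel is bounded. -/
def LayerCond [TopologicalSpace 𝔾] (p : ℕ) [Fact p.Prime] {Ω : Type} (I : Ω → Subgroup 𝔾)
    (K Dm Hm : Subgroup 𝔾) (d N₀ C₀ : ℕ) : Prop :=
  ∀ (hn : Hm.Normal) (γ : 𝔾), γ ∈ K → (∀ τ ∈ K, ∃ i : ℤ, τ * (γ ^ i)⁻¹ ∈ Dm) →
    ∀ W ≤ Hm, IsOpen (W : Set 𝔾) → W.relIndex Hm ≠ 0 → gens p I Hm ⊆ W →
    ∃ Q ≤ W, Q.Normal ∧ IsOpen (Q : Set 𝔾) ∧ Q.relIndex Hm ≠ 0 ∧ gens p I Hm ⊆ Q ∧
      ∀ (V : Type) [AddCommGroup V] [Module (ZMod p) V] [Module.Finite (ZMod p) V]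
        (ρ : Representation (ZMod p) 𝔾 V) (π : Hm → V), Function.Surjective π →
        (∀ x y, π (x * y) = π x + π y) → (∀ x, π x = 0 ↔ (x : 𝔾) ∈ Q) →
        (∀ (d : 𝔾) (x : Hm), ρ d (π x) = π ⟨d * x * d⁻¹, hn.conj_mem x x.2 d⟩) →
        finrank (ZMod p) (V ⧸ (LinearMap.ker ((ρ γ - 1) ^ N₀) ⊔ LinearMap.range (ρ γ - 1))) < d ∧
          p ^ finrank (ZMod p) (LinearMap.ker ((ρ γ - 1) ^ N₀)) ≤ C₀

/-- The bound for one layer. -/
theorem core_layer [TopologicalSpace 𝔾] [ContinuousMul 𝔾]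
    (hI : ∀ (g : 𝔾) (w : Ω), ∀ x ∈ I w, g * x * g⁻¹ ∈ I (g • w))
    {K Dm : Subgroup 𝔾} (hKn : K.Normal) (hDmn : Dm.Normal)
    (hK0 : K.index ≠ 0) (hDm0 : Dm.index ≠ 0)
    (hσ : ∃ σ : 𝔾, ∀ τ, ∃ i : ℤ, τ * (σ ^ i)⁻¹ ∈ Dm)
    {c : ℕ} (hqm : Dm.relIndex K = p ^ c) {d N₀ C₀ : ℕ}
    (hcond : LayerCond p I K Dm (K ⊓ Dm) d N₀ C₀)
    (𝓗 : Finset (Subgroup 𝔾)) (hH : ∀ L ∈ 𝓗, K ⊓ Dm ≤ L ∧ L ≤ Dm)
    (hHc : ∀ L ∈ 𝓗, ∀ g : 𝔾, L.map (MulAut.conj g).toMonoidHom ∈ 𝓗)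
    (hdet : ∀ (S : Type) [AddCommGroup S] [Module (ZMod p) S] [Module.Finite (ZMod p) S]
      (τ : Representation (ZMod p) 𝔾 S), (∀ g ∈ K, ∀ x, τ g x = x) → IsSimple τ →
      finrank (ZMod p) S < d → ∃ L, L ⊓ Dm ∈ 𝓗 ∧ coinv τ L ≠ ⊤)
    {n t : ℕ} (hn : (K ⊓ Dm).relIndex Dm ≤ n) (T : Finset Ω) (hTt : T.card ≤ t)
    (hT : ∀ w, I w ⊓ Dm ≤ K ⊓ Dm ∨ ∃ u ∈ T, ∃ d ∈ Dm, w = d • u)
    {B : ℕ} (hB : ∀ L ∈ 𝓗, RankLe p I L B) :
    RankLe p I (K ⊓ Dm) (C₀ * ((cst n (n * t) * B) ^ 𝓗.card) ^ ((K ⊓ Dm).relIndex Dm)) := by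
  classical
  have hp := hpf.out
  obtain ⟨Hm, hHm⟩ : ∃ Hm, Hm = K ⊓ Dm := ⟨_, rfl⟩
  have hHmn : Hm.Normal := by
    rw [hHm]
    exact normal_inf_normal K Dm
  have hHm0 : Hm.index ≠ 0 := by
    rw [hHm]
    exact index_inf_ne_zero hK0 hDm0
  have hHD : Hm ≤ Dm := by
    rw [hHm]
    exact inf_le_right
  rw [← hHm] at hn hT hH hcond ⊢
  obtain ⟨γ, hγK, hγ⟩ := exists_gamma (K := K) hσ
  have hcm := comm_mem_of hσ
  intro W hWH hWo hWf hgW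
  obtain ⟨Q, hQW, hQn, hQo, hQf, hg, hV⟩ := hcond hHmn γ hγK hγ W hWH hWo hWf hgW
  have hQK : Q ≤ Hm := hQW.trans hWH
  refine (relIndex_le_of_le_left hQW hQf).trans ?_
  obtain ⟨V, i1, i2, i3, ρ, π, hs, ha, h0, hρ⟩ := exists_repG (p := p) (I := I) hHmn hQf hg hQn
  obtain ⟨hsmall, hker⟩ := hV V ρ π hs ha h0 hρ
  have htriv : ∀ g ∈ Hm, ∀ x, ρ g x = x := by
    intro g hgH x
    obtain ⟨y, rfl⟩ := hs x
    rw [hρ]
    have h1 : (⟨g * y * g⁻¹, hHmn.conj_mem y y.2 g⟩ : Hm) =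
        ⟨⁅g, (y : 𝔾)⁆, hQK (hg (Or.inl (Or.inr ⟨g, hgH, y, y.2, rfl⟩)))⟩ * y := by
      apply Subtype.ext
      show g * y * g⁻¹ = ⁅g, (y : 𝔾)⁆ * y
      rw [commutatorElement_def]
      group
    rw [h1, ha, (h0 _).2 (hg (Or.inl (Or.inr ⟨g, hgH, y, y.2, rfl⟩))), zero_add]
  set φ : Module.End (ZMod p) V := ρ γ - 1 with hφ
  -- commutation
  have hφc : ∀ g, ρ g * φ = φ * ρ g := by
    intro g
    have h1 : ρ (g * γ) = ρ (γ * g) := by
      have h2 : g * γ = ⁅g, γ⁆ * (γ * g) := by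
        rw [commutatorElement_def]
        group
      have h3 : ⁅g, γ⁆ ∈ Hm := by
        rw [hHm]
        refine ⟨?_, hcm g γ⟩
        rw [commutatorElement_def]
        exact K.mul_mem (hKn.conj_mem γ hγK g) (K.inv_mem hγK)
      rw [h2, map_mul]
      ext x
      exact htriv _ h3 _
    rw [map_mul, map_mul] at h1
    rw [hφ, mul_sub, sub_mul, h1, one_mul, mul_one]
  have hφN : φ ^ (p ^ c) = 0 := by
    rw [hφ, pow_frob, ← map_pow]
    have h1 : γ ^ p ^ c ∈ Hm := by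
      rw [hHm]
      refine ⟨K.pow_mem hγK _, ?_⟩
      have h1 : (⟨γ, hγK⟩ : K) ^ (Dm.subgroupOf K).index ∈ Dm.subgroupOf K :=
        (Dm.subgroupOf K).pow_index_mem _
      have h2 : (Dm.subgroupOf K).index = p ^ c := hqm
      rw [h2] at h1
      exact h1
    rw [sub_eq_zero]
    ext x
    exact htriv _ h1 x
  have hZst : Stable ρ (LinearMap.ker (φ ^ N₀)) := by
    intro g x hx
    rw [LinearMap.mem_ker] at hx ⊢
    have h1 : Commute (ρ g) (φ ^ N₀) := Commute.pow_right (hφc g) N₀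
    have h2 := LinearMap.congr_fun h1.eq x
    have h3 : (φ ^ N₀) (ρ g x) = ρ g ((φ ^ N₀) x) := h2.symm
    rw [h3, hx, map_zero]
  have hHmD : Hm.relIndex Dm ≠ 0 := by
    intro h
    have h1 := relIndex_mul_index hHD
    rw [h, zero_mul] at h1
    exact hHm0 h1.symm
  have hbound := finrank_bound (ρ := ρ) (D := Dm) hDmn (𝓗 := 𝓗) (fun L hL => (hH L hL).2) hHc hZst ?_
    (K₀ := Hm) hHmD htriv
  · -- the dimension
    have hWidx : Q.relIndex Hm = p ^ finrank (ZMod p) V := by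
      obtain ⟨Q', hQ', hidx'⟩ := exists_pre π hs ha (⊥ : Submodule (ZMod p) V)
      have h1 : Q' = Q := by
        ext x
        rw [hQ']
        constructor
        · rintro ⟨h, h'⟩
          exact (h0 ⟨x, h⟩).1 ((Submodule.mem_bot _).1 h')
        · intro hx
          exact ⟨hQK hx, (Submodule.mem_bot _).2 ((h0 ⟨x, hQK hx⟩).2 hx)⟩
      rw [h1] at hidx'
      have h2 := (⊥ : Submodule (ZMod p) V).finrank_quotient_add_finrank
      rw [finrank_bot, add_zero] at h2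
      rw [hidx', h2]
    have hL : ∀ L ∈ 𝓗, p ^ finrank (ZMod p) (V ⧸ coinv ρ L) ≤ cst n (n * t) * B := by
      intro L hLH
      obtain ⟨hKL, hLD⟩ := hH L hLH
      have hmul : Hm.relIndex L * L.relIndex Dm = Hm.relIndex Dm := relIndex_mul_relIndex Hm L Dm hKL hLD
      have hKL0 : Hm.relIndex L ≠ 0 := fun h => hHmD (by rw [← hmul, h, zero_mul])
      have hLD0 : L.relIndex Dm ≠ 0 := fun h => hHmD (by rw [← hmul, h, mul_zero])
      have hKLn : Hm.relIndex L ≤ n := by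
        refine le_trans ?_ hn
        rw [← hmul]
        exact Nat.le_mul_of_pos_right _ (Nat.pos_of_ne_zero hLD0)
      have hLDn : L.relIndex Dm ≤ n := by
        refine le_trans ?_ hn
        rw [← hmul]
        exact Nat.le_mul_of_pos_left _ (Nat.pos_of_ne_zero hKL0)
      obtain ⟨T', hT'c, hT'⟩ := exists_TL hLD0 T
      exact coinv_bound hI hHmn hQK hQo hg ρ π hs ha h0 hρ hKL hKL0 hKLn T'
        (hT'c.trans (Nat.mul_le_mul hLDn hTt)) (by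
          intro w
          rcases hT w with h | ⟨u, hu, d, hd, rfl⟩
          · exact Or.inl ((inf_le_inf_left _ hLD).trans h)
          · exact Or.inr (hT' u hu d hd)) (hB L hLH)
    rw [hWidx]
    calc p ^ finrank (ZMod p) V
        ≤ p ^ (finrank (ZMod p) (LinearMap.ker (φ ^ N₀)) +
          Hm.relIndex Dm * ∑ L ∈ 𝓗, finrank (ZMod p) (V ⧸ coinv ρ L)) :=
          Nat.pow_le_pow_right hp.pos hbound
      _ = p ^ finrank (ZMod p) (LinearMap.ker (φ ^ N₀)) *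
          (∏ L ∈ 𝓗, p ^ finrank (ZMod p) (V ⧸ coinv ρ L)) ^ Hm.relIndex Dm := by
          rw [pow_add, Finset.prod_pow_eq_pow_sum, ← pow_mul,
            mul_comm (Hm.relIndex Dm)]
      _ ≤ C₀ * ((cst n (n * t) * B) ^ 𝓗.card) ^ Hm.relIndex Dm :=
          Nat.mul_le_mul hker
            (Nat.pow_le_pow_left (Finset.prod_le_pow_card _ _ _ hL) _)
  · -- detection
    intro U hZU hU hUt hmax
    have hUφ : ∀ x ∈ U, φ x ∈ U := fun x hx => U.sub_mem (hU γ x hx) hx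
    have hr := range_le_max hφc hφN hU hUφ hUt hmax
    have hsim := simple_of_max ρ hU hUt hmax
    have hdim : finrank (ZMod p) (V ⧸ U) < d := by
      refine lt_of_le_of_lt ?_ hsmall
      have h1 := U.finrank_quotient_add_finrank
      have h2 := (LinearMap.ker (φ ^ N₀) ⊔ LinearMap.range φ).finrank_quotient_add_finrank
      have h3 := Submodule.finrank_mono (sup_le hZU hr)
      omega
    have hKtriv : ∀ g ∈ K, ∀ x, quo ρ hU g x = x := by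
      have hγker : γ ∈ (quo ρ hU).ker := by
        rw [MonoidHom.mem_ker]
        apply LinearMap.ext
        intro x
        obtain ⟨y, rfl⟩ := Submodule.mkQ_surjective U x
        rw [quo_mk, Module.End.one_apply, ← sub_eq_zero, ← map_sub, Submodule.mkQ_apply,
          Submodule.Quotient.mk_eq_zero]
        exact hr ⟨y, rfl⟩
      have hmker : ∀ g ∈ Hm, g ∈ (quo ρ hU).ker := by
        intro g hgH
        rw [MonoidHom.mem_ker]
        apply LinearMap.ext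
        intro x
        obtain ⟨y, rfl⟩ := Submodule.mkQ_surjective U x
        rw [quo_mk, htriv g hgH]
        rfl
      intro g hgK x
      obtain ⟨i, hi⟩ := hγ g hgK
      have h1 : g * (γ ^ i)⁻¹ ∈ Hm := by
        rw [hHm]
        exact ⟨K.mul_mem hgK (K.inv_mem (K.zpow_mem hγK i)), hi⟩
      have h2 : g ∈ (quo ρ hU).ker := by
        have h3 : g = (g * (γ ^ i)⁻¹) * γ ^ i := by group
        rw [h3]
        exact Subgroup.mul_mem _ (hmker _ h1) (Subgroup.zpow_mem _ hγker i)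
      rw [MonoidHom.mem_ker.1 h2]
      rfl
    obtain ⟨L, hL, hne⟩ := hdet (V ⧸ U) (quo ρ hU) hKtriv hsim hdim
    refine ⟨L ⊓ Dm, hL, fun htop => hne ?_⟩
    rw [eq_top_iff]
    have h1 : (⊤ : Submodule (ZMod p) (V ⧸ U)) = (U ⊔ coinv ρ (L ⊓ Dm)).map U.mkQ := by
      rw [htop, Submodule.map_top, Submodule.range_mkQ]
    rw [h1, Submodule.map_sup, Submodule.mkQ_map_self, bot_sup_eq, coinv, Submodule.map_span,
      Submodule.span_le]
    rintro _ ⟨_, ⟨h, hh, v, rfl⟩, rfl⟩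
    rw [map_sub, ← quo_mk ρ hU]
    exact Submodule.subset_span ⟨h, hh.1, U.mkQ v, rfl⟩

/-- The condition from the growth of the ranks, if the groups `I w` generate the layers. -/
theorem cond_of_growth [TopologicalSpace 𝔾] [ContinuousMul 𝔾]
    (hI : ∀ (g : 𝔾) (w : Ω), ∀ x ∈ I w, g * x * g⁻¹ ∈ I (g • w))
    {K De Dn Dm : Subgroup 𝔾} (hKn : K.Normal) (hDen : De.Normal) (hDnn : Dn.Normal)
    (hmn : Dm ≤ Dn) (hne : Dn ≤ De) (hK0 : K.index ≠ 0) (hDm0 : Dm.index ≠ 0)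
    (hcm : ∀ x y : 𝔾, ⁅x, y⁆ ∈ Dm)
    {a b : ℕ} (hb : b ≠ 0) (hqe : De.relIndex K = p ^ a) (hqn : Dn.relIndex K = p ^ (a + b))
    (P : Ω → Prop) (hP : ∀ w, ¬ P w → I w ≤ Dm) (w₀ : Ω) (hw₀ : P w₀)
    (hram : ∀ w, P w → ∀ σ ∈ K ⊓ De, ∃ τ ∈ I w, τ ∈ K ⊓ De ∧ σ * τ⁻¹ ∈ K ⊓ Dm)
    {C E d : ℕ} (hC : RankLe p I (K ⊓ Dn) C) (hE : ¬ RankLe p I (K ⊓ De) E)
    (hCE : C < p ^ (d * (p ^ (a + b) - p ^ a)) * (E + 1)) :
    LayerCond p I K Dm (K ⊓ Dm) d (p ^ (a + b) - p ^ a - 1 + p ^ a)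
      (C ^ (p ^ (a + b) - p ^ a - 1 + p ^ a)) := by
  classical
  have hp := hpf.out
  obtain ⟨Hm, hHm⟩ : ∃ Hm, Hm = K ⊓ Dm := ⟨_, rfl⟩
  have hHm0 : Hm.index ≠ 0 := by
    rw [hHm]
    exact index_inf_ne_zero hK0 hDm0
  have hHe : Hm ≤ K ⊓ De := by
    rw [hHm]
    exact inf_le_inf_left K (hmn.trans hne)
  rw [← hHm] at hram ⊢
  intro hHmn γ hγK hγ W hWH hWo hWf hgW
  -- the subgroup `M`
  obtain ⟨M, hM1, hM2, hM3, hM4, hM5⟩ : ∃ M : Subgroup 𝔾, M ≤ K ⊓ De ∧ IsOpen (M : Set 𝔾) ∧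
      M.relIndex (K ⊓ De) ≠ 0 ∧ gens p I (K ⊓ De) ⊆ M ∧ E < M.relIndex (K ⊓ De) := by
    by_contra hcon
    apply hE
    intro M h1 h2 h3 h4
    by_contra h5
    exact hcon ⟨M, h1, h2, h3, h4, not_le.1 h5⟩
  have hMf : M.relIndex Hm ≠ 0 := fun h => hM3 (by
    have h1 := relIndex_eq_zero_of_le_right hHe h
    exact h1)
  have hWM : (W ⊓ M).relIndex Hm ≠ 0 := relIndex_inf_ne_zero hWf hMf
  obtain ⟨Q, hQY, hQo, hQf, hg, hQn'⟩ := exists_core hI (K := Hm) (D := ⊤)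
    (fun d _ x hx => hHmn.conj_mem x hx d) (by rwa [relIndex_top_right]) (inf_le_left.trans hWH)
    (by
      rw [coe_inf]
      exact hWo.inter hM2) hWM
    (fun x hx => ⟨hgW hx, hM4 (gens_mono hHe hx)⟩)
  have hQn : Q.Normal := ⟨fun x hx g => hQn' g trivial x hx⟩
  have hQK : Q ≤ Hm := hQY.trans (inf_le_left.trans hWH)
  have hQW : Q ≤ W := hQY.trans inf_le_left
  refine ⟨Q, hQW, hQn, hQo, hQf, hg, fun V i1 i2 i3 ρ π hs ha h0 hρ => ?_⟩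
  obtain ⟨Y, hYst, hYr, hYM, hYC⟩ := layer_struct hI hHm rfl rfl hKn hDen hDnn hmn hne hHm0 hγK hγ hcm
    hqe hqn P hP w₀ hw₀ hram hQK hQo hQf hQn hg hHmn ρ π hs ha h0 hρ hM4 (hQY.trans inf_le_right) hC
  set φ : Module.End (ZMod p) V := ρ γ - 1 with hφ
  set kk := p ^ (a + b) - p ^ a with hkk
  set F := Y.map (φ ^ kk) with hF
  have hYφ : ∀ y ∈ Y, φ y ∈ Y := fun y hy => Y.sub_mem (hYst γ y hy) hy
  have hplt : p ^ a < p ^ (a + b) := Nat.pow_lt_pow_right hp.one_lt (by omega)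
  have hkk1 : 1 ≤ kk := by omega
  have hqF := F.finrank_quotient_add_finrank
  have hqY := Y.finrank_quotient_add_finrank
  have hlt : finrank (ZMod p) (V ⧸ F) < d * kk + finrank (ZMod p) (V ⧸ Y) := by
    by_contra hge
    push Not at hge
    have h1 : p ^ (d * kk + finrank (ZMod p) (V ⧸ Y)) ≤ p ^ finrank (ZMod p) (V ⧸ F) :=
      Nat.pow_le_pow_right hp.pos hge
    rw [pow_add] at h1
    have h2 : p ^ (d * kk) * (E + 1) ≤ C :=
      (Nat.mul_le_mul_left _ (hM5.trans_le hYM)).trans (h1.trans hYC)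
    omega
  obtain ⟨hsmall, hker⟩ := growth_all φ Y hYφ (d := d) (c := finrank (ZMod p) (V ⧸ F)) hkk1 hYr
    (by
      rw [← hF]
      omega) (by
      rw [← hF]
      omega)
  refine ⟨hsmall, ?_⟩
  calc p ^ finrank (ZMod p) (LinearMap.ker (φ ^ (kk - 1 + p ^ a)))
      ≤ p ^ ((kk - 1 + p ^ a) * finrank (ZMod p) (V ⧸ F)) := Nat.pow_le_pow_right hp.pos hker
    _ = (p ^ finrank (ZMod p) (V ⧸ F)) ^ (kk - 1 + p ^ a) := by rw [← pow_mul, mul_comm]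
    _ ≤ C ^ (kk - 1 + p ^ a) := Nat.pow_le_pow_left hYC _

end Run7.h947.IW
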