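import Pool.Agent.Run7.h947.IW.GapP
import Pool.Agent.Run7.h947.IW.GapF

/-!
# The gap theorems for Galois extensions of a number field
-/

set_option autoImplicit false

namespace Run7.h947.IW

open IntermediateField Module Pool.Agent.Q60.MU Pool.Agent.W5h77.MB Pool.Agent.W5h33.DF NumberField
open scoped Pointwise commutatorElement

/-- Ranks in an open subgroup. -/
theorem rankLe_subgroupOf {𝔾 : Type} [Group 𝔾] [TopologicalSpace 𝔾] {p : ℕ} {Ω : Type}
    {I : Ω → Subgroup 𝔾} {G₀ H : Subgroup 𝔾} (hG₀ : IsOpen (G₀ : Set 𝔾)) (hH : H ≤ G₀) {C : ℕ} :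
    RankLe p (fun w => (I w).subgroupOf G₀) (H.subgroupOf G₀) C ↔ RankLe p I H C := by
  have hg : ∀ x : G₀, x ∈ gens p (fun w => (I w).subgroupOf G₀) (H.subgroupOf G₀) ↔
      (x : 𝔾) ∈ gens p I H := by
    intro x
    constructor
    · rintro ((⟨a, ha, rfl⟩ | ⟨a, ha, b, hb, rfl⟩) | ⟨hx, w, hw⟩)
      · exact Or.inl (Or.inl ⟨a, ha, rfl⟩)
      · exact Or.inl (Or.inr ⟨a, ha, b, hb, rfl⟩)
      · exact Or.inr ⟨hx, w, hw⟩
    · rintro ((⟨a, ha, hxa⟩ | ⟨a, ha, b, hb, hxa⟩) | ⟨hx, w, hw⟩)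
      · exact Or.inl (Or.inl ⟨⟨a, hH ha⟩, ha, Subtype.ext hxa⟩)
      · exact Or.inl (Or.inr ⟨⟨a, hH ha⟩, ha, ⟨b, hH hb⟩, hb, Subtype.ext hxa⟩)
      · exact Or.inr ⟨hx, w, hw⟩
  constructor
  · intro h W hWH hWo hWf hgW
    have h1 := h (W.subgroupOf G₀) (fun x hx => hWH hx) (hWo.preimage continuous_subtype_val)
      (by rwa [Subgroup.relIndex_subgroupOf hH]) (fun x hx => hgW ((hg x).1 hx))
    rwa [Subgroup.relIndex_subgroupOf hH] at h1
  · intro h W hWH hWo hWf hgW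
    have hsub : (W.map G₀.subtype).subgroupOf G₀ = W :=
      Subgroup.comap_map_eq_self_of_injective G₀.subtype_injective W
    have hrel : (W.map G₀.subtype).relIndex H = W.relIndex (H.subgroupOf G₀) := by
      rw [← Subgroup.relIndex_subgroupOf hH, hsub]
    rw [← hrel] at hWf ⊢
    refine h _ ?_ ?_ hWf ?_
    · rintro _ ⟨x, hx, rfl⟩
      exact hWH hx
    · rw [Subgroup.coe_map]
      exact hG₀.isOpenMap_subtype_val _ hWo
    · intro x hx
      have hxH : x ∈ H := gens_subset hx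
      exact ⟨⟨x, hH hxH⟩, hgW ((hg ⟨x, hH hxH⟩).2 hx), rfl⟩

/-- Each simple representation of the group `G` over `𝔽_p` of dimension less than `d` on which `N` acts
trivially has a nonzero vector fixed by a subgroup in the set `𝓗`. -/
def DetectsGroup (p d : ℕ) [Fact p.Prime] (G : Type) [Group G] (N : Subgroup G)
    (𝓗 : Set (Subgroup G)) : Prop :=
  ∀ (S : Type) [AddCommGroup S] [Module (ZMod p) S] [Module.Finite (ZMod p) S]
    (τ : Representation (ZMod p) G S), (∀ g ∈ N, ∀ x, τ g x = x) → IsSimple τ →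
    finrank (ZMod p) S < d → ∃ H ∈ 𝓗, ∃ v : S, v ≠ 0 ∧ ∀ g ∈ H, τ g v = v

/-- The subgroup of `Gal(Qb/k)` which fixes `E`. -/
noncomputable def fixOver (k E : IntermediateField ℚ Qb) : Subgroup k.fixingSubgroup :=
  E.fixingSubgroup.subgroupOf k.fixingSubgroup

/-- Each simple representation of `Gal(K/k)` over `𝔽_p` of dimension less than `d` has a nonzero vector
fixed by `Gal(K/E)` for some `E` in `𝓔`. -/
def DetectsOver (p d : ℕ) [Fact p.Prime] (k K : IntermediateField ℚ Qb)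
    (𝓔 : Set (IntermediateField ℚ Qb)) : Prop :=
  DetectsGroup p d k.fixingSubgroup (fixOver k K) (fixOver k '' 𝓔)

variable {p : ℕ} {I : ValuationSubring Qb → Subgroup Gal(Qb/ℚ)}

/-- Subfields. -/
theorem muI_down [hp : Fact p.Prime] {F K : IntermediateField ℚ Qb} [FiniteDimensional ℚ K]
    (hFK : F ≤ K) (h : MuI p I K) : MuI p I F := by
  obtain ⟨C, hC⟩ := h
  refine ⟨C * K.fixingSubgroup.index, fun m R hR => ?_⟩
  have hfR := layer_fd hp.out hR
  have hfF : FiniteDimensional ℚ F := fd_of_le hFK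
  have h0 := hC m R hR
  rw [← rankLe_iffI] at h0 ⊢
  rw [fixingSubgroup_sup] at h0 ⊢
  have hK0 := index_ne_zero' K
  have hle : K.fixingSubgroup ≤ F.fixingSubgroup := fixingSubgroup_le hFK
  have h1 : (K.fixingSubgroup ⊓ R.fixingSubgroup).relIndex (F.fixingSubgroup ⊓ R.fixingSubgroup) =
      K.fixingSubgroup.relIndex (F.fixingSubgroup ⊓ R.fixingSubgroup) := by
    rw [← Subgroup.inf_relIndex_right, ← Subgroup.inf_relIndex_right K.fixingSubgroup]
    congr 1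
    ext x
    simp only [Subgroup.mem_inf]
    tauto
  have htop : K.fixingSubgroup.relIndex ⊤ ≠ 0 := by rwa [Subgroup.relIndex_top_right]
  have h2 : K.fixingSubgroup.relIndex (F.fixingSubgroup ⊓ R.fixingSubgroup) ≤
      K.fixingSubgroup.index := by
    rw [← Subgroup.relIndex_top_right K.fixingSubgroup]
    exact Subgroup.relIndex_le_of_le_right le_top htop
  have h3 : K.fixingSubgroup.relIndex (F.fixingSubgroup ⊓ R.fixingSubgroup) ≠ 0 := fun h =>
    htop (Subgroup.relIndex_eq_zero_of_le_right le_top h)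
  refine (RankLe.of_le (inf_le_inf_right _ hle) (by
    rw [Subgroup.coe_inf]
    exact K.fixingSubgroup_isOpen.inter R.fixingSubgroup_isOpen) (by rwa [h1]) h0).mono ?_
  rw [h1]
  exact Nat.mul_le_mul_left _ h2

section ov
variable {k K : IntermediateField ℚ Qb} [FiniteDimensional ℚ K]

/-- The master theorem. -/
theorem gapk_core [hp : Fact p.Prime] (hp2 : p ≠ 2)
    (hI : ∀ (g : Gal(Qb/ℚ)) (A : ValuationSubring Qb), ∀ σ ∈ I A, g * σ * g⁻¹ ∈ I (g • A))
    (hI2 : ∀ A, I A ≤ inertia A ∨ (p : Qb) ∈ A.nonunits) (hkK : k ≤ K)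
    (hKn : (K.fixingSubgroup.subgroupOf k.fixingSubgroup).Normal)
    (𝓔 : Set (IntermediateField ℚ Qb)) (h𝓔 : ∀ E ∈ 𝓔, k ≤ E ∧ E ≤ K) {d : ℕ}
    (hdet : DetectsOver p d k K 𝓔) {n : ℕ} {R' : IntermediateField ℚ Qb} (hR' : IsLayer p n R')
    {N₀ C₀ : ℕ} (hcond : ∀ (m : ℕ) (S : IntermediateField ℚ Qb), IsLayer p m S → R' ≤ S →
      LayerCond p (fun w => (I w).subgroupOf k.fixingSubgroup)
        (K.fixingSubgroup.subgroupOf k.fixingSubgroup) (S.fixingSubgroup.subgroupOf k.fixingSubgroup)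
        (K.fixingSubgroup.subgroupOf k.fixingSubgroup ⊓ S.fixingSubgroup.subgroupOf k.fixingSubgroup)
        d N₀ C₀) (hmu : ∀ E ∈ 𝓔, MuI p I E) : MuI p I K := by
  classical
  have hfk : FiniteDimensional ℚ k := fd_of_le hkK
  set G₀ := k.fixingSubgroup with hG₀
  have hG₀o : IsOpen (G₀ : Set Gal(Qb/ℚ)) := k.fixingSubgroup_isOpen
  have hKG : K.fixingSubgroup ≤ G₀ := fixingSubgroup_le hkK
  have hK0 := index_ne_zero' K
  have hk0 := index_ne_zero' k
  set K' : Subgroup G₀ := K.fixingSubgroup.subgroupOf G₀ with hK'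
  set Ik : ValuationSubring Qb → Subgroup G₀ := fun w => (I w).subgroupOf G₀ with hIk
  have hIk' : ∀ (g : G₀) (w : ValuationSubring Qb), ∀ x ∈ Ik w, g * x * g⁻¹ ∈ Ik (g • w) := by
    intro g w x hx
    exact hI g w x hx
  have hK'0 : K'.index ≠ 0 := by
    intro h
    have h1 := Subgroup.relIndex_mul_index hKG
    have h2 : K.fixingSubgroup.relIndex G₀ = 0 := h
    rw [h2, zero_mul] at h1
    exact hK0 h1.symm
  have hsn : ∀ {m : ℕ} {S : IntermediateField ℚ Qb}, IsLayer p m S →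
      (S.fixingSubgroup.subgroupOf G₀).Normal := fun {m S} hS => by
    have := layer_normal hp.out hS
    infer_instance
  -- the finite set of subgroups with bounded ranks
  obtain ⟨Rs, hRs, hRs2⟩ := exists_seq (p := p) hp.out
  have hfin : {L : Subgroup G₀ | K' ≤ L ∧
      Mu0 p Ik (fun n => (Rs n).fixingSubgroup.subgroupOf G₀) L}.Finite :=
    (finite_ge hKn hK'0).subset fun L hL => hL.1
  set 𝓛 := hfin.toFinset with h𝓛
  have hmem : ∀ L, L ∈ 𝓛 ↔ K' ≤ L ∧ Mu0 p Ik (fun n => (Rs n).fixingSubgroup.subgroupOf G₀) L :=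
    fun L => by
      rw [h𝓛, Set.Finite.mem_toFinset]
      rfl
  obtain ⟨B, hB⟩ : ∃ B, ∀ L ∈ 𝓛, ∀ m, RankLe p Ik (L ⊓ (Rs m).fixingSubgroup.subgroupOf G₀) B := by
    choose! c hc using fun L (hL : L ∈ 𝓛) => ((hmem L).1 hL).2
    exact ⟨𝓛.sup c, fun L hL m => (hc L hL m).mono (Finset.le_sup hL)⟩
  have hRsn : ∀ n, ((Rs n).fixingSubgroup.subgroupOf G₀).Normal := fun n => by
    obtain ⟨m, hm⟩ := hRs n
    exact hsn hm
  have hLc : ∀ L ∈ 𝓛, ∀ g : G₀, L.map (MulAut.conj g).toMonoidHom ∈ 𝓛 := by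
    intro L hL g
    rw [hmem] at hL ⊢
    refine ⟨fun x hx => ?_, hL.2.conj hIk' hRsn g⟩
    refine ⟨g⁻¹ * x * g⁻¹⁻¹, hL.1 (hKn.conj_mem x hx g⁻¹), ?_⟩
    show g * (g⁻¹ * x * g⁻¹⁻¹) * g⁻¹ = x
    group
  obtain ⟨t, ht⟩ := ram_layers hp.out hI2 K
  refine muI_of_above hR' ⟨C₀ * ((cst K'.index (K'.index * (G₀.index * t)) * B + 1) ^ 𝓛.card) ^
        K'.index, fun m S hS hRS => ?_⟩
  have hfS := layer_fd hp.out hS
  obtain ⟨i, hi⟩ := hRs2 m S hS
  have hSn := layer_normal hp.out hS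
  obtain ⟨c, -, hc⟩ := relIndex_pow_of_layer K hS
  obtain ⟨T, hTt, hT⟩ := ht m S hS
  set S' : Subgroup G₀ := S.fixingSubgroup.subgroupOf G₀ with hS'
  have hS'n : S'.Normal := hsn hS
  have htopS : S.fixingSubgroup.relIndex ⊤ ≠ 0 := by
    rw [Subgroup.relIndex_top_right]
    exact index_ne_zero' S
  have htopk : G₀.relIndex ⊤ ≠ 0 := by rwa [Subgroup.relIndex_top_right]
  have hS'0 : S'.index ≠ 0 := fun h => htopS (Subgroup.relIndex_eq_zero_of_le_right le_top h)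
  have hrel : (K' ⊓ S').relIndex S' ≤ K'.index := by
    rw [Subgroup.inf_relIndex_right]
    exact Nat.le_of_dvd (Nat.pos_of_ne_zero hK'0) (Subgroup.relIndex_dvd_index_of_normal _ _)
  have hσ : ∃ σ : G₀, ∀ τ : G₀, ∃ i : ℤ, τ * (σ ^ i)⁻¹ ∈ S' := by
    obtain ⟨γ, hγ, hγ2⟩ := exists_gamma (K := G₀) (layer_cyclic hp.out hp2 hS)
    refine ⟨⟨γ, hγ⟩, fun τ => ?_⟩
    obtain ⟨i, hi⟩ := hγ2 τ τ.2
    refine ⟨i, ?_⟩
    rw [hS', Subgroup.mem_subgroupOf]
    simpa using hi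
  -- the primes
  have hLD0 : (S.fixingSubgroup ⊓ G₀).relIndex S.fixingSubgroup ≠ 0 := by
    rw [Subgroup.inf_relIndex_left]
    exact fun h => htopk (Subgroup.relIndex_eq_zero_of_le_right le_top h)
  obtain ⟨T', hT'c, hT'⟩ := exists_TL hLD0 T
  have hT'c2 : T'.card ≤ G₀.index * t := by
    refine hT'c.trans (Nat.mul_le_mul ?_ hTt)
    rw [Subgroup.inf_relIndex_left, ← Subgroup.relIndex_top_right G₀]
    exact Subgroup.relIndex_le_of_le_right le_top htopk
  have hTk : ∀ w, Ik w ⊓ S' ≤ K' ⊓ S' ∨ ∃ u ∈ T', ∃ d ∈ S', w = d • u := by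
    intro w
    rcases hT w with h | ⟨u, hu, d, hd, rfl⟩
    · left
      rintro x ⟨hx1, hx2⟩
      exact ⟨h ⟨hx1, hx2⟩, hx2⟩
    · right
      obtain ⟨u', hu', l, hl, hlu⟩ := hT' u hu d hd
      exact ⟨u', hu', ⟨l, hl.2⟩, hl.1, hlu⟩
  have hmain := core_layer (p := p) (I := Ik) hIk' (K := K') (Dm := S') hKn hS'n hK'0 hS'0 hσ
    (c := c) (by rw [hS', hK', Subgroup.relIndex_subgroupOf hKG, hc]) (hcond m S hS hRS)
    (𝓛.image fun L => L ⊓ S') (by
      intro L hL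
      obtain ⟨L', hL', rfl⟩ := Finset.mem_image.1 hL
      exact ⟨inf_le_inf_right _ ((hmem L').1 hL').1, inf_le_right⟩) (by
      intro L hL g
      obtain ⟨L', hL', rfl⟩ := Finset.mem_image.1 hL
      refine Finset.mem_image.2 ⟨_, hLc L' hL' g, ?_⟩
      ext x
      constructor
      · rintro ⟨⟨y, hy, rfl⟩, hyD⟩
        refine ⟨y, ⟨hy, ?_⟩, rfl⟩
        have h3 := hS'n.conj_mem _ hyD g⁻¹
        have h4 : g⁻¹ * ((MulAut.conj g).toMonoidHom y) * g⁻¹⁻¹ = y := by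
          show g⁻¹ * (g * y * g⁻¹) * g⁻¹⁻¹ = y
          group
        rwa [h4] at h3
      · rintro ⟨y, ⟨hy, hyD⟩, rfl⟩
        exact ⟨⟨y, hy, rfl⟩, hS'n.conj_mem y hyD g⟩) (by
      intro Q _ _ _ τ hτ hs hdim
      obtain ⟨_, ⟨E, hE, rfl⟩, f, hf, hfix⟩ := hdet (Module.Dual (ZMod p) Q) τ.dual (by
        intro g hg f
        apply LinearMap.ext
        intro v
        rw [dual_apply, hτ _ (K'.inv_mem hg)]) (dual_simple τ hs) (by
        rwa [Subspace.dual_finrank_eq])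
      have hEG : E.fixingSubgroup ≤ G₀ := fixingSubgroup_le (h𝓔 E hE).1
      refine ⟨E.fixingSubgroup.subgroupOf G₀, Finset.mem_image.2 ⟨_, (hmem _).2
        ⟨fun x hx => fixingSubgroup_le (h𝓔 E hE).2 hx, ?_⟩, rfl⟩,
        coinv_of_dual τ hf hfix⟩
      have hfE : FiniteDimensional ℚ E := fd_of_le (h𝓔 E hE).2
      obtain ⟨C, hC⟩ := (muI_iff hp.out hRs hRs2 E).2 (hmu E hE)
      refine ⟨C, fun m => ?_⟩
      exact (rankLe_subgroupOf (H := E.fixingSubgroup ⊓ (Rs m).fixingSubgroup) hG₀o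
        (inf_le_left.trans hEG)).2 (hC m)) hrel T' hT'c2 hTk (B := B) (by
      intro L hL
      obtain ⟨L', hL', rfl⟩ := Finset.mem_image.1 hL
      have := hB L' hL' i
      rwa [hi] at this)
  have hmain2 : RankLe p I (K.fixingSubgroup ⊓ S.fixingSubgroup) _ :=
    (rankLe_subgroupOf (H := K.fixingSubgroup ⊓ S.fixingSubgroup) hG₀o (inf_le_left.trans hKG)).1 hmain
  refine hmain2.mono (Nat.mul_le_mul_left _ ?_)
  refine (Nat.pow_le_pow_left (?_ : _ ≤ _) _).trans (Nat.pow_le_pow_right ?_ hrel)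
  · refine (Nat.pow_le_pow_left (Nat.le_succ _) _).trans (Nat.pow_le_pow_right (Nat.succ_pos _) ?_)
    exact Finset.card_image_le
  · exact Nat.pow_pos (Nat.succ_pos _)

end ov

end Run7.h947.IW
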