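import Pool.Agent.Run7.h947.IW.GapG

/-!
# The condition for the extensions unramified outside `p`
-/

set_option autoImplicit false

namespace Run7.h947.IW

open Subgroup Module Pool.Agent.Q60.MU
open Pool.Agent.W5h33.DF (mod_gamma exists_gamma comm_mem_of)
open scoped commutatorElement

/-- The maximal elementary abelian quotient of an abelian group is at least as large as an elementary
abelian subgroup. -/
theorem elem_bound {𝔾 : Type} [Group 𝔾] {p : ℕ} {P' Hm Hn : Subgroup 𝔾} (hPm : P' ≤ Hm)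
    (hmn : Hm ≤ Hn) (hPn : P'.Normal) (hf : P'.relIndex Hn ≠ 0)
    (hcomm : ∀ x ∈ Hn, ∀ y ∈ Hn, ⁅x, y⁆ ∈ P') (hpow : ∀ x ∈ Hm, x ^ p ∈ P') :
    ∃ W' : Subgroup 𝔾, P' ≤ W' ∧ W' ≤ Hn ∧ (∀ x ∈ Hn, x ^ p ∈ W') ∧
      P'.relIndex Hm ≤ W'.relIndex Hn := by
  classical
  have hN : (P'.subgroupOf Hn).Normal := inferInstance
  have hfi : (P'.subgroupOf Hn).FiniteIndex := ⟨hf⟩
  have hfin : Finite (Hn ⧸ P'.subgroupOf Hn) := inferInstance
  let q : Hn →* Hn ⧸ P'.subgroupOf Hn := QuotientGroup.mk' (P'.subgroupOf Hn)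
  have hq : ∀ x : Hn, q x = 1 ↔ (x : 𝔾) ∈ P' := by
    intro x
    show (x : Hn ⧸ P'.subgroupOf Hn) = 1 ↔ _
    rw [QuotientGroup.eq_one_iff, mem_subgroupOf]
  have hqs : Function.Surjective q := QuotientGroup.mk'_surjective _
  let cg : CommGroup (Hn ⧸ P'.subgroupOf Hn) :=
    { (inferInstance : Group (Hn ⧸ P'.subgroupOf Hn)) with
      mul_comm := by
        intro a b
        obtain ⟨x, rfl⟩ := hqs a
        obtain ⟨y, rfl⟩ := hqs b
        have h1 : q ⁅x, y⁆ = 1 := by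
          rw [hq]
          exact hcomm x x.2 y y.2
        rw [map_commutatorElement, commutatorElement_eq_one_iff_mul_comm] at h1
        exact h1 }
  let f : (Hn ⧸ P'.subgroupOf Hn) →* (Hn ⧸ P'.subgroupOf Hn) := powMonoidHom p
  have hfa : ∀ x, f x = x ^ p := fun _ => rfl
  have hidx : f.range.index = Nat.card f.ker := by
    have h1 := f.ker.card_mul_index
    have h2 : f.ker.index = Nat.card f.range := Subgroup.index_ker f
    have h3 := f.range.card_mul_index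
    rw [h2] at h1
    have h4 : 0 < Nat.card f.range := Nat.card_pos
    rw [← h3, mul_comm] at h1
    exact (Nat.eq_of_mul_eq_mul_left h4 h1).symm
  let W' : Subgroup 𝔾 := (f.range.comap q).map Hn.subtype
  have hmem : ∀ (x : 𝔾) (hx : x ∈ Hn), x ∈ W' ↔ q ⟨x, hx⟩ ∈ f.range := by
    intro x hx
    constructor
    · rintro ⟨y, hy, hyx⟩
      have h1 : y = ⟨x, hx⟩ := Subtype.ext hyx
      rw [← h1]
      exact hy
    · intro h
      exact ⟨⟨x, hx⟩, h, rfl⟩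
  have hWn : W' ≤ Hn := by
    rintro _ ⟨y, -, rfl⟩
    exact y.2
  refine ⟨W', ?_, hWn, ?_, ?_⟩
  · intro x hx
    rw [hmem x (hmn (hPm hx)), (hq ⟨x, hmn (hPm hx)⟩).2 hx]
    exact one_mem _
  · intro x hx
    rw [hmem _ (Hn.pow_mem hx p)]
    exact ⟨q ⟨x, hx⟩, by rw [hfa, ← map_pow]; rfl⟩
  · have h1 : W'.relIndex Hn = f.range.index := by
      have h2 : W'.subgroupOf Hn = f.range.comap q := by
        ext x
        rw [mem_subgroupOf, hmem x x.2]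
        rfl
      rw [relIndex, h2]
      exact index_comap_of_surjective _ hqs
    rw [h1, hidx]
    let g : Hm →* (Hn ⧸ P'.subgroupOf Hn) := q.comp (inclusion hmn)
    have h2 : P'.relIndex Hm = Nat.card g.range := by
      rw [← Subgroup.index_ker]
      have h3 : g.ker = P'.subgroupOf Hm := by
        ext x
        rw [MonoidHom.mem_ker, mem_subgroupOf]
        exact hq _
      rw [h3]
      rfl
    rw [h2]
    apply Subgroup.card_le_of_le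
    rintro _ ⟨x, rfl⟩
    rw [MonoidHom.mem_ker, hfa]
    show (q (inclusion hmn x)) ^ p = 1
    rw [← map_pow, hq]
    exact hpow x x.2

variable {𝔾 : Type} [Group 𝔾] {p : ℕ} [hpf : Fact p.Prime] {Ω : Type} [MulAction 𝔾 Ω]
    {I : Ω → Subgroup 𝔾}

/-- The condition from the rank of one layer, if the layers are unramified. -/
theorem cond_of_rank [TopologicalSpace 𝔾] [ContinuousMul 𝔾]
    (hI : ∀ (g : 𝔾) (w : Ω), ∀ x ∈ I w, g * x * g⁻¹ ∈ I (g • w))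
    {K Dn Dm : Subgroup 𝔾} (hKn : K.Normal) (hDnn : Dn.Normal)
    (hmn : Dm ≤ Dn) (hK0 : K.index ≠ 0) (hDm0 : Dm.index ≠ 0)
    (hcm : ∀ x y : 𝔾, ⁅x, y⁆ ∈ Dm)
    {a : ℕ} (hqn : Dn.relIndex K = p ^ a) (hram : ∀ w, I w ≤ Dm)
    {C d : ℕ} (hC : RankLe p I (K ⊓ Dn) C) (hCE : C < p ^ (d * p ^ a)) :
    LayerCond p I K Dm (K ⊓ Dm) d (p ^ a - 1) (C ^ (p ^ a - 1)) := by
  classical
  have hp := hpf.out
  obtain ⟨Hm, hHm⟩ : ∃ Hm, Hm = K ⊓ Dm := ⟨_, rfl⟩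
  obtain ⟨Hn, hHn⟩ : ∃ Hn, Hn = K ⊓ Dn := ⟨_, rfl⟩
  have hHm0 : Hm.index ≠ 0 := by
    rw [hHm]
    exact index_inf_ne_zero hK0 hDm0
  have hmne : Hm ≤ Hn := by
    rw [hHm, hHn]
    exact inf_le_inf_left K hmn
  have hmemm : ∀ x, x ∈ Hm ↔ x ∈ K ∧ x ∈ Dm := fun x => by
    rw [hHm]
    exact Iff.rfl
  have hmemn : ∀ x, x ∈ Hn ↔ x ∈ K ∧ x ∈ Dn := fun x => by
    rw [hHn]
    exact Iff.rfl
  rw [← hHn] at hC
  rw [← hHm]
  intro hHmn γ hγK hγ W hWH hWo hWf hgW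
  obtain ⟨Q, hQW, hQo, hQf, hg, hQn'⟩ := exists_core hI (K := Hm) (D := ⊤)
    (fun d _ x hx => hHmn.conj_mem x hx d) (by rwa [relIndex_top_right]) hWH hWo hWf hgW
  have hQn : Q.Normal := ⟨fun x hx g => hQn' g trivial x hx⟩
  have hQK : Q ≤ Hm := hQW.trans hWH
  refine ⟨Q, hQW, hQn, hQo, hQf, hg, fun V i1 i2 i3 ρ π hs ha h0 hρ => ?_⟩
  set φ : Module.End (ZMod p) V := ρ γ - 1 with hφ
  have hπc : ∀ (g : 𝔾) (x : Hm) (h : ⁅g, (x : 𝔾)⁆ ∈ Hm), π ⟨⁅g, (x : 𝔾)⁆, h⟩ = ρ g (π x) - π x := by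
    intro g x h
    have h1 : π ⟨⁅g, (x : 𝔾)⁆, h⟩ + π x = ρ g (π x) := by
      rw [hρ, ← ha]
      congr 1
      apply Subtype.ext
      show ⁅g, (x : 𝔾)⁆ * (x : 𝔾) = g * x * g⁻¹
      rw [commutatorElement_def]
      group
    rw [← h1, add_sub_cancel_right]
  have hcHm : ∀ (g : 𝔾) (x : 𝔾), x ∈ Hm → ⁅g, x⁆ ∈ Hm := by
    intro g x hx
    rw [commutatorElement_def]
    exact Hm.mul_mem (hHmn.conj_mem x hx g) (Hm.inv_mem hx)
  have htriv : ∀ x ∈ Hm, ρ x = 1 := by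
    intro x hx
    ext v
    obtain ⟨y, rfl⟩ := hs v
    have h1 := hπc x y (hcHm x y y.2)
    have h2 : π ⟨⁅x, (y : 𝔾)⁆, hcHm x y y.2⟩ = 0 :=
      (h0 ⟨⁅x, (y : 𝔾)⁆, hcHm x y y.2⟩).2 (hg (Or.inl (Or.inr ⟨x, hx, y, y.2, rfl⟩)))
    rw [h2] at h1
    exact (sub_eq_zero.1 h1.symm)
  have hmod : ∀ x y : 𝔾, x * y⁻¹ ∈ Hm → ρ x = ρ y := by
    intro x y h
    have h1 : x = (x * y⁻¹) * y := by group
    rw [h1, map_mul, htriv _ h, one_mul]
  have hφa : φ ^ (p ^ a) = ρ (γ ^ p ^ a) - 1 := by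
    rw [hφ, pow_frob, map_pow]
  have hγn : γ ^ p ^ a ∈ Hn := by
    rw [hmemn]
    refine ⟨K.pow_mem hγK _, ?_⟩
    have h1 : (⟨γ, hγK⟩ : K) ^ (Dn.subgroupOf K).index ∈ Dn.subgroupOf K :=
      (Dn.subgroupOf K).pow_index_mem _
    have h2 : (Dn.subgroupOf K).index = p ^ a := hqn
    rw [h2] at h1
    exact h1
  set F : Submodule (ZMod p) V := (⊤ : Submodule (ZMod p) V).map (φ ^ p ^ a) with hF
  obtain ⟨P', hP', hidx⟩ := exists_pre π hs ha F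
  have hP'K : P' ≤ Hm := fun x hx => ((hP' x).1 hx).1
  have hQP : Q ≤ P' := by
    intro x hx
    refine (hP' x).2 ⟨hQK hx, ?_⟩
    rw [(h0 ⟨x, hQK hx⟩).2 hx]
    exact F.zero_mem
  have hφc : ∀ g, ρ g * φ = φ * ρ g := by
    intro g
    have h1 : ρ (g * γ) = ρ (γ * g) := by
      apply hmod
      have h2 : g * γ * (γ * g)⁻¹ = ⁅g, γ⁆ := by
        rw [commutatorElement_def]
        group
      rw [h2, hmemm]
      refine ⟨?_, hcm g γ⟩
      rw [commutatorElement_def]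
      exact K.mul_mem (hKn.conj_mem γ hγK g) (K.inv_mem hγK)
    rw [map_mul, map_mul] at h1
    rw [hφ, mul_sub, sub_mul, h1, one_mul, mul_one]
  have hFst : Stable ρ F := by
    rintro g _ ⟨y, -, rfl⟩
    have h1 : Commute (ρ g) (φ ^ p ^ a) := Commute.pow_right (hφc g) _
    refine ⟨ρ g y, Submodule.mem_top, ?_⟩
    exact (LinearMap.congr_fun h1.eq y).symm
  have hP'n : P'.Normal := by
    refine ⟨fun x hx g => ?_⟩
    obtain ⟨hx', hxF⟩ := (hP' x).1 hx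
    refine (hP' _).2 ⟨hHmn.conj_mem x hx' g, ?_⟩
    have h1 := hFst g _ hxF
    rwa [hρ] at h1
  -- `Hn`
  have hdec : ∀ x ∈ Hn, ∃ h ∈ Hm, ∃ j : ℤ, x = h * (γ ^ p ^ a) ^ j := by
    intro x hx
    obtain ⟨hxK, hxD⟩ := (hmemn x).1 hx
    obtain ⟨j, hj⟩ := mod_gamma hmn hγK hγ hxK hxD
    rw [hqn] at hj
    refine ⟨x * ((γ ^ p ^ a) ^ j)⁻¹, ?_, j, by group⟩
    rw [hmemm]
    exact ⟨K.mul_mem hxK (K.inv_mem (K.zpow_mem ((hmemn _).1 hγn).1 j)), hj⟩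
  have hC1 : ∀ x y : 𝔾, ⁅x, y⁆ ∈ P' ↔ Commute (x : 𝔾 ⧸ P') (y : 𝔾 ⧸ P') := by
    intro x y
    rw [← QuotientGroup.eq_one_iff]
    show QuotientGroup.mk' P' ⁅x, y⁆ = 1 ↔ _
    rw [map_commutatorElement, commutatorElement_eq_one_iff_commute]
    rfl
  have hc1 : ∀ x ∈ Hm, ∀ y ∈ Hm, Commute (x : 𝔾 ⧸ P') (y : 𝔾 ⧸ P') := by
    intro x hx y hy
    rw [← hC1]
    exact hQP (hg (Or.inl (Or.inr ⟨x, hx, y, hy, rfl⟩)))
  have hc2 : ∀ x ∈ Hm, Commute ((γ ^ p ^ a : 𝔾) : 𝔾 ⧸ P') (x : 𝔾 ⧸ P') := by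
    intro x hx
    rw [← hC1]
    refine (hP' _).2 ⟨hcHm _ x hx, ?_⟩
    rw [hπc _ ⟨x, hx⟩ (hcHm _ x hx)]
    refine ⟨π ⟨x, hx⟩, Submodule.mem_top, ?_⟩
    rw [hφa]
    rfl
  have hc3 : ∀ x ∈ Hn, ∀ y ∈ Hn, ⁅x, y⁆ ∈ P' := by
    intro x hx y hy
    rw [hC1]
    obtain ⟨h, hh, i, rfl⟩ := hdec x hx
    obtain ⟨h', hh', j, rfl⟩ := hdec y hy
    rw [QuotientGroup.mk_mul, QuotientGroup.mk_mul, QuotientGroup.mk_zpow, QuotientGroup.mk_zpow]
    refine Commute.mul_left (Commute.mul_right (hc1 h hh h' hh') ?_) (Commute.mul_right ?_ ?_)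
    · exact ((hc2 h hh).symm).zpow_right j
    · exact (hc2 h' hh').zpow_left i
    · exact ((Commute.refl _).zpow_left i).zpow_right j
  have hHn0 : P'.relIndex Hn ≠ 0 := by
    have h1 : P'.relIndex Hm ≠ 0 := by
      rw [hidx]
      exact pow_ne_zero _ hp.ne_zero
    have h2 : Hm.relIndex Hn ≠ 0 := by
      intro h
      have h3 := relIndex_mul_index hmne
      rw [h, zero_mul] at h3
      exact hHm0 h3.symm
    rw [← relIndex_mul_relIndex P' Hm Hn hP'K hmne]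
    exact mul_ne_zero h1 h2
  obtain ⟨W', hPW, hWn, hWp, hWi⟩ := elem_bound (p := p) hP'K hmne hP'n hHn0 hc3
    (fun x hx => hQP (hg (Or.inl (Or.inl ⟨x, hx, rfl⟩))))
  have hWf' : W'.relIndex Hn ≠ 0 := by
    intro h
    apply hHn0
    have h1 := relIndex_dvd_of_le_left (L := Hn) hPW
    rw [h] at h1
    exact Nat.eq_zero_of_zero_dvd h1
  have hYC : p ^ finrank (ZMod p) (V ⧸ F) ≤ C := by
    rw [← hidx]
    refine hWi.trans (hC W' hWn (isOpen_mono (hQP.trans hPW) hQo) hWf' ?_)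
    rintro x ((⟨y, hy, rfl⟩ | ⟨y, hy, z, hz, rfl⟩) | ⟨hx, w, hw⟩)
    · exact hWp y hy
    · exact hPW (hc3 y hy z hz)
    · refine hPW (hQP (hg (Or.inr ⟨?_, w, hw⟩)))
      rw [hmemm]
      exact ⟨((hmemn x).1 hx).1, hram w hw⟩
  have hqF := F.finrank_quotient_add_finrank
  have hpa : 1 ≤ p ^ a := Nat.one_le_pow _ _ hp.pos
  have hlt : finrank (ZMod p) (V ⧸ F) < d * p ^ a := by
    by_contra hge
    push Not at hge
    have h1 : p ^ (d * p ^ a) ≤ p ^ finrank (ZMod p) (V ⧸ F) := Nat.pow_le_pow_right hp.pos hge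
    omega
  have htop : finrank (ZMod p) (⊤ : Submodule (ZMod p) V) = finrank (ZMod p) V := finrank_top _ _
  obtain ⟨hsmall, hker⟩ := growth_all φ (⊤ : Submodule (ZMod p) V) (fun _ _ => Submodule.mem_top) (d := d)
    (q := 0) (c := finrank (ZMod p) (V ⧸ F)) hpa le_top
    (by
      rw [← hF, htop]
      omega) (by
      rw [← hF]
      omega)
  rw [add_zero] at hsmall hker
  refine ⟨hsmall, ?_⟩
  calc p ^ finrank (ZMod p) (LinearMap.ker (φ ^ (p ^ a - 1)))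
      ≤ p ^ ((p ^ a - 1) * finrank (ZMod p) (V ⧸ F)) := Nat.pow_le_pow_right hp.pos hker
    _ = (p ^ finrank (ZMod p) (V ⧸ F)) ^ (p ^ a - 1) := by rw [← pow_mul, mul_comm]
    _ ≤ C ^ (p ^ a - 1) := Nat.pow_le_pow_left hYC _

end Run7.h947.IW
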