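import Pool.Agent.Run7.h947.IW.Split
import Pool.Agent.H124R3.Prof

/-!
# The prime `p` is totally ramified in the cyclotomic `ℤ_p`-extension
-/

set_option autoImplicit false

namespace Run7.h947.IW

open IntermediateField Module Pool.Agent.Q60.MU Pool.Agent.W5h77.MB Pool.Agent.W5h33.DF NumberField
open scoped Pointwise commutatorElement

/-- Elements of a valuation ring are congruent to integers. -/
theorem exists_int {p : ℕ} (hp : p.Prime) {w : ValuationSubring Qb} (hw : (p : Qb) ∈ w.nonunits)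
    {x : Qb} (hx : x ∈ w) : ∃ b : Qb, IsIntegral ℤ b ∧ x - b ∈ w.nonunits := by
  have hxi : IsIntegral ℚ x := (Algebra.IsAlgebraic.isAlgebraic x).isIntegral
  have hfd : FiniteDimensional ℚ ℚ⟮x⟯ := adjoin.finiteDimensional hxi
  have hnf : NumberField ℚ⟮x⟯ := ⟨⟩
  set O := w.comap (algebraMap ℚ⟮x⟯ Qb) with hO
  have h : ∀ a : 𝓞 ℚ⟮x⟯, algebraMap (𝓞 ℚ⟮x⟯) ℚ⟮x⟯ a ∈ O := by
    intro a
    rw [hO, ValuationSubring.mem_comap]
    apply integral_mem w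
    exact (RingOfIntegers.isIntegral_coe a).map ((algebraMap ℚ⟮x⟯ Qb).toIntAlgHom)
  have hxO : (⟨x, mem_adjoin_simple_self ℚ x⟩ : ℚ⟮x⟯) ∈ O := by
    rw [hO, ValuationSubring.mem_comap]
    exact hx
  obtain ⟨a, ha⟩ := Pool.Agent.H639R3.residue_surjective O h (comap_ne_top hp _ w hw)
    (IsLocalRing.residue O ⟨_, hxO⟩)
  refine ⟨algebraMap ℚ⟮x⟯ Qb (algebraMap (𝓞 ℚ⟮x⟯) ℚ⟮x⟯ a),
    (RingOfIntegers.isIntegral_coe a).map ((algebraMap ℚ⟮x⟯ Qb).toIntAlgHom), ?_⟩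
  rw [RingHom.comp_apply, ← sub_eq_zero, ← map_sub, IsLocalRing.residue_eq_zero_iff,
    O.valuation_lt_one_iff, Pool.Agent.H639R3.comap_val_lt_one, ← ValuationSubring.mem_nonunits_iff] at ha
  have h1 := neg_mem ha
  rw [← map_neg] at h1
  push_cast at h1
  rw [neg_sub] at h1
  exact h1

theorem val_eq_of {p : ℕ} (hp : p.Prime) (w w' : ValuationSubring Qb) (hw : (p : Qb) ∈ w.nonunits)
    (hw' : (p : Qb) ∈ w'.nonunits)
    (h : ∀ z : Qb, IsIntegral ℤ z → (z ∈ w.nonunits ↔ z ∈ w'.nonunits)) : w = w' := by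
  ext x
  have hxi : IsIntegral ℚ x := (Algebra.IsAlgebraic.isAlgebraic x).isIntegral
  have hfd : FiniteDimensional ℚ ℚ⟮x⟯ := adjoin.finiteDimensional hxi
  have h1 := comap_eq_of hp ℚ⟮x⟯ w w' hw hw' (fun z _ hz => h z hz)
  have h2 : (⟨x, mem_adjoin_simple_self ℚ x⟩ : ℚ⟮x⟯) ∈ w.comap (algebraMap ℚ⟮x⟯ Qb) ↔
      (⟨x, mem_adjoin_simple_self ℚ x⟩ : ℚ⟮x⟯) ∈ w'.comap (algebraMap ℚ⟮x⟯ Qb) := by rw [h1]
  rw [ValuationSubring.mem_comap, ValuationSubring.mem_comap] at h2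
  exact h2

theorem smul_nonunits_iff {g : Gal(Qb/ℚ)} {w : ValuationSubring Qb} (h : g • w = w) {z : Qb} :
    g z ∈ w.nonunits ↔ z ∈ w.nonunits := by
  have h1 : z ∈ (g⁻¹ • w).nonunits ↔ g z ∈ w.nonunits := by
    rw [mem_smul_nonunits, inv_inv]
  have h2 : g⁻¹ • w = w := by
    conv_lhs => rw [← h]
    rw [inv_smul_smul]
  rw [← h1, h2]

/-- The inertia groups at the primes above `p` have the same image in the Galois group of a cyclotomic
field of `p`-power conductor as the whole group. -/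
theorem inertia_surj {p N : ℕ} (hp : p.Prime) (w : ValuationSubring Qb) (hw : (p : Qb) ∈ w.nonunits)
    (g : Gal(Qb/ℚ)) : ∃ τ ∈ inertia w, ∀ z : Qb, z ^ p ^ N = 1 → τ z = g z := by
  classical
  obtain ⟨τ₀, hτ₀, hτ₀z⟩ := one_orbit (N := N) hp w hw g
  set σ : Gal(Qb/ℚ) := τ₀⁻¹ * g with hσ
  have hσw : σ • w = w := by
    rw [hσ, mul_smul, hτ₀, inv_smul_smul]
  have hσz : ∀ z : Qb, z ^ p ^ N = 1 → σ z = g z := by
    intro z hz
    have h1 : (g z) ^ p ^ N = 1 := by rw [← map_pow, hz, map_one]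
    show τ₀⁻¹ (g z) = g z
    conv_lhs => rw [← hτ₀z _ h1]
    show (τ₀⁻¹ * τ₀) (g z) = g z
    rw [inv_mul_cancel]
    rfl
  have hn : 0 < p ^ N := pow_pos hp.pos N
  have hpn : NeZero (p ^ N) := ⟨hn.ne'⟩
  have hpQ : NeZero ((p ^ N : ℕ) : Qb) := ⟨by exact_mod_cast hn.ne'⟩
  have hE : HasEnoughRootsOfUnity Qb (p ^ N) := inferInstance
  obtain ⟨ζ, hζ⟩ := HasEnoughRootsOfUnity.exists_primitiveRoot Qb (p ^ N)
  have hint : IsIntegral ℤ ζ := root_integral hn hζ.pow_eq_one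
  have hfd : FiniteDimensional ℚ ℚ⟮ζ⟯ :=
    adjoin.finiteDimensional (hint.tower_top)
  have hnf : NumberField ℚ⟮ζ⟯ := ⟨⟩
  have key : ∀ (ξ : Qb), ξ ^ p ^ N = 1 → ∀ f : Polynomial ℤ,
      Polynomial.aeval ξ f - ((f.eval 1 : ℤ) : Qb) ∈ w.nonunits := by
    intro ξ hξ f
    have hξi := root_integral hn hξ
    obtain ⟨q, hq⟩ := Polynomial.X_sub_C_dvd_sub_C_eval (p := f) (a := (1 : ℤ))
    have h1 : Polynomial.aeval ξ f - ((f.eval 1 : ℤ) : Qb) = (ξ - 1) * Polynomial.aeval ξ q := by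
      have h2 := congrArg (Polynomial.aeval ξ) hq
      simpa using h2
    rw [h1]
    exact mul_nonunits (root_sub_one hp hw hξ) (int_mem w hξi q)
  -- the ring of integers
  let _ : Algebra (𝓞 ℚ⟮ζ⟯) Qb := ((algebraMap ℚ⟮ζ⟯ Qb).comp (algebraMap (𝓞 ℚ⟮ζ⟯) ℚ⟮ζ⟯)).toAlgebra
  have htow : IsScalarTower (𝓞 ℚ⟮ζ⟯) ℚ⟮ζ⟯ Qb := .of_algebraMap_eq fun _ => rfl
  have hB : ∀ b : Qb, IsIntegral (𝓞 ℚ⟮ζ⟯) b ↔ IsIntegral ℤ b := by
    intro b
    constructor
    · intro h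
      have h1 : Algebra.IsIntegral ℤ (𝓞 ℚ⟮ζ⟯) := inferInstance
      exact isIntegral_trans b h
    · intro h
      exact h.tower_top
  have hbint : ∀ b : integralClosure (𝓞 ℚ⟮ζ⟯) Qb, IsIntegral ℤ (b : Qb) := fun b => (hB _).1 b.2
  have hbw : ∀ b : integralClosure (𝓞 ℚ⟮ζ⟯) Qb, (b : Qb) ∈ w := fun b => integral_mem w (hbint b)
  let Q : Ideal (integralClosure (𝓞 ℚ⟮ζ⟯) Qb) :=
    { carrier := {b | (b : Qb) ∈ w.nonunits}
      add_mem' := fun {a b} ha hb => by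
        show ((a + b : integralClosure (𝓞 ℚ⟮ζ⟯) Qb) : Qb) ∈ w.nonunits
        have ha' : (a : Qb) ∈ w.nonunits := ha
        have hb' : (b : Qb) ∈ w.nonunits := hb
        rw [AddMemClass.coe_add]
        exact add_mem ha' hb'
      zero_mem' := by
        show ((0 : integralClosure (𝓞 ℚ⟮ζ⟯) Qb) : Qb) ∈ w.nonunits
        exact zero_mem _
      smul_mem' := fun c {x} hx => by
        show ((c * x : integralClosure (𝓞 ℚ⟮ζ⟯) Qb) : Qb) ∈ w.nonunits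
        rw [MulMemClass.coe_mul, mul_comm]
        exact mul_nonunits hx (hbw c) }
  have hQmem : ∀ b : integralClosure (𝓞 ℚ⟮ζ⟯) Qb, b ∈ Q ↔ (b : Qb) ∈ w.nonunits := fun b => Iff.rfl
  have hQp : Q.IsPrime := by
    refine ⟨fun h => ?_, fun {x y} hxy => ?_⟩
    · have h1 := (Ideal.eq_top_iff_one Q).1 h
      rw [hQmem, ValuationSubring.mem_nonunits_iff] at h1
      simp at h1
    · rw [hQmem, ValuationSubring.mem_nonunits_iff, MulMemClass.coe_mul, map_mul] at hxy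
      rw [hQmem, hQmem, ValuationSubring.mem_nonunits_iff, ValuationSubring.mem_nonunits_iff]
      by_contra hcon
      push Not at hcon
      exact absurd hxy (not_lt.2 (one_le_mul hcon.1 hcon.2))
  -- the action of `σ`
  have hσint : ∀ (g : Gal(Qb/ℚ)) (b : Qb), IsIntegral ℤ b → IsIntegral ℤ (g b) := fun g b hb =>
    hb.map ((g : Qb →ₐ[ℚ] Qb).restrictScalars ℤ)
  let mk : ∀ (g : Gal(Qb/ℚ)), integralClosure (𝓞 ℚ⟮ζ⟯) Qb →+* integralClosure (𝓞 ℚ⟮ζ⟯) Qb := fun g =>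
    { toFun := fun b => ⟨g b, (hB _).2 (hσint g b (hbint b))⟩
      map_one' := Subtype.ext (map_one g)
      map_mul' := fun a b => Subtype.ext (map_mul g (a : Qb) (b : Qb))
      map_zero' := Subtype.ext (map_zero g)
      map_add' := fun a b => Subtype.ext (map_add g (a : Qb) (b : Qb)) }
  have hmk : ∀ g b, ((mk g b : integralClosure (𝓞 ℚ⟮ζ⟯) Qb) : Qb) = g b := fun _ _ => rfl
  let e : integralClosure (𝓞 ℚ⟮ζ⟯) Qb ≃+* integralClosure (𝓞 ℚ⟮ζ⟯) Qb :=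
    RingEquiv.ofRingHom (mk σ) (mk σ⁻¹)
      (by
        ext b
        show (σ * σ⁻¹) (b : Qb) = b
        rw [mul_inv_cancel]
        rfl)
      (by
        ext b
        show (σ⁻¹ * σ) (b : Qb) = b
        rw [inv_mul_cancel]
        rfl)
  have he : ∀ b, ((e b : integralClosure (𝓞 ℚ⟮ζ⟯) Qb) : Qb) = σ b := fun _ => rfl
  let s : (integralClosure (𝓞 ℚ⟮ζ⟯) Qb ⧸ Q) ≃+* (integralClosure (𝓞 ℚ⟮ζ⟯) Qb ⧸ Q) :=
    Ideal.quotientEquiv Q Q e (by
      apply le_antisymm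
      · intro b hb
        have h1 : e.symm b ∈ Q := by
          rw [hQmem, ← smul_nonunits_iff hσw, ← he, RingEquiv.apply_symm_apply]
          exact hb
        have h2 := Ideal.mem_map_of_mem (e : integralClosure (𝓞 ℚ⟮ζ⟯) Qb →+* integralClosure (𝓞 ℚ⟮ζ⟯) Qb) h1
        simpa using h2
      · refine Ideal.map_le_iff_le_comap.2 fun x hx => ?_
        show σ x ∈ w.nonunits
        rw [smul_nonunits_iff hσw]
        exact hx)
  obtain ⟨ν, hν⟩ := Pool.Agent.H124R3.ZT.exists_lift (F := ℚ⟮ζ⟯) (L := Qb) (A := 𝓞 ℚ⟮ζ⟯) Q hQp s (by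
    intro a
    show Ideal.Quotient.mk Q (e (algebraMap (𝓞 ℚ⟮ζ⟯) (integralClosure (𝓞 ℚ⟮ζ⟯) Qb) a)) = _
    rw [Ideal.Quotient.mk_eq_mk_iff_sub_mem, hQmem]
    push_cast
    rw [he]
    have hcoe : ((algebraMap (𝓞 ℚ⟮ζ⟯) (integralClosure (𝓞 ℚ⟮ζ⟯) Qb) a : integralClosure (𝓞 ℚ⟮ζ⟯) Qb) : Qb) =
      ((a : ℚ⟮ζ⟯) : Qb) := rfl
    rw [hcoe]
    obtain ⟨f, hf⟩ := integral_poly hp hζ (z := ((a : ℚ⟮ζ⟯) : Qb)) (a : ℚ⟮ζ⟯).2
      ((RingOfIntegers.isIntegral_coe a).map ((algebraMap ℚ⟮ζ⟯ Qb).toIntAlgHom))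
    rw [hf]
    have h1 : σ (Polynomial.aeval ζ f) = Polynomial.aeval (σ ζ) f :=
      (Polynomial.aeval_algHom_apply ((σ : Qb →ₐ[ℚ] Qb).restrictScalars ℤ) ζ f).symm
    rw [h1]
    have h2 := key (σ ζ) (by rw [← map_pow, hζ.pow_eq_one, map_one]) f
    have h3 := key ζ hζ.pow_eq_one f
    have h4 := sub_mem h2 h3
    have h5 : Polynomial.aeval (σ ζ) f - Polynomial.aeval ζ f =
        Polynomial.aeval (σ ζ) f - ((f.eval 1 : ℤ) : Qb) - (Polynomial.aeval ζ f - ((f.eval 1 : ℤ) : Qb)) := by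
      ring
    have h6 : algebraMap (𝓞 ℚ⟮ζ⟯) Qb a = Polynomial.aeval ζ f := hf
    rw [h6, h5]
    exact h4)
  set ν' : Gal(Qb/ℚ) := ν.restrictScalars ℚ with hν'
  have hνb : ∀ b : Qb, IsIntegral ℤ b → σ b - ν' b ∈ w.nonunits := by
    intro b hb
    have h1 := hν ⟨b, (hB b).2 hb⟩ ⟨ν' b, (hB _).2 (hσint ν' b hb)⟩ rfl
    have h2 : s (Ideal.Quotient.mk Q ⟨b, (hB b).2 hb⟩) = Ideal.Quotient.mk Q (e ⟨b, (hB b).2 hb⟩) := rfl
    rw [h2] at h1
    have h3 := (Ideal.Quotient.mk_eq_mk_iff_sub_mem _ _).1 h1.symm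
    rw [hQmem] at h3
    exact h3
  have hνw : ν' • w = w := by
    apply val_eq_of hp _ _ (natCast_smul_nonunits hw) hw
    intro z hz
    rw [mem_smul_nonunits]
    have h1 : IsIntegral ℤ (ν'⁻¹ z) := hσint _ _ hz
    have h2 := hνb _ h1
    have h3 : ν' (ν'⁻¹ z) = z := by
      show (ν' * ν'⁻¹) z = z
      rw [mul_inv_cancel]
      rfl
    rw [h3] at h2
    rw [← smul_nonunits_iff hσw]
    constructor
    · intro h4
      have h5 := sub_mem h4 h2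
      rwa [sub_sub_cancel] at h5
    · intro h4
      have h5 := add_mem h2 h4
      rwa [sub_add_cancel] at h5
  refine ⟨σ * ν'⁻¹, ⟨?_, fun x hx => ?_⟩, fun z hz => ?_⟩
  · have h1 : ν'⁻¹ • w = w := by
      conv_lhs => rw [← hνw]
      rw [inv_smul_smul]
    rw [mul_smul, h1, hσw]
  · set y := ν'⁻¹ x with hy
    have hyx : ν' y = x := by
      show (ν' * ν'⁻¹) x = x
      rw [mul_inv_cancel]
      rfl
    have hyw : y ∈ w := by
      have h1 : ν'⁻¹ • w = w := by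
        conv_lhs => rw [← hνw]
        rw [inv_smul_smul]
      have h6 := ValuationSubring.smul_mem_pointwise_smul ν'⁻¹ x w hx
      rwa [h1] at h6
    show σ y - x ∈ w.nonunits
    rw [← hyx]
    obtain ⟨b, hb, hyb⟩ := exists_int hp hw hyw
    have h1 := hνb b hb
    have h2 := (smul_nonunits_iff hσw).2 hyb
    have h3 := (smul_nonunits_iff hνw).2 hyb
    rw [map_sub] at h2 h3
    have h4 := sub_mem (add_mem h1 h2) h3
    have h5 : σ b - ν' b + (σ y - σ b) - (ν' y - ν' b) = σ y - ν' y := by ring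
    rwa [h5] at h4
  · have h1 : ν'⁻¹ z = z := by
      have h2 : ν' ζ = ζ := ν.commutes (⟨ζ, mem_adjoin_simple_self ℚ ζ⟩ : ℚ⟮ζ⟯)
      have h3 := root_fix hn hζ h2 hz
      conv_lhs => rw [← h3]
      show (ν'⁻¹ * ν') z = z
      rw [inv_mul_cancel]
      rfl
    show σ (ν'⁻¹ z) = g z
    rw [h1, hσz z hz]

theorem group_total' {𝔾 : Type} [Group 𝔾] {p : ℕ} (hp : p.Prime) {Z K D D' : Subgroup 𝔾} (hKn : K.Normal)
    (hD'n : D'.Normal) (hDn : D.Normal) (hDD : D' ≤ D) {e m : ℕ} (hDi : D.index = p ^ e)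
    (hD'i : D'.index = p ^ m) (hσ : ∃ σ : 𝔾, ∀ τ, ∃ i : ℤ, τ * (σ ^ i)⁻¹ ∈ D') (hZ : Z ⊔ D' = ⊤)
    (hK : ¬ p ^ (e + 1) ∣ K.index) :
    ∀ σ ∈ D, ∃ τ ∈ Z, τ ∈ K ∧ σ * τ⁻¹ ∈ D' := by
  have hcm := comm_mem_of hσ
  set X : Subgroup 𝔾 := Z ⊓ K ⊔ D' with hX
  have hDX : D' ≤ X := le_sup_right
  have hXn : X.Normal := by
    refine ⟨fun x hx g => ?_⟩
    have h1 : g * x * g⁻¹ = ⁅g, x⁆ * x := by
      rw [commutatorElement_def]
      group
    rw [h1]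
    exact X.mul_mem (hDX (hcm g x)) hx
  have h1 : X.index ∣ K.index := by
    have h2 : Z ⊔ X = ⊤ := by
      rw [eq_top_iff, ← hZ]
      exact sup_le_sup_left hDX _
    have h3 : X.index = X.relIndex Z := by
      rw [← Subgroup.relIndex_top_right, ← h2, Subgroup.relIndex_sup_right]
    rw [h3]
    refine (Subgroup.relIndex_dvd_of_le_left (L := Z) (le_sup_left : Z ⊓ K ≤ X)).trans ?_
    rw [Subgroup.inf_relIndex_left]
    exact Subgroup.relIndex_dvd_index_of_normal K Z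
  obtain ⟨v, -, hv⟩ : ∃ v ≤ m, X.index = p ^ v :=
    (Nat.dvd_prime_pow hp).1 (hD'i ▸ Subgroup.index_dvd_of_le hDX)
  have hve : v ≤ e := by
    by_contra hlt
    push Not at hlt
    apply hK
    rw [hv] at h1
    exact (pow_dvd_pow p hlt).trans h1
  obtain ⟨σ₀, hσ₀⟩ := hσ
  have h2 : σ₀ ^ p ^ e ∈ X := by
    obtain ⟨j, rfl⟩ := Nat.exists_eq_add_of_le hve
    rw [pow_add, pow_mul]
    apply X.pow_mem
    rw [← hv]
    exact X.pow_index_mem σ₀
  intro σ hσD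
  obtain ⟨j, hj⟩ := mod_gamma (K := ⊤) hDD (Subgroup.mem_top σ₀) (fun τ _ => hσ₀ τ)
    (Subgroup.mem_top σ) hσD
  rw [Subgroup.relIndex_top_right, hDi] at hj
  have h3 : σ ∈ X := by
    have h4 : σ = (σ * ((σ₀ ^ p ^ e) ^ j)⁻¹) * (σ₀ ^ p ^ e) ^ j := by group
    rw [h4]
    exact X.mul_mem (hDX hj) (X.zpow_mem h2 j)
  rw [hX, Subgroup.mem_sup_of_normal_right] at h3
  obtain ⟨z, ⟨hzZ, hzK⟩, d, hd, hzd⟩ := h3
  refine ⟨z, hzZ, hzK, ?_⟩
  rw [← hzd]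
  exact hD'n.conj_mem d hd z

/-- The primes above `p` of `K R` are totally ramified in the layers above `K R`, if `K` is contained in a
finite Galois extension `N` and the degree of the layer `R` is at least the largest power of `p` which
divides the degree of `N`. -/
theorem inertia_total {p : ℕ} [hp : Fact p.Prime] (hp2 : p ≠ 2) {K N : IntermediateField ℚ Qb}
    (hKN : K ≤ N) [FiniteDimensional ℚ N] [hKg : IsGalois ℚ N] {e : ℕ} {R : IntermediateField ℚ Qb}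
    (hR : IsLayer p e R) (he : ¬ p ^ (e + 1) ∣ finrank ℚ N) : TotallyI p inertia (K ⊔ R) := by
  intro m S hS A hA σ hσ
  have hfR := layer_fd hp.out hR
  have hfS := layer_fd hp.out hS
  obtain ⟨m', hS'⟩ := layer_sup hR hS
  have hfS' := layer_fd hp.out hS'
  have hKn : N.fixingSubgroup.Normal := (InfiniteGalois.normal_iff_isGalois N).2 hKg
  have hSn := layer_normal hp.out hS'
  have hidx : ∀ (m : ℕ) (R : IntermediateField ℚ Qb), IsLayer p m R →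
      R.fixingSubgroup.index = p ^ m := fun m R hR => by
    rw [← hR.1, finrank_eq_fixingSubgroup_index Qb R]
  have hKidx : finrank ℚ N = N.fixingSubgroup.index := finrank_eq_fixingSubgroup_index Qb N
  have hZ : inertia A ⊔ (R ⊔ S).fixingSubgroup = ⊤ := by
    rw [eq_top_iff]
    intro g _
    obtain ⟨-, M, hM⟩ := hS'
    obtain ⟨τ, hτ, hτ2⟩ := inertia_surj (N := M) hp.out A hA g
    have h1 : g⁻¹ * τ ∈ (R ⊔ S).fixingSubgroup := by
      have h2 : adjoin ℚ {z : Qb | z ^ p ^ M = 1} ≤ fixedField (Subgroup.zpowers (g⁻¹ * τ)) := by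
        rw [adjoin_le_iff]
        intro z hz
        have h3 : Subgroup.zpowers (g⁻¹ * τ) ≤ MulAction.stabilizer Gal(Qb/ℚ) z := by
          rw [Subgroup.zpowers_le]
          show g⁻¹ (τ z) = z
          rw [hτ2 z hz]
          show (g⁻¹ * g) z = z
          rw [inv_mul_cancel]
          rfl
        exact (mem_fixedField_iff _ _).2 fun f hf => h3 hf
      rw [IntermediateField.mem_fixingSubgroup_iff]
      intro x hx
      exact (mem_fixedField_iff _ _).1 (h2 (hM hx)) _ (Subgroup.mem_zpowers _)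
    have h3 : g = τ * (g⁻¹ * τ)⁻¹ := by group
    rw [h3]
    exact mul_mem (Subgroup.mem_sup_left hτ)
      ((le_sup_right : (R ⊔ S).fixingSubgroup ≤ _) (inv_mem h1))
  rw [fixingSubgroup_sup] at hσ
  obtain ⟨τ, hτZ, hτK, hστ⟩ := group_total' hp.out hKn hSn (layer_normal hp.out hR)
    (fixingSubgroup_le (le_sup_left : R ≤ R ⊔ S)) (hidx e R hR) (hidx m' _ hS')
    (layer_cyclic hp.out hp2 hS') hZ (by rwa [← hKidx]) σ hσ.2
  have hτK' : τ ∈ K.fixingSubgroup := fixingSubgroup_le hKN hτK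
  have hτR : τ ∈ R.fixingSubgroup := by
    have h1 : σ * τ⁻¹ ∈ R.fixingSubgroup := fixingSubgroup_le (le_sup_left : R ≤ R ⊔ S) hστ
    have h2 : τ = (σ * τ⁻¹)⁻¹ * σ := by group
    rw [h2]
    exact mul_mem (inv_mem h1) hσ.2
  refine ⟨τ, hτZ, ?_, fun x hx => ?_⟩
  · rw [fixingSubgroup_sup]
    exact ⟨hτK', hτR⟩
  · have h1 : τ⁻¹ * σ ∈ (K ⊔ (R ⊔ S)).fixingSubgroup := by
      rw [fixingSubgroup_sup]
      refine ⟨K.fixingSubgroup.mul_mem (K.fixingSubgroup.inv_mem hτK') hσ.1, ?_⟩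
      have h2 := hSn.conj_mem _ hστ τ⁻¹
      have h3 : τ⁻¹ * (σ * τ⁻¹) * τ⁻¹⁻¹ = τ⁻¹ * σ := by group
      rwa [h3] at h2
    have h2 := (IntermediateField.mem_fixingSubgroup_iff _ _).1 h1 x (by rwa [← sup_assoc])
    have h3 : τ ((τ⁻¹ * σ) x) = σ x := by
      show (τ * (τ⁻¹ * σ)) x = σ x
      rw [mul_inv_cancel_left]
    rw [← h3, h2]

end Run7.h947.IW
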