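import Pool.Agent.Run7.h947.IW.Eig
import Pool.Agent.Run7.h947.IW.Tot

/-!
# Representations of small dimension and cyclic subfields
-/

set_option autoImplicit false

namespace Run7.h947.IW

open IntermediateField Module Pool.Agent.Q60.MU Pool.Agent.W5h77.MB Pool.Agent.W5h33.DF NumberField
open scoped Pointwise commutatorElement

section chars

variable {p : ℕ} [hp : Fact p.Prime] {𝔾 : Type} [Group 𝔾] {X : Type} [AddCommGroup X]
  [Module (ZMod p) X] [Module.Finite (ZMod p) X]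

/-- The characters of an abelian normal subgroup. -/
theorem char_data [Nontrivial X] (τ : Representation (ZMod p) 𝔾 X) {K N : Subgroup 𝔾} (hN : N.Normal)
    (hK : K ≤ N) (hK0 : K.relIndex N ≠ 0) (htriv : ∀ g ∈ K, ∀ x, τ g x = x)
    (hab : ∀ g ∈ N, ∀ h ∈ N, ⁅g, h⁆ ∈ K) :
    ∃ H : Subgroup 𝔾, K ≤ H ∧ H ≤ N ∧ (∀ g ∈ N, ∀ h ∈ H, g * h * g⁻¹ ∈ H) ∧
      (∃ g₀ ∈ N, ∀ g ∈ N, ∃ i : ℕ, g * (g₀ ^ i)⁻¹ ∈ H) ∧
      (∃ l : Module.Dual (ZMod p) X, l ≠ 0 ∧ ∀ h ∈ H, ∀ x, l (τ h x) = l x) ∧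
      ¬ p ∣ H.relIndex N ∧ 0 < orderOf (p : ZMod (H.relIndex N)) ∧
      orderOf (p : ZMod (H.relIndex N)) ≤ finrank (ZMod p) X ∧
      ∀ c : 𝔾, 2 * orderOf (p : ZMod (H.relIndex N)) ≤ finrank (ZMod p) X ∨
        ∃ j : ℕ, ∀ g ∈ N, c * g * c⁻¹ * (g ^ p ^ j)⁻¹ ∈ H := by
  classical
  let F := AlgebraicClosure (ZMod p)
  have hchar : CharP F p := inferInstance
  let τN : Representation (ZMod p) N X := τ.comp N.subtype
  have hτN : ∀ (g : N) x, τN g x = τ g x := fun _ _ => rfl
  have hcom : ∀ g h : N, τN g * τN h = τN h * τN g := by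
    intro g h
    ext x
    show τ g (τ h x) = τ h (τ g x)
    rw [← Module.End.mul_apply, ← Module.End.mul_apply, ← map_mul, ← map_mul]
    have h1 : (g : 𝔾) * h = ⁅(g : 𝔾), (h : 𝔾)⁆ * (h * g) := by
      rw [commutatorElement_def]
      group
    rw [h1, map_mul, Module.End.mul_apply, htriv _ (hab g g.2 h h.2)]
  obtain ⟨χ, L, hL0, hL⟩ := exists_eigen (F := F) τN hcom
  set H : Subgroup 𝔾 := χ.ker.map N.subtype with hH
  have hmem : ∀ (x : 𝔾) (hx : x ∈ N), x ∈ H ↔ χ ⟨x, hx⟩ = 1 := by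
    intro x hx
    constructor
    · rintro ⟨y, hy, hyx⟩
      have h1 : y = ⟨x, hx⟩ := Subtype.ext hyx
      rw [← h1]
      exact hy
    · intro h
      exact ⟨⟨x, hx⟩, h, rfl⟩
  have hHN : H ≤ N := by
    rintro _ ⟨y, -, rfl⟩
    exact y.2
  obtain ⟨x₀, hx₀⟩ : ∃ x, L x ≠ 0 := by
    by_contra hcon
    push Not at hcon
    exact hL0 (LinearMap.ext hcon)
  have hKH : K ≤ H := by
    intro g hg
    rw [hmem g (hK hg)]
    have h1 := hL ⟨g, hK hg⟩ x₀
    rw [hτN, htriv g hg] at h1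
    exact mul_right_cancel₀ hx₀ (by rw [← h1, one_mul])
  have hHidx : χ.ker.index = H.relIndex N := by
    have h1 : H.subgroupOf N = χ.ker := by
      ext x
      rw [Subgroup.mem_subgroupOf, hmem x x.2]
      rfl
    rw [Subgroup.relIndex, h1]
  have hH0 : H.relIndex N ≠ 0 := by
    intro h
    apply hK0
    have h1 := Subgroup.relIndex_mul_relIndex K H N hKH hHN
    rw [← h1, h, mul_zero]
  set n := H.relIndex N with hn
  -- the generator
  let χu : N →* Fˣ := χ.toHomUnits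
  have hχu : ∀ g, ((χu g : Fˣ) : F) = χ g := fun g => rfl
  have hker : χu.ker = χ.ker := by
    ext g
    rw [MonoidHom.mem_ker, MonoidHom.mem_ker, ← hχu, Units.val_eq_one]
  have hcard : Nat.card χu.range = n := by
    rw [← Subgroup.index_ker, hker, hHidx]
  have hfin : Finite χu.range := Nat.finite_of_card_ne_zero (by rw [hcard]; exact hH0)
  obtain ⟨⟨_, g₀, rfl⟩, hgen⟩ := (inferInstance : IsCyclic χu.range).exists_generator
  have hgen' : ∀ g : N, ∃ i : ℕ, χ g = χ g₀ ^ i := by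
    intro g
    obtain ⟨i, hi⟩ := mem_powers_iff_mem_zpowers.2 (hgen ⟨χu g, g, rfl⟩)
    refine ⟨i, ?_⟩
    have h1 := congrArg (fun z : χu.range => ((z : Fˣ) : F)) hi
    simp only [SubmonoidClass.coe_pow, Units.val_pow_eq_pow_val] at h1
    exact h1.symm
  have hord : orderOf (χ g₀) = n := by
    have h1 : orderOf (⟨χu g₀, g₀, rfl⟩ : χu.range) = n := by
      rw [← hcard]
      exact orderOf_eq_card_of_forall_mem_zpowers hgen
    rw [← h1, ← Subgroup.orderOf_coe, ← orderOf_units]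
    rfl
  have hpn : ¬ p ∣ n := by
    rintro ⟨m, hm⟩
    have h1 : (χ g₀ ^ m) ^ p = 1 := by
      rw [← pow_mul, mul_comm, ← hm, ← hord, pow_orderOf_eq_one]
    have h2 : χ g₀ ^ m = 1 := by
      have h3 : frobenius F p (χ g₀ ^ m) = frobenius F p 1 := by
        rw [frobenius_def, frobenius_def, one_pow, h1]
      exact (frobenius F p).injective h3
    have h3 := orderOf_dvd_of_pow_eq_one h2
    rw [hord, hm] at h3
    have hm0 : 0 < m := by
      rcases Nat.eq_zero_or_pos m with h | h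
      · rw [h, mul_zero] at hm
        exact absurd hm hH0
      · exact h
    have h4 := Nat.le_of_dvd hm0 h3
    have h5 := hp.out.two_le
    nlinarith
  have hcop : Nat.Coprime p n := (Nat.Prime.coprime_iff_not_dvd hp.out).2 hpn
  set f := orderOf (p : ZMod n) with hf
  have hn0 : NeZero n := ⟨hH0⟩
  have hf0 : 0 < f := by
    rw [hf, ← ZMod.coe_unitOfCoprime p hcop, orderOf_units]
    exact orderOf_pos _
  have hordu : orderOf (χu g₀) = n := by
    rw [← hord, ← orderOf_units]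
    rfl
  have hmod : ∀ i j : ℕ, χ g₀ ^ p ^ i = χ g₀ ^ p ^ j ↔ (p : ZMod n) ^ i = (p : ZMod n) ^ j := by
    intro i j
    have h1 : χ g₀ ^ p ^ i = χ g₀ ^ p ^ j ↔ χu g₀ ^ p ^ i = χu g₀ ^ p ^ j := by
      rw [Units.ext_iff, Units.val_pow_eq_pow_val, Units.val_pow_eq_pow_val]
      rfl
    rw [h1, pow_eq_pow_iff_modEq, hordu, ← ZMod.natCast_eq_natCast_iff, Nat.cast_pow, Nat.cast_pow]
  have hpf : ∀ g, χ g ^ p ^ f = χ g := by
    intro g
    obtain ⟨i, hi⟩ := hgen' g
    have h1 : χ g₀ ^ p ^ f = χ g₀ ^ p ^ 0 := by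
      rw [hmod, pow_zero, hf, pow_orderOf_eq_one]
    rw [pow_zero, pow_one] at h1
    rw [hi, ← pow_mul, mul_comm, pow_mul, h1]
  -- the twisted characters
  let fr : ℕ → (F →* F) := fun i => ((iterateFrobenius F p i : F →+* F) : F →* F)
  have hfr : ∀ i z, fr i z = z ^ p ^ i := fun i z => iterateFrobenius_def p i z
  have hbase : ∀ (ψ : N →* F) (M : X →ₗ[ZMod p] F), (∀ g x, M (τN g x) = ψ g * M x) → ∀ i g x,
      twist i M (τN g x) = (fr i).comp ψ g * twist i M x := by
    intro ψ M hM i g x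
    rw [twist_apply, twist_apply, hM, mul_pow, MonoidHom.comp_apply, hfr]
  refine ⟨H, hKH, hHN, ?_, ⟨g₀, g₀.2, fun g hg => ?_⟩, ?_, hpn, hf0, ?_, fun c => ?_⟩
  · intro g hg h hh
    have h1 : g * h * g⁻¹ ∈ N := N.mul_mem (N.mul_mem hg (hHN hh)) (N.inv_mem hg)
    have h2 : g * h * g⁻¹ = ⁅g, h⁆ * h := by
      rw [commutatorElement_def]
      group
    rw [h2]
    exact H.mul_mem (hKH (hab g hg h (hHN hh))) hh
  · obtain ⟨i, hi⟩ := hgen' ⟨g, hg⟩
    refine ⟨i, ?_⟩
    rw [hmem _ (N.mul_mem hg (N.inv_mem (N.pow_mem g₀.2 i)))]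
    have h1 : (⟨g * ((g₀ : 𝔾) ^ i)⁻¹, N.mul_mem hg (N.inv_mem (N.pow_mem g₀.2 i))⟩ : N) *
        g₀ ^ i = ⟨g, hg⟩ := by
      apply Subtype.ext
      simp
    have h2 := congrArg χ h1
    rw [map_mul, map_pow, hi] at h2
    have h3 : χ g₀ ^ i ≠ 0 := by
      rw [← hχu]
      exact pow_ne_zero _ (Units.ne_zero _)
    exact mul_right_cancel₀ h3 (by rw [h2, one_mul])
  · obtain ⟨l, hl⟩ := exists_functional hL0
    refine ⟨l ∘ₗ L, hl, fun h hh x => ?_⟩
    show l (L (τ h x)) = l (L x)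
    have h1 := hL ⟨h, hHN hh⟩ x
    rw [(hmem h (hHN hh)).1 hh, one_mul] at h1
    exact congrArg l h1
  · have h1 := card_le_of_char τN (ι := Fin f) (fun i => (fr i).comp χ) (by
      intro i j hij
      have h2 := DFunLike.congr_fun hij g₀
      rw [MonoidHom.comp_apply, MonoidHom.comp_apply, hfr, hfr, hmod] at h2
      exact Fin.ext (pow_injOn_Iio_orderOf i.2 j.2 h2)) (fun i => twist i L)
      (fun i => twist_ne _ hL0) (fun i g x => hbase χ L hL i g x)
    rwa [Fintype.card_fin] at h1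
  · -- the conjugate character
    let χc : N →* F := χ.comp (MulAut.conjNormal c : MulAut N).toMonoidHom
    have hχc : ∀ g : N, χc g = χ (MulAut.conjNormal c g) := fun _ => rfl
    let Lc : X →ₗ[ZMod p] F := L ∘ₗ τ c
    have hLc0 : Lc ≠ 0 := by
      intro h
      apply hx₀
      have h1 := LinearMap.congr_fun h (τ c⁻¹ x₀)
      rw [LinearMap.comp_apply, ← Module.End.mul_apply, ← map_mul, mul_inv_cancel, map_one] at h1
      exact h1
    have hLc : ∀ g x, Lc (τN g x) = χc g * Lc x := by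
      intro g x
      show L (τ c (τ g x)) = χ (MulAut.conjNormal c g) * L (τ c x)
      rw [← hL]
      congr 1
      show τ c (τ g x) = τ (MulAut.conjNormal c g : N) (τ c x)
      rw [MulAut.conjNormal_apply, ← Module.End.mul_apply, ← Module.End.mul_apply, ← map_mul, ← map_mul]
      congr 2
      group
    obtain ⟨g₁, hg₁⟩ : ∃ g₁ : N, MulAut.conjNormal c g₁ = g₀ :=
      ⟨(MulAut.conjNormal c : MulAut N).symm g₀, (MulAut.conjNormal c : MulAut N).apply_symm_apply g₀⟩
    by_cases hinj : Function.Injective (fun i : Fin f ⊕ Fin f =>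
        Sum.elim (fun i : Fin f => (fr i).comp χ) (fun i : Fin f => (fr i).comp χc) i)
    · left
      have h1 := card_le_of_char τN (ι := Fin f ⊕ Fin f) _ hinj
        (fun i => Sum.elim (fun i : Fin f => twist i L) (fun i : Fin f => twist i Lc) i)
        (by
          rintro (i | i)
          · exact twist_ne _ hL0
          · exact twist_ne _ hLc0)
        (by
          rintro (i | i) g x
          · exact hbase χ L hL i g x
          · exact hbase χc Lc hLc i g x)
      rw [Fintype.card_sum, Fintype.card_fin] at h1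
      omega
    · right
      have key : ∃ i j : Fin f, (fr i).comp χ = (fr j).comp χc := by
        by_contra hcon
        push Not at hcon
        apply hinj
        rintro (i | i) (j | j) hij
        · have h2 := DFunLike.congr_fun hij g₀
          simp only [Sum.elim_inl] at h2
          rw [MonoidHom.comp_apply, MonoidHom.comp_apply, hfr, hfr, hmod] at h2
          exact congrArg Sum.inl (Fin.ext (pow_injOn_Iio_orderOf i.2 j.2 h2))
        · exact absurd hij (hcon i j)
        · exact absurd hij.symm (hcon j i)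
        · have h2 : fr i (χc g₁) = fr j (χc g₁) := DFunLike.congr_fun hij g₁
          rw [hfr, hfr, hχc, hg₁, hmod] at h2
          exact congrArg Sum.inr (Fin.ext (pow_injOn_Iio_orderOf i.2 j.2 h2))
      obtain ⟨i, j, hij⟩ := key
      refine ⟨i + (f - j), fun g hg => ?_⟩
      have h1 : fr i (χ ⟨g, hg⟩) = fr j (χc ⟨g, hg⟩) := DFunLike.congr_fun hij ⟨g, hg⟩
      rw [hfr, hfr, hχc] at h1
      have h2 : χ (MulAut.conjNormal c ⟨g, hg⟩) = χ ⟨g, hg⟩ ^ p ^ (i + (f - j) : ℕ) := by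
        rw [pow_add, pow_mul, h1, ← pow_mul, ← pow_add, Nat.add_sub_cancel' j.2.le, hpf]
      have hcg : c * g * c⁻¹ ∈ N := hN.conj_mem g hg c
      rw [hmem _ (N.mul_mem hcg (N.inv_mem (N.pow_mem hg _)))]
      have h3 : (⟨c * g * c⁻¹ * (g ^ p ^ (i + (f - j) : ℕ))⁻¹,
          N.mul_mem hcg (N.inv_mem (N.pow_mem hg _))⟩ : N) * (⟨g, hg⟩ : N) ^ p ^ (i + (f - j) : ℕ) =
          MulAut.conjNormal c ⟨g, hg⟩ := by
        apply Subtype.ext
        rw [MulAut.conjNormal_apply]
        simp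
      have h4 := congrArg χ h3
      rw [map_mul, map_pow, h2] at h4
      have h5 : χ ⟨g, hg⟩ ^ p ^ (i + (f - j) : ℕ) ≠ 0 := by
        rw [← hχu]
        exact pow_ne_zero _ (Units.ne_zero _)
      exact mul_right_cancel₀ h5 (by rw [h4, one_mul])

end chars

end Run7.h947.IW
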