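import Pool.Agent.Run7.h947.IW.Conj

/-!
# Reduction to the fields of vectors
-/

set_option autoImplicit false

namespace Run7.h947.IW

open IntermediateField Module Pool.Agent.Q60.MU Pool.Agent.W5h77.MB Pool.Agent.W5h33.DF NumberField
open Pool.Agent.X310.Mu (comms comms_normal)
open scoped Pointwise commutatorElement ComplexConjugate

variable {p : ℕ} {I : ValuationSubring Qb → Subgroup Gal(Qb/ℚ)}

/-- It suffices to consider one vector for each simple representation. -/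
theorem reduceN (hp : p.Prime) [Fact p.Prime]
    (hI : ∀ (g : Gal(Qb/ℚ)) (A : ValuationSubring Qb), ∀ σ ∈ I A, g * σ * g⁻¹ ∈ I (g • A))
    (hI2 : ∀ A, I A ≤ inertia A ∨ (p : Qb) ∈ A.nonunits)
    (N : IntermediateField ℚ Qb) [FiniteDimensional ℚ N] [hNn : IsGalois ℚ N]
    (h : ∀ (S : Type) [AddCommGroup S] [Module (ZMod p) S] [Module.Finite (ZMod p) S]
      (τ : Representation (ZMod p) Gal(Qb/ℚ) S), (∀ g ∈ N.fixingSubgroup, ∀ x, τ g x = x) →
      IsSimple τ → ∃ v : S, v ≠ 0 ∧ MuI p I (fixedField (stab τ v))) : MuI p I N := by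
  refine detectI hp hI hI2 N {E | E ≤ N ∧ MuI p I E}
    (fun E hE => hE.1) ?_ (fun E hE => hE.2) N le_rfl
  intro S _ _ _ τ hτ hs
  obtain ⟨v, hv, hm⟩ := h S τ hτ hs
  have hle : N.fixingSubgroup ≤ stab τ v := fun g hg => hτ g hg v
  have hso : IsOpen (stab τ v : Set Gal(Qb/ℚ)) := Subgroup.isOpen_mono hle N.fixingSubgroup_isOpen
  have hsf : (fixedField (stab τ v)).fixingSubgroup = stab τ v := fix_fixed hso
  refine ⟨fixedField (stab τ v), ⟨?_, hm⟩, v, hv, ?_⟩
  · rw [← InfiniteGalois.fixedField_fixingSubgroup N]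
    exact fixedField_antitone hle
  · rw [hsf]
    exact fun g hg => hg

/-- The Galois closure. -/
theorem exists_closure (F : IntermediateField ℚ Qb) (hF : FiniteDimensional ℚ F) :
    ∃ N : IntermediateField ℚ Qb, F ≤ N ∧ FiniteDimensional ℚ N ∧ IsGalois ℚ N := by
  have hUf : F.fixingSubgroup.FiniteIndex := ⟨index_ne_zero' F⟩
  set K := F.fixingSubgroup.normalCore with hKdef
  have hKn : K.Normal := Subgroup.normalCore_normal _
  have hKo : IsOpen (K : Set Gal(Qb/ℚ)) :=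
    isOpen_normalCore F.fixingSubgroup_isOpen (index_ne_zero' F)
  have hKf : K.index ≠ 0 := by
    have : K.FiniteIndex := F.fixingSubgroup.finiteIndex_normalCore
    exact Subgroup.FiniteIndex.index_ne_zero
  have hfix := fix_fixed hKo
  exact ⟨fixedField K, (le_iff_le _ _).2 (Subgroup.normalCore_le _), finite_fixed hKo hKf,
    (InfiniteGalois.normal_iff_isGalois (fixedField K)).1 (by rw [hfix]; exact hKn)⟩

section vec
variable [hpf : Fact p.Prime] {S : Type} [AddCommGroup S] [Module (ZMod p) S] [Module.Finite (ZMod p) S]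
  (τ : Representation (ZMod p) Gal(Qb/ℚ) S)

omit [Module.Finite (ZMod p) S] in
theorem stab_fix {N : IntermediateField ℚ Qb} [FiniteDimensional ℚ N]
    (hτ : ∀ g ∈ N.fixingSubgroup, ∀ x, τ g x = x) (v : S) :
    (fixedField (stab τ v)).fixingSubgroup = stab τ v ∧ fixedField (stab τ v) ≤ N := by
  have hle : N.fixingSubgroup ≤ stab τ v := fun g hg => hτ g hg v
  have hopen : IsOpen (stab τ v : Set Gal(Qb/ℚ)) := Subgroup.isOpen_mono hle N.fixingSubgroup_isOpen
  refine ⟨fix_fixed hopen, ?_⟩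
  rw [← InfiniteGalois.fixedField_fixingSubgroup N]
  exact fixedField_antitone hle

/-- A vector fixed by the complex conjugation of `ι`. -/
theorem vec_real {N : IntermediateField ℚ Qb} [FiniteDimensional ℚ N]
    (hτ : ∀ g ∈ N.fixingSubgroup, ∀ x, τ g x = x) {ι : Qb →+* ℂ} {c : Gal(Qb/ℚ)}
    (hc : ∀ x, ι (c x) = conj (ι x)) (h : ∃ v : S, v ≠ 0 ∧ τ c v = v) :
    ∃ v : S, v ≠ 0 ∧ fixedField (stab τ v) ≤ N ∧
      FreeAut p (fixedField (stab τ v)) ∧ HasRealEmbedding (fixedField (stab τ v)) := by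
  obtain ⟨v, hv, hcv, hf⟩ := exists_free τ hτ (fun H => c ∈ H) (fun H H' hH hcH => hH hcH) h
  obtain ⟨h1, h2⟩ := stab_fix τ hτ v
  refine ⟨v, hv, h2, hf, ι.comp (fixedField (stab τ v)).val.toRingHom, fun x => ?_⟩
  show conj (ι (x : Qb)) = ι (x : Qb)
  rw [← hc]
  congr 1
  exact (mem_fixedField_iff _ _).1 x.2 c hcv

/-- A vector whose field is CM of degree prime to `p`. -/
theorem vec_cm (hp2 : p ≠ 2) [Nontrivial S] {N : IntermediateField ℚ Qb} [FiniteDimensional ℚ N]
    [hNg : IsGalois ℚ N] (hτ : ∀ g ∈ N.fixingSubgroup, ∀ x, τ g x = x) {ι : Qb →+* ℂ} {c : Gal(Qb/ℚ)}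
    (hc : ∀ x, ι (c x) = conj (ι x)) (hcc : c * c = 1) (h : ∀ v : S, τ c v = -v) :
    ∃ v : S, v ≠ 0 ∧ fixedField (stab τ v) ≤ N ∧
      FreeAut p (fixedField (stab τ v)) ∧ IsCM (fixedField (stab τ v)) ∧
      ¬ p ∣ finrank ℚ (fixedField (stab τ v)) := by
  have hNn : N.fixingSubgroup.Normal := (InfiniteGalois.normal_iff_isGalois N).2 hNg
  obtain ⟨v, hv, H, hH, hHp⟩ := exists_vec_P hNn (index_ne_zero' N) τ hτ
  obtain ⟨v, hv, hPv, hf⟩ := exists_free τ hτ (fun H => ¬ p ∣ H.index)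
    (fun H H' hH hcH h1 => hcH (h1.trans (Subgroup.index_dvd_of_le hH)))
    ⟨v, hv, fun h1 => hHp (h1.trans (Subgroup.index_dvd_of_le hH))⟩
  obtain ⟨h1, h2⟩ := stab_fix τ hτ v
  have hcm := comms_triv τ hcc h
  have hmem : ∀ g x, g ∈ stab τ v → x ∈ fixedField (stab τ v) → g x = x := fun g x hg hx =>
    (mem_fixedField_iff _ _).1 hx g hg
  obtain ⟨j, hj, hj2⟩ := realOrCM_of hc (E := fixedField (stab τ v))
    (fun g hg x hx => hmem g x (hcm g hg v) hx) (fun x hx => by
      rw [mem_fixedField_iff]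
      intro g hg
      have h3 : c⁻¹ * g * c ∈ stab τ v := by
        show τ (c⁻¹ * g * c) v = v
        have hci : c⁻¹ = c := inv_eq_of_mul_eq_one_right hcc
        have hg' : τ g v = v := hg
        rw [hci, map_mul, map_mul, Module.End.mul_apply, Module.End.mul_apply, h, h, map_neg, hg', neg_neg]
      have h4 := hmem _ x h3 hx
      have h5 : g (c x) = c ((c⁻¹ * g * c) x) := by
        show (g * c) x = (c * (c⁻¹ * g * c)) x
        congr 1
        group
      rw [h5, h4])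
  refine ⟨v, hv, h2, hf, ⟨j, hj, ?_⟩, ?_⟩
  · by_contra h3
    push Not at h3
    have h4 : c ∈ (fixedField (stab τ v)).fixingSubgroup := by
      rw [IntermediateField.mem_fixingSubgroup_iff]
      intro x hx
      rw [← hj2 ⟨x, hx⟩, h3]
    rw [h1] at h4
    have h5 : τ c v = v := h4
    rw [h] at h5
    have h6 : (2 : ZMod p) • v = 0 := by
      rw [two_smul]
      nth_rewrite 1 [← h5]
      exact neg_add_cancel v
    rcases smul_eq_zero.1 h6 with h7 | h7
    · have h8 : (p : ℕ) ∣ 2 := (ZMod.natCast_eq_zero_iff 2 p).1 (by exact_mod_cast h7)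
      exact hp2 ((Nat.prime_dvd_prime_iff_eq Fact.out Nat.prime_two).1 h8)
    · exact hv h7
  · rw [finrank_eq_fixingSubgroup_index, h1]
    exact hPv

end vec

/-- The largest subfield of `N` which is totally real or CM. -/
theorem exists_E0 (ι : Qb →+* ℂ) {c : Gal(Qb/ℚ)} (hc : ∀ x, ι (c x) = conj (ι x)) (hcc : c * c = 1)
    (N : IntermediateField ℚ Qb) [FiniteDimensional ℚ N] [hNg : IsGalois ℚ N] :
    ∃ E₀ : IntermediateField ℚ Qb, E₀.fixingSubgroup = N.fixingSubgroup ⊔ comms c ∧ E₀ ≤ N ∧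
      IsGalois ℚ E₀ ∧ IsRealOrCM E₀ ∧
      (∀ E : IntermediateField ℚ Qb, E ≤ N → IsRealOrCM E → E ≤ E₀) ∧
      ((∀ E : IntermediateField ℚ Qb, E ≤ N → ¬ IsCM E) → c ∈ E₀.fixingSubgroup) := by
  have hNn : N.fixingSubgroup.Normal := (InfiniteGalois.normal_iff_isGalois N).2 hNg
  have hcn := comms_normal c
  set H := N.fixingSubgroup ⊔ comms c with hH
  have hHn : H.Normal := Subgroup.sup_normal _ _
  have hle : N.fixingSubgroup ≤ H := le_sup_left
  have hopen : IsOpen (H : Set Gal(Qb/ℚ)) := Subgroup.isOpen_mono hle N.fixingSubgroup_isOpen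
  have hfix : (fixedField H).fixingSubgroup = H := fix_fixed hopen
  have hEN : fixedField H ≤ N := by
    rw [← InfiniteGalois.fixedField_fixingSubgroup N]
    exact fixedField_antitone hle
  obtain ⟨j, hj, hj2⟩ := realOrCM_of hc (E := fixedField H)
    (fun g hg x hx => (mem_fixedField_iff _ _).1 hx g (hH ▸ le_sup_right (a := N.fixingSubgroup) hg))
    (fun x hx => by
      rw [mem_fixedField_iff] at hx ⊢
      intro g hg
      have h4 := hx _ (by
        have := hHn.conj_mem g hg c⁻¹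
        rwa [inv_inv] at this)
      have h5 : g (c x) = c ((c⁻¹ * g * c) x) := by
        show (g * c) x = (c * (c⁻¹ * g * c)) x
        congr 1
        group
      rw [h5, h4])
  refine ⟨fixedField H, hfix, hEN, ?_, ⟨j, hj⟩, ?_, ?_⟩
  · exact (InfiniteGalois.normal_iff_isGalois (fixedField H)).1 (by rw [hfix]; exact hHn)
  · rintro E hE ⟨j, hj⟩
    rw [← InfiniteGalois.fixedField_fixingSubgroup E]
    apply fixedField_antitone
    rw [hH, sup_le_iff]
    refine ⟨fixingSubgroup_le hE, ?_⟩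
    have h1 : ∀ (g : Gal(Qb/ℚ)) (x : E), g (j x : Qb) = c (g (x : Qb)) := by
      intro g x
      have h2 := hj (ι.comp ((g : Qb →ₐ[ℚ] Qb).toRingHom.comp E.val.toRingHom)) x
      have h3 : ι (g (j x : Qb)) = conj (ι (g (x : Qb))) := h2
      rw [← hc] at h3
      exact ι.injective h3
    unfold comms
    rw [Subgroup.closure_le]
    rintro _ ⟨g, rfl⟩
    refine (IntermediateField.mem_fixingSubgroup_iff _ _).2 fun x hx => ?_
    have hci : c⁻¹ = c := inv_eq_of_mul_eq_one_right hcc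
    rw [hci]
    show g (c (g⁻¹ (c x))) = x
    have h2 : c x = (j ⟨x, hx⟩ : Qb) := (h1 1 ⟨x, hx⟩).symm
    have h3 := h1 g⁻¹ (j ⟨x, hx⟩)
    rw [h2, ← h3]
    show (g * g⁻¹) ((j (j ⟨x, hx⟩) : E) : Qb) = x
    rw [mul_inv_cancel]
    have h4 : ((j (j ⟨x, hx⟩) : E) : Qb) = c (j ⟨x, hx⟩ : Qb) := h1 1 (j ⟨x, hx⟩)
    show ((j (j ⟨x, hx⟩) : E) : Qb) = x
    rw [h4, ← h2]
    show (c * c) x = x
    rw [hcc]
    rfl
  · intro h
    by_contra h1
    apply h (fixedField H) hEN
    refine ⟨j, hj, ?_⟩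
    by_contra h3
    push Not at h3
    apply h1
    rw [IntermediateField.mem_fixingSubgroup_iff]
    intro x hx
    rw [← hj2 ⟨x, hx⟩, h3]

end Run7.h947.IW
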