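import Pool.Agent.Run7.h947.IW.Split
import Pool.Agent.Run7.h947.IW.Tot

/-!
# Undecomposed primes above `p` over a field which is not Galois over `ℚ`
-/

set_option autoImplicit false

namespace Run7.h947.IW

open IntermediateField Module Pool.Agent.Q60.MU Pool.Agent.W5h77.MB Pool.Agent.W5h33.DF NumberField
open scoped Pointwise commutatorElement

/-- The primes above `p` of `K R` are not decomposed in the layers above `K R`, if `K` is contained in a
finite Galois extension `N` and the degree of the layer `R` is at least the largest power of `p` which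
divides the degree of `N`. -/
theorem split_total' {p : ℕ} [hp : Fact p.Prime] (hp2 : p ≠ 2) {K N : IntermediateField ℚ Qb}
    (hKN : K ≤ N) [FiniteDimensional ℚ N] [hKg : IsGalois ℚ N] {e : ℕ} {R : IntermediateField ℚ Qb}
    (hR : IsLayer p e R) (he : ¬ p ^ (e + 1) ∣ finrank ℚ N) :
    TotallyI p (splitAbove p) (K ⊔ R) := by
  intro m S hS A hA σ hσ
  have hfR := layer_fd hp.out hR
  have hfS := layer_fd hp.out hS
  obtain ⟨m', hS'⟩ := layer_sup hR hS
  have hfS' := layer_fd hp.out hS'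
  have hKn : N.fixingSubgroup.Normal := (InfiniteGalois.normal_iff_isGalois N).2 hKg
  have hSn := layer_normal hp.out hS'
  have hidx : ∀ (m : ℕ) (R : IntermediateField ℚ Qb), IsLayer p m R →
      R.fixingSubgroup.index = p ^ m := fun m R hR => by
    rw [← hR.1, finrank_eq_fixingSubgroup_index Qb R]
  have hKidx : finrank ℚ N = N.fixingSubgroup.index := finrank_eq_fixingSubgroup_index Qb N
  have hZ : MulAction.stabilizer Gal(Qb/ℚ) A ⊔ (R ⊔ S).fixingSubgroup = ⊤ := by
    rw [eq_top_iff]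
    intro g _
    obtain ⟨-, M, hM⟩ := hS'
    obtain ⟨τ, hτ, hτ2⟩ := one_orbit (N := M) hp.out A hA g
    have h1 : τ ∈ (R ⊔ S).fixingSubgroup := by
      have h2 : adjoin ℚ {z : Qb | z ^ p ^ M = 1} ≤ fixedField (Subgroup.zpowers τ) := by
        rw [adjoin_le_iff]
        intro z hz
        have h3 : Subgroup.zpowers τ ≤ MulAction.stabilizer Gal(Qb/ℚ) z := by
          rw [Subgroup.zpowers_le]
          exact hτ2 z hz
        exact (mem_fixedField_iff _ _).2 fun f hf => h3 hf
      rw [IntermediateField.mem_fixingSubgroup_iff]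
      intro x hx
      exact (mem_fixedField_iff _ _).1 (h2 (hM hx)) τ (Subgroup.mem_zpowers τ)
    have h2 : τ⁻¹ * g ∈ MulAction.stabilizer Gal(Qb/ℚ) A := by
      rw [MulAction.mem_stabilizer_iff, mul_smul, hτ, inv_smul_smul]
    have h3 : g = τ * (τ⁻¹ * g) := by group
    rw [h3]
    exact mul_mem ((le_sup_right : (R ⊔ S).fixingSubgroup ≤ _) h1) (Subgroup.mem_sup_left h2)
  rw [fixingSubgroup_sup] at hσ
  obtain ⟨τ, hτZ, hτK, hστ⟩ := group_total' hp.out hKn hSn (layer_normal hp.out hR)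
    (fixingSubgroup_le (le_sup_left : R ≤ R ⊔ S)) (hidx e R hR) (hidx m' _ hS')
    (layer_cyclic hp.out hp2 hS') hZ (by rwa [← hKidx]) σ hσ.2
  have hτK' : τ ∈ K.fixingSubgroup := fixingSubgroup_le hKN hτK
  have hτR : τ ∈ R.fixingSubgroup := by
    have h1 : σ * τ⁻¹ ∈ R.fixingSubgroup := fixingSubgroup_le (le_sup_left : R ≤ R ⊔ S) hστ
    have h2 : τ = (σ * τ⁻¹)⁻¹ * σ := by group
    rw [h2]
    exact mul_mem (inv_mem h1) hσ.2
  refine ⟨τ, ?_, ?_, fun x hx => ?_⟩
  · unfold splitAbove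
    rw [if_pos hA]
    exact hτZ
  · rw [fixingSubgroup_sup]
    exact ⟨hτK', hτR⟩
  · have h1 : τ⁻¹ * σ ∈ (K ⊔ (R ⊔ S)).fixingSubgroup := by
      rw [fixingSubgroup_sup]
      refine ⟨K.fixingSubgroup.mul_mem (K.fixingSubgroup.inv_mem hτK') hσ.1, ?_⟩
      have h2 := hSn.conj_mem _ hστ τ⁻¹
      have h3 : τ⁻¹ * (σ * τ⁻¹) * τ⁻¹⁻¹ = τ⁻¹ * σ := by group
      rwa [h3] at h2
    have h2 := (IntermediateField.mem_fixingSubgroup_iff _ _).1 h1 x (by rwa [← sup_assoc])
    have h3 : τ ((τ⁻¹ * σ) x) = σ x := by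
      show (τ * (τ⁻¹ * σ)) x = σ x
      rw [mul_inv_cancel_left]
    rw [← h3, h2]

end Run7.h947.IW
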